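import Pool.Agent.AMD.Defs

/-!
# Case 2: classes of edges
-/

set_option autoImplicit false

namespace Pool.Agent.AMD

open Finset Pool.Agent.AMF

variable {W X : Type} [Fintype W] [DecidableEq W] [Fintype X] [DecidableEq X]
  {H : SimpleGraph W} [DecidableRel H.Adj] {own : X → W} {ρ : W} {par : W → W} {dp : W → ℕ}
  {lf : W → X} {oth : W → W} {I : Finset W}

private theorem Cls_mem_RS {v : W} : v ∈ RS own I ↔ v ∉ I ∧ IsSup own v := by
  simp [RS]

private theorem Cls_mem_R0 {v : W} : v ∈ R0 own I ↔ v ∉ I ∧ ¬ IsSup own v := by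
  simp [R0]

private theorem Cls_mem_DI {e : Sym2 W} : e ∈ DI ρ par I ↔ ∃ u, u ∈ I ∧ u ≠ ρ ∧ ed par u = e := by
  simp only [DI, mem_image, mem_erase]
  constructor
  · rintro ⟨u, ⟨h1, h2⟩, h3⟩
    exact ⟨u, h2, h1, h3⟩
  · rintro ⟨u, h2, h1, h3⟩
    exact ⟨u, ⟨h1, h2⟩, h3⟩

private theorem Cls_mem_HS {e : Sym2 W} : e ∈ HS own par oth I ↔
    (∃ u, u ∉ I ∧ ed par u = e) ∨ ∃ u, u ∈ R0 own I ∧ s(u, oth u) = e := by
  simp only [HS, mem_union, mem_image, mem_sdiff, mem_univ, true_and]

private theorem Cls_ne_root (h : Irr H own ρ par dp lf oth I) {v : W} (hv : v ∉ I) : v ≠ ρ := by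
  rintro rfl
  exact hv h.root

/-- tree edges are different (compare `dp`) -/
theorem Irr.ed_inj (h : Irr H own ρ par dp lf oth I) {u v : W} (hu : u ≠ ρ) (hv : v ≠ ρ)
    (huv : ed par u = ed par v) : u = v := by
  unfold ed at huv
  rw [Sym2.eq_iff] at huv
  rcases huv with h1 | ⟨h1, h2⟩
  · exact h1.1
  · exfalso
    have a := h.pdp u hu
    have b := h.pdp v hv
    rw [h2] at a
    rw [← h1] at b
    omega

theorem Irr.DI_sub (h : Irr H own ρ par dp lf oth I) : DI ρ par I ⊆ H.edgeFinset := by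
  intro e he
  obtain ⟨u, _, hu, rfl⟩ := Cls_mem_DI.1 he
  rw [SimpleGraph.mem_edgeFinset]
  exact h.padj u hu

theorem Irr.HS_sub (h : Irr H own ρ par dp lf oth I) : HS own par oth I ⊆ H.edgeFinset := by
  intro e he
  rw [SimpleGraph.mem_edgeFinset]
  rcases Cls_mem_HS.1 he with ⟨u, hu, rfl⟩ | ⟨u, hu, rfl⟩
  · exact h.padj u (Cls_ne_root h hu)
  · have hu' := Cls_mem_R0.1 hu
    exact (h.othadj u hu'.1 hu'.2).1

theorem Irr.DI_card (h : Irr H own ρ par dp lf oth I) : (DI ρ par I).card + 1 = I.card := by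
  have : (DI ρ par I).card = (I.erase ρ).card := by
    unfold DI
    apply card_image_of_injOn
    intro u hu v hv huv
    rw [mem_coe, mem_erase] at hu hv
    exact h.ed_inj hu.1 hv.1 huv
  rw [this]
  exact card_erase_add_one h.root

/-- a second slot `{v, oth v}` of `v ∈ R0` is no tree edge: `oth v ∈ I` (`nb`), `oth v ≠ par v`, and
`par (oth v) = v` is impossible (`noch`) -/
theorem Irr.oe_ne (h : Irr H own ρ par dp lf oth I) {v u : W} (hv : v ∈ R0 own I) (hu : u ≠ ρ) :
    s(v, oth v) ≠ ed par u := by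
  intro he
  have hv' := Cls_mem_R0.1 hv
  unfold ed at he
  rw [Sym2.eq_iff] at he
  rcases he with ⟨h1, h2⟩ | ⟨h1, h2⟩
  · rw [← h1] at h2
    exact (h.othadj v hv'.1 hv'.2).2 h2
  · exact h.noch v hv'.1 u hu h1.symm

/-- second slots are different: `oth v ∈ I`, `v ∉ I` -/
theorem Irr.oe_inj (h : Irr H own ρ par dp lf oth I) {u v : W} (hu : u ∈ R0 own I)
    (hv : v ∈ R0 own I) (huv : s(u, oth u) = s(v, oth v)) : u = v := by
  have hu' := Cls_mem_R0.1 hu
  have hv' := Cls_mem_R0.1 hv
  rw [Sym2.eq_iff] at huv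
  rcases huv with ⟨h1, _⟩ | ⟨h1, _⟩
  · exact h1
  · exfalso
    have := h.nb v hv'.1 (oth v) (h.othadj v hv'.1 hv'.2).1
    rw [← h1] at this
    exact hu'.1 this

theorem Irr.disj (h : Irr H own ρ par dp lf oth I) :
    Disjoint (DI ρ par I) (HS own par oth I) := by
  rw [disjoint_left]
  intro e he he'
  obtain ⟨u, huI, hu, rfl⟩ := Cls_mem_DI.1 he
  rcases Cls_mem_HS.1 he' with ⟨v, hv, hv'⟩ | ⟨v, hv, hv'⟩
  · have := h.ed_inj (Cls_ne_root h hv) hu hv'
    rw [this] at hv
    exact hv huI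
  · exact h.oe_ne hv hu hv'

theorem Irr.HS_card (h : Irr H own ρ par dp lf oth I) :
    (HS own par oth I).card = (univ \ I).card + (R0 own I).card := by
  unfold HS
  rw [card_union_of_disjoint]
  · rw [card_image_of_injOn, card_image_of_injOn]
    · intro u hu v hv huv
      rw [mem_coe] at hu hv
      exact h.oe_inj hu hv huv
    · intro u hu v hv huv
      rw [mem_coe, mem_sdiff] at hu hv
      exact h.ed_inj (Cls_ne_root h hu.2) (Cls_ne_root h hv.2) huv
  · rw [disjoint_left]
    intro e he he'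
    rw [mem_image] at he he'
    obtain ⟨u, hu, rfl⟩ := he
    obtain ⟨v, hv, hv'⟩ := he'
    rw [mem_sdiff] at hu
    exact h.oe_ne hv (Cls_ne_root h hu.2) hv'

theorem Irr.LS_card (h : Irr H own ρ par dp lf oth I) : (LS own lf I).card = (RS own I).card := by
  unfold LS
  apply card_image_of_injOn
  intro u hu v hv huv
  rw [mem_coe] at hu hv
  have a := h.lfo u (Cls_mem_RS.1 hu).2
  have b := h.lfo v (Cls_mem_RS.1 hv).2
  rw [← a, ← b, huv]

theorem Irr.card_E (h : Irr H own ρ par dp lf oth I) :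
    (BI H.edgeFinset own ρ par oth I).card + (HS own par oth I).card + (DI ρ par I).card =
      H.edgeFinset.card := by
  have h1 : (DI ρ par I ∪ HS own par oth I).card = (DI ρ par I).card + (HS own par oth I).card :=
    card_union_of_disjoint h.disj
  have h2 : DI ρ par I ∪ HS own par oth I ⊆ H.edgeFinset := union_subset h.DI_sub h.HS_sub
  have h3 := card_sdiff_add_card_eq_card h2
  unfold BI
  omega

/-- the edges at a regular vertex: background edges, the tree edge and the second slot -/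
private theorem Cls_edge (h : Irr H own ρ par dp lf oth I) (v : W) (hv : v ∉ I) (e : Sym2 W)
    (hve : v ∈ e) (he : e ∈ DI ρ par I ∪ HS own par oth I) :
    e = ed par v ∨ (v ∈ R0 own I ∧ e = s(v, oth v)) := by
  rw [mem_union] at he
  rcases he with he | he
  · exfalso
    obtain ⟨u, huI, hu, rfl⟩ := Cls_mem_DI.1 he
    unfold ed at hve
    rw [Sym2.mem_iff] at hve
    rcases hve with rfl | h1
    · exact hv huI
    · rw [h1] at hv
      exact hv (h.up u huI hu)
  · rcases Cls_mem_HS.1 he with ⟨u, hu, rfl⟩ | ⟨u, hu, rfl⟩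
    · unfold ed at hve
      rw [Sym2.mem_iff] at hve
      rcases hve with rfl | h1
      · exact Or.inl rfl
      · exact absurd h1.symm (h.noch v hv u (Cls_ne_root h hu))
    · rw [Sym2.mem_iff] at hve
      rcases hve with rfl | h1
      · exact Or.inr ⟨hu, rfl⟩
      · exfalso
        have hu' := Cls_mem_R0.1 hu
        have := h.nb u hu'.1 (oth u) (h.othadj u hu'.1 hu'.2).1
        rw [← h1] at this
        exact hv this

private theorem Cls_ed_mem (v : W) (hv : v ∉ I) : ed par v ∈ HS own par oth I :=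
  Cls_mem_HS.2 (Or.inl ⟨v, hv, rfl⟩)

/-- the edges at a regular support -/
private theorem Cls_at_RS (h : Irr H own ρ par dp lf oth I) (v : W) (hv : v ∈ RS own I) :
    edgesAt H.edgeFinset v = insert (ed par v) (edgesAt (BI H.edgeFinset own ρ par oth I) v) := by
  have hv' := Cls_mem_RS.1 hv
  ext e
  simp only [edgesAt, mem_filter, mem_insert]
  constructor
  · rintro ⟨h1, h2⟩
    by_cases h3 : e ∈ DI ρ par I ∪ HS own par oth I
    · rcases Cls_edge h v hv'.1 e h2 h3 with h4 | h4
      · exact Or.inl h4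
      · exact absurd hv'.2 (Cls_mem_R0.1 h4.1).2
    · exact Or.inr ⟨mem_sdiff.2 ⟨h1, h3⟩, h2⟩
  · rintro (rfl | ⟨h1, h2⟩)
    · refine ⟨h.HS_sub (Cls_ed_mem v hv'.1), ?_⟩
      unfold ed
      simp
    · exact ⟨(mem_sdiff.1 h1).1, h2⟩

/-- the edges at a regular vertex that is no support -/
private theorem Cls_at_R0 (h : Irr H own ρ par dp lf oth I) (v : W) (hv : v ∈ R0 own I) :
    edgesAt H.edgeFinset v = insert (ed par v) (insert s(v, oth v)
      (edgesAt (BI H.edgeFinset own ρ par oth I) v)) := by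
  have hv' := Cls_mem_R0.1 hv
  ext e
  simp only [edgesAt, mem_filter, mem_insert]
  constructor
  · rintro ⟨h1, h2⟩
    by_cases h3 : e ∈ DI ρ par I ∪ HS own par oth I
    · rcases Cls_edge h v hv'.1 e h2 h3 with h4 | h4
      · exact Or.inl h4
      · exact Or.inr (Or.inl h4.2)
    · exact Or.inr (Or.inr ⟨mem_sdiff.2 ⟨h1, h3⟩, h2⟩)
  · rintro (rfl | rfl | ⟨h1, h2⟩)
    · refine ⟨h.HS_sub (Cls_ed_mem v hv'.1), ?_⟩
      unfold ed
      simp
    · refine ⟨h.HS_sub (Cls_mem_HS.2 (Or.inr ⟨v, hv, rfl⟩)), ?_⟩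
      simp
    · exact ⟨(mem_sdiff.1 h1).1, h2⟩

private theorem Cls_notin (v : W) (E : Finset (Sym2 W)) {e : Sym2 W} (he : e ∈ HS own par oth I) :
    e ∉ edgesAt (BI E own ρ par oth I) v := by
  intro h1
  simp only [edgesAt, mem_filter, BI, mem_sdiff, mem_union, not_or] at h1
  exact h1.1.2.2 he

/-- the sum at a regular support -/
theorem Irr.wsum_RS (h : Irr H own ρ par dp lf oth I) (p : ℕ) (lam : X → ℕ) (g : Sym2 W → ℕ) (v : W)
    (hv : v ∈ RS own I) :
    ((wsum own H.edgeFinset lam g v : ℕ) : ZMod p) =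
      off own lf I (BI H.edgeFinset own ρ par oth I) p lam g v + ((g (ed par v) : ℕ) : ZMod p) +
        ((lam (lf v) : ℕ) : ZMod p) := by
  have hv' := Cls_mem_RS.1 hv
  have hown := h.lfo v hv'.2
  have hL : leavesAt own v = insert (lf v) ((leavesAt own v).filter (fun x => x ∉ LS own lf I)) := by
    ext x
    simp only [leavesAt, mem_insert, mem_filter, mem_univ, true_and]
    constructor
    · intro h1
      by_cases h2 : x ∈ LS own lf I
      · left
        unfold LS at h2
        rw [mem_image] at h2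
        obtain ⟨u, hu, rfl⟩ := h2
        rw [h.lfo u (Cls_mem_RS.1 hu).2] at h1
        rw [h1]
      · exact Or.inr ⟨h1, h2⟩
    · rintro (rfl | h1)
      · exact hown
      · exact h1.1
  have hn : lf v ∉ (leavesAt own v).filter (fun x => x ∉ LS own lf I) := by
    simp only [mem_filter, not_and, not_not]
    intro _
    unfold LS
    exact mem_image_of_mem lf hv
  unfold wsum off
  rw [Cls_at_RS h v hv, sum_insert (Cls_notin v _ (Cls_ed_mem v hv'.1))]
  conv_lhs => rw [hL, sum_insert hn]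
  push_cast
  ring

/-- the sum at a regular vertex that is no support -/
theorem Irr.wsum_R0 (h : Irr H own ρ par dp lf oth I) (p : ℕ) (lam : X → ℕ) (g : Sym2 W → ℕ) (v : W)
    (hv : v ∈ R0 own I) :
    ((wsum own H.edgeFinset lam g v : ℕ) : ZMod p) =
      off own lf I (BI H.edgeFinset own ρ par oth I) p lam g v + ((g (ed par v) : ℕ) : ZMod p) +
        ((g s(v, oth v) : ℕ) : ZMod p) := by
  have hv' := Cls_mem_R0.1 hv
  have hL : leavesAt own v = ∅ := not_nonempty_iff_eq_empty.1 hv'.2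
  have h1 : s(v, oth v) ∉ edgesAt (BI H.edgeFinset own ρ par oth I) v :=
    Cls_notin v _ (Cls_mem_HS.2 (Or.inr ⟨v, hv, rfl⟩))
  have h2 : ed par v ∉ insert s(v, oth v) (edgesAt (BI H.edgeFinset own ρ par oth I) v) := by
    rw [mem_insert, not_or]
    exact ⟨fun h3 => h.oe_ne hv (Cls_ne_root h hv'.1) h3.symm, Cls_notin v _ (Cls_ed_mem v hv'.1)⟩
  unfold wsum off
  rw [Cls_at_R0 h v hv, sum_insert h2, sum_insert h1, hL]
  simp only [sum_empty, filter_empty]
  push_cast
  ring

/-- the edges at a regular vertex: background edges, the tree edge and the second slot -/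
theorem Irr.edge_reg (h : Irr H own ρ par dp lf oth I) (v : W) (hv : v ∉ I) (e : Sym2 W)
    (he : e ∈ H.edgeFinset) (hve : v ∈ e) :
    e ∈ BI H.edgeFinset own ρ par oth I ∨ e = ed par v ∨ (v ∈ R0 own I ∧ e = s(v, oth v)) := by
  by_cases h3 : e ∈ DI ρ par I ∪ HS own par oth I
  · exact Or.inr (Cls_edge h v hv e hve h3)
  · exact Or.inl (mem_sdiff.2 ⟨he, h3⟩)

/-- the offset depends only on the labels of background leaves and background edges -/
theorem off_congr (B : Finset (Sym2 W)) (p : ℕ) (lam lam' : X → ℕ) (g g' : Sym2 W → ℕ) (v : W)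
    (hl : ∀ x, x ∉ LS own lf I → lam x = lam' x) (hg : ∀ e ∈ B, g e = g' e) :
    off own lf I B p lam g v = off own lf I B p lam' g' v := by
  unfold off
  congr 1
  · apply sum_congr rfl
    intro x hx
    rw [mem_filter] at hx
    rw [hl x hx.2]
  · apply sum_congr rfl
    intro e he
    unfold edgesAt at he
    rw [mem_filter] at he
    rw [hg e he.1]

end Pool.Agent.AMD
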