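import Pool.Agent.AMF.Defs

/-!
# Case 2: definitions

`H` the inner graph, `own x` the neighbour of the leaf `x`. A *support* is a vertex `w` with
`(leavesAt own w).Nonempty`. `ρ` is the root (a support), `par` the parents, `ed par v = {v, par v}` the
tree edge of `v ≠ ρ`. `I` is the set of irregular vertices. A regular vertex `v ∉ I` has two slots: its
tree edge and a private leaf `lf v` if it is a support, or a second inner edge `{v, oth v}` if it is not.
-/

set_option autoImplicit false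
set_option linter.unusedSectionVars false
set_option linter.unusedVariables false

namespace Pool.Agent.AMD

open Finset Pool.Agent.AMF

variable {W X : Type} [Fintype W] [DecidableEq W] [Fintype X] [DecidableEq X]

/-- support -/
abbrev IsSup (own : X → W) (w : W) : Prop := (leavesAt own w).Nonempty

/-- the tree edge of `v` -/
def ed (par : W → W) (v : W) : Sym2 W := s(v, par v)

/-- The skeleton of Case 2. -/
structure Irr (H : SimpleGraph W) (own : X → W) (ρ : W) (par : W → W) (dp : W → ℕ) (lf : W → X)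
    (oth : W → W) (I : Finset W) : Prop where
  root : ρ ∈ I
  rootS : IsSup own ρ
  padj : ∀ v, v ≠ ρ → H.Adj v (par v)
  pdp : ∀ v, v ≠ ρ → dp (par v) < dp v
  up : ∀ v ∈ I, v ≠ ρ → par v ∈ I
  lfo : ∀ v, IsSup own v → own (lf v) = v
  nb : ∀ v, v ∉ I → ∀ u, H.Adj v u → u ∈ I
  noch : ∀ v, v ∉ I → ∀ u, u ≠ ρ → par u ≠ v
  othadj : ∀ v, v ∉ I → ¬ IsSup own v → H.Adj v (oth v) ∧ oth v ≠ par v

/-- regular supports -/
def RS (own : X → W) (I : Finset W) : Finset W := univ.filter fun w => w ∉ I ∧ IsSup own w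

/-- regular vertices that are no supports -/
def R0 (own : X → W) (I : Finset W) : Finset W := univ.filter fun w => w ∉ I ∧ ¬ IsSup own w

/-- tree edges of irregular vertices -/
def DI (ρ : W) (par : W → W) (I : Finset W) : Finset (Sym2 W) := (I.erase ρ).image (ed par)

/-- inner slots of regular vertices -/
def HS (own : X → W) (par oth : W → W) (I : Finset W) : Finset (Sym2 W) :=
  (univ \ I).image (ed par) ∪ (R0 own I).image (fun v => s(v, oth v))

/-- background edges -/
def BI (E : Finset (Sym2 W)) (own : X → W) (ρ : W) (par oth : W → W) (I : Finset W) :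
    Finset (Sym2 W) :=
  E \ (DI ρ par I ∪ HS own par oth I)

/-- leaf slots of regular supports -/
def LS (own : X → W) (lf : W → X) (I : Finset W) : Finset X := (RS own I).image lf

/-- offset of `v`: labels of the background leaves and of the background edges -/
def off (own : X → W) (lf : W → X) (I : Finset W) (B : Finset (Sym2 W)) (p : ℕ) (lam : X → ℕ)
    (g : Sym2 W → ℕ) (v : W) : ZMod p :=
  ∑ x ∈ (leavesAt own v).filter (fun x => x ∉ LS own lf I), (lam x : ZMod p) +
    ∑ e ∈ edgesAt B v, (g e : ZMod p)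

/-- Background labels (page 2): the leaves outside `LS` have the labels `1, ..., |X| - |LS|`, the
background edges have labels greater than `|X| + |DI|`, the remaining labels `LH` are for the inner
slots. -/
structure Init (E : Finset (Sym2 W)) (own : X → W) (ρ : W) (par : W → W) (lf : W → X) (oth : W → W)
    (I : Finset W) (p : ℕ) (lam0 : X → ℕ) (g0 : Sym2 W → ℕ) (LH : Finset ℕ) (lo : ℕ) : Prop where
  lam : Set.BijOn lam0 (↑(univ \ LS own lf I) : Set X)
    (↑(Icc 1 (Fintype.card X - (LS own lf I).card)) : Set ℕ)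
  ginj : Set.InjOn g0 (BI E own ρ par oth I)
  gmem : ∀ e ∈ BI E own ρ par oth I, g0 e ∈
    Ioc (Fintype.card X + (DI ρ par I).card) (Fintype.card X + E.card)
  LHd : LH = Ioc (Fintype.card X + (DI ρ par I).card) (Fintype.card X + E.card) \
    (BI E own ρ par oth I).image g0
  LHc : LH.card = (HS own par oth I).card
  LHi : ∀ b ∈ LH, lo ≤ b ∧ b < lo + ((HS own par oth I).card + Fintype.card W)
  mult : ∀ y : ZMod p, y ≠ 0 → ((RS own I).filter fun v =>
    off own lf I (BI E own ρ par oth I) p lam0 g0 v = y).card ≤ 8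

/-- A complete labelling before the repair. `Q` = irregular and unmatched vertices; vertices outside `Q`
are regular and matched. `s0` = number of safe labels. -/
structure Lay (E : Finset (Sym2 W)) (own : X → W) (ρ : W) (par : W → W) (dp : W → ℕ) (lf : W → X)
    (Q : Finset W) (p : ℕ) (T : Finset (ZMod p)) (lam : X → ℕ) (g : Sym2 W → ℕ) (s0 : ℕ) (q : ℝ) :
    Prop where
  lam_mem : ∀ x, 1 ≤ lam x ∧ lam x ≤ Fintype.card X
  lam_inj : Function.Injective lam
  g_mem : ∀ e ∈ E, Fintype.card X < g e ∧ g e ≤ Fintype.card X + E.card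
  g_inj : Set.InjOn g E
  big : ∀ v, v ∉ Q → ∀ e ∈ E, v ∈ e → Fintype.card X + s0 < g e
  safe : ∀ v ∈ Q, v ≠ ρ → ¬ IsSup own v → g (ed par v) ≤ Fintype.card X + s0
  root : ρ ∈ Q
  rootS : IsSup own ρ
  padj : ∀ v, v ≠ ρ → ed par v ∈ E ∧ par v ≠ v
  pdp : ∀ v, v ≠ ρ → dp (par v) < dp v
  up : ∀ v ∈ Q, v ≠ ρ → par v ∈ Q
  lfo : ∀ v, IsSup own v → own (lf v) = v
  sinj : ∀ v, v ∉ Q → ∀ v', v' ∉ Q →
    ((wsum own E lam g v : ℕ) : ZMod p) = ((wsum own E lam g v' : ℕ) : ZMod p) → v = v'
  nT : ∀ v, v ∉ Q → ((wsum own E lam g v : ℕ) : ZMod p) ∉ T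
  lmod : ∀ v, v ∉ Q → IsSup own v → ∀ v', v' ∉ Q → IsSup own v' →
    ((lam (lf v) : ℕ) : ZMod p) = ((lam (lf v') : ℕ) : ZMod p) → v = v'
  key : ∀ y : ZMod p, (univ.filter fun v => v ∉ Q ∧ IsSup own v ∧
    ((wsum own E lam g v : ℕ) : ZMod p) - ((lam (lf v) : ℕ) : ZMod p) = y).card ≤ 2
  test : ∀ y π : ZMod p, q ≤ (((univ.filter fun v => v ∉ Q ∧ IsSup own v ∧
    3 * Fintype.card X ≤ 5 * lam (lf v) ∧
    ((wsum own E lam g v : ℕ) : ZMod p) - ((lam (lf v) : ℕ) : ZMod p) + y ∈ T ∧
    π + ((lam (lf v) : ℕ) : ZMod p) ∈ T ∧ π + ((lam (lf v) : ℕ) : ZMod p) ≠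
      ((wsum own E lam g v : ℕ) : ZMod p) - ((lam (lf v) : ℕ) : ZMod p) + y).card : ℕ) : ℝ)

end Pool.Agent.AMD
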