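import Mathlib

/-!
# Extension of injective maps
-/

set_option autoImplicit false

namespace Pool.Agent.AMD

open Finset

private lemma Ext_inj_of_card {α : Type*} [DecidableEq α] (S : Finset α) (T : Finset ℕ)
    (h : S.card ≤ T.card) : ∃ g : α → ℕ, Set.InjOn g S ∧ ∀ a ∈ S, g a ∈ T := by
  obtain ⟨e⟩ : Nonempty (S ↪ T) := Function.Embedding.nonempty_of_card_le (by simpa using h)
  refine ⟨fun a => if h : a ∈ S then (e ⟨a, h⟩ : ℕ) else 0, ?_, ?_⟩
  · intro a ha b hb hab
    have ha' : a ∈ S := ha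
    have hb' : b ∈ S := hb
    simp only [dif_pos ha', dif_pos hb'] at hab
    have := e.injective (Subtype.ext hab)
    exact congrArg Subtype.val this
  · intro a ha
    simp only [dif_pos ha]
    exact (e ⟨a, ha⟩).2

/-- Extension of an injective map from `A0` to `A`, the elements of `A1` go to `B1`. (First choose an
injection `A1 → B1`, then an injection of the rest of `A` to the rest of `B`.) -/
theorem ext_inj {α : Type*} [DecidableEq α] (A A0 A1 : Finset α) (B B1 : Finset ℕ) (f0 : α → ℕ)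
    (hA0 : A0 ⊆ A) (hA1 : A1 ⊆ A) (hd : Disjoint A0 A1) (hf : Set.InjOn f0 A0)
    (hfB : ∀ a ∈ A0, f0 a ∈ B) (hB1 : B1 ⊆ B) (hdB : ∀ a ∈ A0, f0 a ∉ B1)
    (h1 : A1.card ≤ B1.card) (hc : A.card ≤ B.card) :
    ∃ f : α → ℕ, Set.InjOn f A ∧ (∀ a ∈ A, f a ∈ B) ∧ (∀ a ∈ A0, f a = f0 a) ∧
      ∀ a ∈ A1, f a ∈ B1 := by
  obtain ⟨g1, hg1, hg1B⟩ := Ext_inj_of_card A1 B1 h1
  have hcard : (A \ (A0 ∪ A1)).card ≤ (B \ (A0.image f0 ∪ A1.image g1)).card := by
    have e1 : (A \ (A0 ∪ A1)).card = A.card - (A0.card + A1.card) := by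
      rw [card_sdiff_of_subset (union_subset hA0 hA1), card_union_of_disjoint hd]
    have e2 : B.card - (A0.card + A1.card) ≤ (B \ (A0.image f0 ∪ A1.image g1)).card := by
      refine le_trans ?_ (le_card_sdiff _ _)
      have h3 : (A0.image f0 ∪ A1.image g1).card ≤ A0.card + A1.card :=
        (card_union_le _ _).trans (Nat.add_le_add card_image_le card_image_le)
      omega
    omega
  obtain ⟨g2, hg2, hg2B⟩ := Ext_inj_of_card _ _ hcard
  have hn1 : ∀ a ∈ A1, a ∉ A0 := fun a ha h0 => disjoint_left.1 hd h0 ha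
  refine ⟨fun a => if a ∈ A0 then f0 a else if a ∈ A1 then g1 a else g2 a, ?_, ?_, ?_, ?_⟩
  · intro a ha b hb hab
    have ha' : a ∈ A := ha
    have hb' : b ∈ A := hb
    have hB2 : ∀ c ∈ A, c ∉ A0 → c ∉ A1 → g2 c ∉ A0.image f0 ∧ g2 c ∉ A1.image g1 := by
      intro c hc h0 h1
      have := hg2B c (by rw [mem_sdiff, mem_union]; tauto)
      rw [mem_sdiff, mem_union] at this
      tauto
    simp only at hab
    by_cases ha0 : a ∈ A0
    · rw [if_pos ha0] at hab
      by_cases hb0 : b ∈ A0
      · rw [if_pos hb0] at hab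
        exact hf ha0 hb0 hab
      · rw [if_neg hb0] at hab
        by_cases hb1 : b ∈ A1
        · rw [if_pos hb1] at hab
          exact absurd (hab ▸ hg1B b hb1) (hdB a ha0)
        · rw [if_neg hb1] at hab
          exact absurd (hab ▸ mem_image_of_mem f0 ha0) (hB2 b hb' hb0 hb1).1
    · rw [if_neg ha0] at hab
      by_cases ha1 : a ∈ A1
      · rw [if_pos ha1] at hab
        by_cases hb0 : b ∈ A0
        · rw [if_pos hb0] at hab
          exact absurd (hab ▸ hg1B a ha1) (hdB b hb0)
        · rw [if_neg hb0] at hab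
          by_cases hb1 : b ∈ A1
          · rw [if_pos hb1] at hab
            exact hg1 ha1 hb1 hab
          · rw [if_neg hb1] at hab
            exact absurd (hab ▸ mem_image_of_mem g1 ha1) (hB2 b hb' hb0 hb1).2
      · rw [if_neg ha1] at hab
        by_cases hb0 : b ∈ A0
        · rw [if_pos hb0] at hab
          exact absurd (hab ▸ mem_image_of_mem f0 hb0) (hB2 a ha' ha0 ha1).1
        · rw [if_neg hb0] at hab
          by_cases hb1 : b ∈ A1
          · rw [if_pos hb1] at hab
            exact absurd (hab ▸ mem_image_of_mem g1 hb1) (hB2 a ha' ha0 ha1).2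
          · rw [if_neg hb1] at hab
            refine hg2 ?_ ?_ hab
            · rw [mem_coe, mem_sdiff, mem_union]; tauto
            · rw [mem_coe, mem_sdiff, mem_union]; tauto
  · intro a ha
    simp only
    split_ifs with h0 h1
    · exact hfB a h0
    · exact hB1 (hg1B a h1)
    · have := hg2B a (by rw [mem_sdiff, mem_union]; tauto)
      exact (mem_sdiff.1 this).1
  · intro a ha
    simp only [if_pos ha]
  · intro a ha
    simp only [if_neg (hn1 a ha), if_pos ha]
    exact hg1B a ha

end Pool.Agent.AMD
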