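import Mathlib

/-!
# Halves of a finite set
-/

set_option autoImplicit false

namespace Pool.Agent.AMD

open Finset

/-- the lower and the upper half of a finite set of natural numbers -/
theorem exists_halves (A : Finset ℕ) (hA : Even A.card) :
    ∃ A1 A2 : Finset ℕ, A = A1 ∪ A2 ∧ A1.card = A.card / 2 ∧ A2.card = A.card / 2 ∧
      ∀ a ∈ A1, ∀ b ∈ A2, a < b := by
  obtain ⟨k, hk⟩ := hA
  have hk2 : A.card / 2 = k := by omega
  set e := A.orderEmbOfFin rfl with he
  refine ⟨(univ.filter fun i : Fin A.card => (i : ℕ) < k).map e.toEmbedding,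
    (univ.filter fun i : Fin A.card => ¬ (i : ℕ) < k).map e.toEmbedding, ?_, ?_, ?_, ?_⟩
  · rw [← Finset.map_union, Finset.filter_union_filter_not_eq]
    ext x
    simp only [mem_map, mem_univ, true_and, RelEmbedding.coe_toEmbedding]
    have := Finset.range_orderEmbOfFin A rfl
    rw [Set.ext_iff] at this
    have h := this x
    simp only [Set.mem_range, mem_coe] at h
    rw [← h]
  · rw [card_map, hk2, Fin.card_filter_val_lt]
    omega
  · rw [card_map, hk2]
    have h1 := Finset.card_filter_add_card_filter_not (s := (univ : Finset (Fin A.card)))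
      (fun i : Fin A.card => (i : ℕ) < k)
    rw [Fin.card_filter_val_lt, card_univ, Fintype.card_fin] at h1
    omega
  · intro a ha b hb
    simp only [mem_map, mem_filter, mem_univ, true_and, RelEmbedding.coe_toEmbedding] at ha hb
    obtain ⟨i, hi, rfl⟩ := ha
    obtain ⟨j, hj, rfl⟩ := hb
    apply e.strictMono
    rw [Fin.lt_def]
    omega

end Pool.Agent.AMD
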