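import Pool.Agent.AMD.TwoOK
import Pool.Agent.AMD.Halves

/-!
# Two kinds of slots: the theorem
-/

set_option autoImplicit false
set_option linter.unusedSectionVars false
set_option linter.unusedVariables false

namespace Pool.Agent.AMD

open Finset

/-- shifted label -/
def Two_sh (lo k l : ℕ) : ℕ := l - lo + k

/-- label of a shifted label -/
def Two_un (lo k c : ℕ) : ℕ := c + lo - k

theorem Two_un_spec {A : Finset ℕ} {lo len k c : ℕ} (hA : ∀ a ∈ A, lo ≤ a ∧ a < lo + len)
    (hc : c ∈ A.image (Two_sh lo k)) :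
    Two_un lo k c ∈ A ∧ Two_un lo k c + k = c + lo ∧ k ≤ c ∧ c < k + len := by
  obtain ⟨a, ha, rfl⟩ := Finset.mem_image.1 hc
  obtain ⟨h1, h2⟩ := hA a ha
  have h3 : Two_un lo k (Two_sh lo k a) = a := by
    unfold Two_un Two_sh
    omega
  rw [h3]
  refine ⟨ha, ?_, ?_, ?_⟩ <;> unfold Two_sh <;> omega

theorem Two_sh_mem {A : Finset ℕ} {lo len k a : ℕ} (hA : ∀ a ∈ A, lo ≤ a ∧ a < lo + len)
    {W : Finset ℕ} (hW : W ⊆ A) {c : ℕ} (hc : c ∈ W.image (Two_sh lo k)) : Two_un lo k c ∈ W := by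
  obtain ⟨a, ha, rfl⟩ := Finset.mem_image.1 hc
  obtain ⟨h1, h2⟩ := hA a (hW ha)
  have h3 : Two_un lo k (Two_sh lo k a) = a := by
    unfold Two_un Two_sh
    omega
  rw [h3]
  exact ha

theorem Two_sh_injOn {A : Finset ℕ} {lo len k : ℕ} (hA : ∀ a ∈ A, lo ≤ a ∧ a < lo + len) :
    Set.InjOn (Two_sh lo k) (A : Set ℕ) := by
  intro a ha b hb hab
  have h1 := hA a ha
  have h2 := hA b hb
  unfold Two_sh at hab
  omega

theorem Two_cast {p lo k c u : ℕ} (h : u + k = c + lo) :
    (u : ZMod p) = (c : ZMod p) + ((lo : ZMod p) - (k : ZMod p)) := by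
  have h1 : ((u + k : ℕ) : ZMod p) = ((c + lo : ℕ) : ZMod p) := by rw [h]
  push_cast at h1
  linear_combination h1

/-- the label sets -/
def Two_Lam (LH1 LH2 LL1 LL2 : Finset ℕ) (loH loL lenL : ℕ) (k : Bool) (md : Fin 3) : Finset ℕ :=
  if k then
    (if md = 0 then LH1 ∪ LH2 else if md = 1 then LH1 else LH2).image (Two_sh loH (lenL + 1))
  else (if md = 0 then LL1 ∪ LL2 else if md = 1 then LL1 else LL2).image (Two_sh loL 1)

theorem Two_lamOK {LH1 LH2 LL1 LL2 : Finset ℕ} {loH loL lenH lenL hH hL : ℕ}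
    (hH' : ∀ a ∈ LH1 ∪ LH2, loH ≤ a ∧ a < loH + lenH)
    (hL' : ∀ a ∈ LL1 ∪ LL2, loL ≤ a ∧ a < loL + lenL)
    (c1 : LH1.card = hH) (c2 : LH2.card = hH) (c3 : LL1.card = hL) (c4 : LL2.card = hL)
    (lH : ∀ a ∈ LH1, ∀ b ∈ LH2, a < b) (lL : ∀ a ∈ LL1, ∀ b ∈ LL2, a < b) :
    AMA.LamOK (Two_Lam LH1 LH2 LL1 LL2 loH loL lenL) (fun k => if k then hH else hL)
      (lenL + lenH) := by
  have inj1 := Two_sh_injOn (k := lenL + 1) hH'
  have inj2 := Two_sh_injOn (k := 1) hL'
  constructor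
  · intro k
    cases k <;> simp [Two_Lam, Finset.image_union]
  · intro k
    cases k
    · intro a ha b hb
      simp only [Two_Lam] at ha hb
      simp at ha hb
      obtain ⟨a', ha', rfl⟩ := ha
      obtain ⟨b', hb', rfl⟩ := hb
      have h1 := lL a' ha' b' hb'
      have h2 := hL' a' (Finset.mem_union_left _ ha')
      unfold Two_sh
      omega
    · intro a ha b hb
      simp only [Two_Lam] at ha hb
      simp at ha hb
      obtain ⟨a', ha', rfl⟩ := ha
      obtain ⟨b', hb', rfl⟩ := hb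
      have h1 := lH a' ha' b' hb'
      have h2 := hH' a' (Finset.mem_union_left _ ha')
      unfold Two_sh
      omega
  · intro k
    cases k
    · simp only [Two_Lam]
      simp
      rw [Finset.card_image_of_injOn (inj2.mono (by simp)), c3]
    · simp only [Two_Lam]
      simp
      rw [Finset.card_image_of_injOn (inj1.mono (by simp)), c1]
  · intro k
    cases k
    · simp only [Two_Lam]
      simp
      rw [Finset.card_image_of_injOn (inj2.mono (by simp)), c4]
    · simp only [Two_Lam]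
      simp
      rw [Finset.card_image_of_injOn (inj1.mono (by simp)), c2]
  · intro k a ha
    cases k
    · have h1 : a ∈ (LL1 ∪ LL2).image (Two_sh loL 1) := by simpa [Two_Lam] using ha
      have h2 := Two_un_spec hL' h1
      omega
    · have h1 : a ∈ (LH1 ∪ LH2).image (Two_sh loH (lenL + 1)) := by simpa [Two_Lam] using ha
      have h2 := Two_un_spec hH' h1
      omega
  · intro k a ha
    cases k
    · have h1 : a ∈ (LL1 ∪ LL2).image (Two_sh loL 1) := by simpa [Two_Lam] using ha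
      have h2 := Two_un_spec hL' h1
      omega
    · have h1 : a ∈ (LH1 ∪ LH2).image (Two_sh loH (lenL + 1)) := by simpa [Two_Lam] using ha
      have h2 := Two_un_spec hH' h1
      omega
  · rw [Finset.disjoint_left]
    intro a ha hb
    have h1 : a ∈ (LL1 ∪ LL2).image (Two_sh loL 1) := by simpa [Two_Lam] using hb
    have h1' := Two_un_spec hL' h1
    have h2 : a ∈ (LH1 ∪ LH2).image (Two_sh loH (lenL + 1)) := by simpa [Two_Lam] using ha
    have h2' := Two_un_spec hH' h2
    omega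

theorem Two_Lam_true {LH1 LH2 LL1 LL2 : Finset ℕ} {loH loL lenL : ℕ} :
    Two_Lam LH1 LH2 LL1 LL2 loH loL lenL true 0 = (LH1 ∪ LH2).image (Two_sh loH (lenL + 1)) := by
  simp [Two_Lam]

theorem Two_Lam_false {LH1 LH2 LL1 LL2 : Finset ℕ} {loH loL lenL : ℕ} :
    Two_Lam LH1 LH2 LL1 LL2 loH loL lenL false 0 = (LL1 ∪ LL2).image (Two_sh loL 1) := by
  simp [Two_Lam]

/-- the windows -/
def Two_Win (LH1 LH2 LL1 LL2 Win : Finset ℕ) (loH loL lenL : ℕ) (k : Bool) : Finset ℕ :=
  if k then Two_Lam LH1 LH2 LL1 LL2 loH loL lenL true 0 else Win.image (Two_sh loL 1)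

/-- the back transformation of the labels -/
def Two_x {P : Type} (sup : P → Prop) [DecidablePred sup] (loH loL lenL : ℕ) (x' : P → Fin 2 → ℕ)
    (Q : P) (i : Fin 2) : ℕ :=
  if i = 0 then Two_un loH (lenL + 1) (x' Q 0)
  else if sup Q then Two_un loL 1 (x' Q 1) else Two_un loH (lenL + 1) (x' Q 1)

/-- the shift of the second slot -/
def Two_k2 (p : ℕ) {P : Type} (sup : P → Prop) [DecidablePred sup] (loH loL lenL : ℕ) (Q : P) :
    ZMod p :=
  if sup Q then (loL : ZMod p) - ((1 : ℕ) : ZMod p)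
  else (loH : ZMod p) - ((lenL + 1 : ℕ) : ZMod p)

/-- the shifted offset -/
def Two_of {p : ℕ} {P : Type} (sup : P → Prop) [DecidablePred sup] (off : P → ZMod p)
    (loH loL lenL : ℕ) (Q : P) : ℕ :=
  (off Q + ((loH : ZMod p) - ((lenL + 1 : ℕ) : ZMod p)) + Two_k2 p sup loH loL lenL Q).val

section core

variable {P : Type} [Fintype P] [DecidableEq P] (sup : P → Prop) [DecidablePred sup] {p : ℕ}
  [NeZero p] (off : P → ZMod p) (LH LL Win LH1 LH2 LL1 LL2 : Finset ℕ) (loH loL lenH lenL N B : ℕ)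
  (c1 C1 : ℝ)

/-- the output of the parts theorem gives the conclusion -/
theorem Two_out (H : Hyp2 sup off LH LL Win loH loL lenH lenL N B c1 C1)
    (eH : LH = LH1 ∪ LH2) (eL : LL = LL1 ∪ LL2) (T' : Finset ℕ) (Pm : Finset P)
    (x' : P → Fin 2 → ℕ) (z : ℕ)
    (hz : z = (((loH : ZMod p) - ((lenL + 1 : ℕ) : ZMod p)) +
      ((loL : ZMod p) - ((1 : ℕ) : ZMod p))).val)
    (h2 : ∀ Q ∈ Pm, ∀ i k, (sys2 sup (Two_of sup off loH loL lenL) z).kd Q i = some k →
      x' Q i ∈ Two_Lam LH1 LH2 LL1 LL2 loH loL lenL k 0)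
    (h3 : ∀ Q ∈ Pm, ∀ Q' ∈ Pm, ∀ u ∈ (sys2 sup (Two_of sup off loH loL lenL) z).cf Q,
      ∀ v ∈ (sys2 sup (Two_of sup off loH loL lenL) z).cf Q', u.1 = v.1 →
        AMA.val u.2 (x' Q) % p = AMA.val v.2 (x' Q') % p → Q = Q' ∧ u = v)
    (h4 : ∀ Q ∈ Pm, ∀ φ ∈ (sys2 sup (Two_of sup off loH loL lenL) z).S Q,
      AMA.val φ (x' Q) % p ∉ T')
    (h5 : ∀ a ∈ T', a < p) (q : ℝ)
    (h6 : ∀ y π1 π2 : ℕ, q ≤ ∑ Q ∈ Pm, (((@Finset.filter _
      (AMA.GOK (sys2 sup (Two_of sup off loH loL lenL) z)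
        (Two_Win LH1 LH2 LL1 LL2 Win loH loL lenL) p T' Q (x' Q) y π1 π2)
      (Classical.decPred _) ((sys2 sup (Two_of sup off loH loL lenL) z).Gd Q))).card : ℝ)) :
    Out2 sup off LH LL Win (T'.image (fun a : ℕ => (a : ZMod p))) Pm
      (Two_x sup loH loL lenL x') q := by
  set σ := sys2 sup (Two_of sup off loH loL lenL) z with hσ
  have hLH : ∀ a ∈ LH1 ∪ LH2, loH ≤ a ∧ a < loH + lenH := by
    rw [← eH]; exact H.LHm
  have hLL : ∀ a ∈ LL1 ∪ LL2, loL ≤ a ∧ a < loL + lenL := by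
    rw [← eL]; exact H.LLm
  -- kinds
  have kd0 : ∀ Q, σ.kd Q 0 = some true := fun Q => by simp [hσ, sys2]
  have kd1 : ∀ Q, sup Q → σ.kd Q 1 = some false := fun Q hQ => by simp [hσ, sys2, hQ]
  have kd1' : ∀ Q, ¬ sup Q → σ.kd Q 1 = some true := fun Q hQ => by simp [hσ, sys2, hQ]
  -- shifted labels
  have m0 : ∀ Q ∈ Pm, x' Q 0 ∈ (LH1 ∪ LH2).image (Two_sh loH (lenL + 1)) := by
    intro Q hQ
    rw [← Two_Lam_true (LL1 := LL1) (LL2 := LL2) (loL := loL)]
    exact h2 Q hQ 0 true (kd0 Q)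
  have m1 : ∀ Q ∈ Pm, sup Q → x' Q 1 ∈ (LL1 ∪ LL2).image (Two_sh loL 1) := by
    intro Q hQ hs
    rw [← Two_Lam_false (LH1 := LH1) (LH2 := LH2) (loH := loH) (lenL := lenL)]
    exact h2 Q hQ 1 false (kd1 Q hs)
  have m1' : ∀ Q ∈ Pm, ¬ sup Q → x' Q 1 ∈ (LH1 ∪ LH2).image (Two_sh loH (lenL + 1)) := by
    intro Q hQ hs
    rw [← Two_Lam_true (LL1 := LL1) (LL2 := LL2) (loL := loL)]
    exact h2 Q hQ 1 true (kd1' Q hs)
  have u0 := fun Q hQ => Two_un_spec hLH (m0 Q hQ)
  have u1 := fun Q hQ hs => Two_un_spec hLL (m1 Q hQ hs)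
  have u1' := fun Q hQ hs => Two_un_spec hLH (m1' Q hQ hs)
  -- the labels
  have x0 : ∀ Q, Two_x sup loH loL lenL x' Q 0 = Two_un loH (lenL + 1) (x' Q 0) := fun Q => by
    simp [Two_x]
  have x1 : ∀ Q, sup Q → Two_x sup loH loL lenL x' Q 1 = Two_un loL 1 (x' Q 1) := fun Q hs => by
    simp [Two_x, hs]
  have x1' : ∀ Q, ¬ sup Q → Two_x sup loH loL lenL x' Q 1 = Two_un loH (lenL + 1) (x' Q 1) :=
    fun Q hs => by simp [Two_x, hs]
  -- casts
  have c0 : ∀ Q ∈ Pm, ((Two_x sup loH loL lenL x' Q 0 : ℕ) : ZMod p) =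
      (x' Q 0 : ZMod p) + ((loH : ZMod p) - ((lenL + 1 : ℕ) : ZMod p)) := by
    intro Q hQ
    rw [x0]
    exact Two_cast (u0 Q hQ).2.1
  have c1s : ∀ Q ∈ Pm, ((Two_x sup loH loL lenL x' Q 1 : ℕ) : ZMod p) =
      (x' Q 1 : ZMod p) + Two_k2 p sup loH loL lenL Q := by
    intro Q hQ
    by_cases hs : sup Q
    · rw [x1 Q hs]
      have h := Two_cast (p := p) (u1 Q hQ hs).2.1
      rw [h, Two_k2, if_pos hs]
    · rw [x1' Q hs]
      have h := Two_cast (p := p) (u1' Q hQ hs).2.1
      rw [h, Two_k2, if_neg hs]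
  have cof : ∀ Q, ((Two_of sup off loH loL lenL Q : ℕ) : ZMod p) =
      off Q + ((loH : ZMod p) - ((lenL + 1 : ℕ) : ZMod p)) + Two_k2 p sup loH loL lenL Q := by
    intro Q
    unfold Two_of
    rw [ZMod.natCast_val, ZMod.cast_id]
  -- the sum
  have vS : ∀ Q, AMA.val ((univ : Finset (Fin 2)), Two_of sup off loH loL lenL Q) (x' Q) =
      Two_of sup off loH loL lenL Q + (x' Q 0 + x' Q 1) := by
    intro Q
    simp [AMA.val, Fin.sum_univ_two]
  have cS : ∀ Q ∈ Pm, off Q + ((Two_x sup loH loL lenL x' Q 0 : ℕ) : ZMod p) +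
      ((Two_x sup loH loL lenL x' Q 1 : ℕ) : ZMod p) =
      ((AMA.val ((univ : Finset (Fin 2)), Two_of sup off loH loL lenL Q) (x' Q) : ℕ) : ZMod p) := by
    intro Q hQ
    rw [c0 Q hQ, c1s Q hQ, vS Q]
    push_cast
    rw [cof Q]
    push_cast
    ring
  have mS : ∀ Q, ((univ : Finset (Fin 2)), Two_of sup off loH loL lenL Q) ∈ σ.S Q := fun Q => by
    simp [hσ, sys2]
  have cfS : ∀ Q, ((1 : Fin 4), (((univ : Finset (Fin 2)), Two_of sup off loH loL lenL Q) :
      AMA.Frm 2)) ∈ σ.cf Q := by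
    intro Q
    unfold AMA.PSys.cf
    exact Finset.mem_union_left _ (Finset.mem_union_right _
      (Finset.mem_image.2 ⟨_, mS Q, rfl⟩))
  have cfL : ∀ Q i, σ.kd Q i ≠ none → ((0 : Fin 4), ((({i} : Finset (Fin 2)), 0) : AMA.Frm 2)) ∈
      σ.cf Q := by
    intro Q i hi
    unfold AMA.PSys.cf
    exact Finset.mem_union_left _ (Finset.mem_union_left _
      (Finset.mem_image.2 ⟨i, Finset.mem_filter.2 ⟨Finset.mem_univ _, hi⟩, rfl⟩))
  have vL : ∀ Q i, AMA.val ((({i} : Finset (Fin 2)), 0) : AMA.Frm 2) (x' Q) = x' Q i := by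
    intro Q i
    simp [AMA.val]
  -- labels are different
  have lab : ∀ Q ∈ Pm, ∀ Q' ∈ Pm, ∀ i j : Fin 2, x' Q i = x' Q' j → Q = Q' ∧ i = j := by
    intro Q hQ Q' hQ' i j hij
    have ki : ∀ (Q : P) (i : Fin 2), σ.kd Q i ≠ none := by
      intro Q i
      fin_cases i
      · simp [hσ, sys2]
      · by_cases hs : sup Q <;> simp [hσ, sys2, hs]
    have h := h3 Q hQ Q' hQ' _ (cfL Q i (ki Q i)) _ (cfL Q' j (ki Q' j)) rfl
      (by rw [vL, vL, hij])
    refine ⟨h.1, ?_⟩
    have h' := congrArg (fun u : Fin 4 × AMA.Frm 2 => u.2.1) h.2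
    simpa using h'
  have modeq : ∀ a b : ℕ, (a : ZMod p) = (b : ZMod p) → a % p = b % p := by
    intro a b hab
    exact (ZMod.natCast_eq_natCast_iff' a b p).1 hab
  have memT : ∀ a : ℕ, a % p ∈ T' ↔ (a : ZMod p) ∈ T'.image (fun a : ℕ => (a : ZMod p)) := by
    intro a
    constructor
    · intro ha
      exact Finset.mem_image.2 ⟨a % p, ha, by rw [ZMod.natCast_mod]⟩
    · intro ha
      obtain ⟨b, hb, hab⟩ := Finset.mem_image.1 ha
      have h := modeq b a hab
      rw [Nat.mod_eq_of_lt (h5 b hb)] at h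
      rw [← h]
      exact hb
  -- tag 2 coordinate
  have cfB : ∀ Q, sup Q → Two_of sup off loH loL lenL Q ≠ z →
      ((2 : Fin 4), ((({0} : Finset (Fin 2)), Two_of sup off loH loL lenL Q) : AMA.Frm 2)) ∈
        σ.cf Q := by
    intro Q hs hne
    unfold AMA.PSys.cf
    apply Finset.mem_union_right
    refine Finset.mem_image.2 ⟨(({0} : Finset (Fin 2)), Two_of sup off loH loL lenL Q), ?_, ?_⟩
    · unfold AMA.PSys.Bf
      refine Finset.mem_filter.2 ⟨Finset.mem_biUnion.2
        ⟨((1 : Fin 2), {(({0} : Finset (Fin 2)), Two_of sup off loH loL lenL Q)}), ?_, ?_⟩, ?_, ?_⟩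
      · simp [hσ, sys2, hs]
      · simp
      · simp
      · rintro ⟨_, h⟩
        exact hne h
    · have htg : σ.tg Q (({0} : Finset (Fin 2)), Two_of sup off loH loL lenL Q) = 2 := by
        unfold AMA.PSys.tg
        rw [if_pos]
        exact ⟨0, by simp, kd0 Q⟩
      rw [htg]
  have vB : ∀ Q, AMA.val ((({0} : Finset (Fin 2)), Two_of sup off loH loL lenL Q) : AMA.Frm 2)
      (x' Q) = Two_of sup off loH loL lenL Q + x' Q 0 := by
    intro Q
    simp [AMA.val]
  have k2s : ∀ Q, sup Q → Two_k2 p sup loH loL lenL Q = (loL : ZMod p) - ((1 : ℕ) : ZMod p) :=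
    fun Q hs => by rw [Two_k2, if_pos hs]
  constructor
  · -- mem0
    intro Q hQ
    rw [x0, eH]
    exact (u0 Q hQ).1
  · intro Q hQ hs
    rw [x1 Q hs, eL]
    exact (u1 Q hQ hs).1
  · intro Q hQ hs
    rw [x1' Q hs, eH]
    exact (u1' Q hQ hs).1
  · -- injH
    intro Q hQ Q' hQ' i j hi hj hij
    have aux : ∀ Q ∈ Pm, ∀ i : Fin 2, (i = 1 → ¬ sup Q) →
        Two_x sup loH loL lenL x' Q i + (lenL + 1) = x' Q i + loH := by
      intro Q hQ i hi
      fin_cases i
      · have := (u0 Q hQ).2.1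
        simp only [Fin.zero_eta] at *
        rw [x0]
        exact this
      · have hs : ¬ sup Q := hi rfl
        have := (u1' Q hQ hs).2.1
        simp only [Fin.mk_one] at *
        rw [x1' Q hs]
        exact this
    have e1 := aux Q hQ i hi
    have e2 := aux Q' hQ' j hj
    exact lab Q hQ Q' hQ' i j (by omega)
  · -- injL
    intro Q hQ Q' hQ' hs hs' hij
    rw [x1 Q hs, x1 Q' hs'] at hij
    have e1 := (u1 Q hQ hs).2.1
    have e2 := (u1 Q' hQ' hs').2.1
    exact (lab Q hQ Q' hQ' 1 1 (by omega)).1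
  · -- sinj
    intro Q hQ Q' hQ' hs
    rw [cS Q hQ, cS Q' hQ'] at hs
    exact (h3 Q hQ Q' hQ' _ (cfS Q) _ (cfS Q') rfl (modeq _ _ hs)).1
  · -- nT
    intro Q hQ hT
    rw [cS Q hQ, ← memT] at hT
    exact h4 Q hQ _ (mS Q) hT
  · -- key
    intro y
    have hcast : ∀ Q ∈ Pm, sup Q → off Q + ((Two_x sup loH loL lenL x' Q 0 : ℕ) : ZMod p) = y →
        ((Two_of sup off loH loL lenL Q + x' Q 0 : ℕ) : ZMod p) =
          y + ((loL : ZMod p) - ((1 : ℕ) : ZMod p)) := by
      intro Q hQ hs hy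
      rw [← hy, c0 Q hQ]
      push_cast
      rw [cof Q, k2s Q hs]
      push_cast
      ring
    have hsub : (Pm.filter fun Q => sup Q ∧
        off Q + ((Two_x sup loH loL lenL x' Q 0 : ℕ) : ZMod p) = y) ⊆
        (Pm.filter fun Q => (sup Q ∧ off Q + ((Two_x sup loH loL lenL x' Q 0 : ℕ) : ZMod p) = y) ∧
          Two_of sup off loH loL lenL Q = z) ∪
        (Pm.filter fun Q => (sup Q ∧ off Q + ((Two_x sup loH loL lenL x' Q 0 : ℕ) : ZMod p) = y) ∧
          Two_of sup off loH loL lenL Q ≠ z) := by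
      intro Q hQ
      obtain ⟨hQ1, hQ2⟩ := Finset.mem_filter.1 hQ
      by_cases hz' : Two_of sup off loH loL lenL Q = z
      · exact Finset.mem_union_left _ (Finset.mem_filter.2 ⟨hQ1, hQ2, hz'⟩)
      · exact Finset.mem_union_right _ (Finset.mem_filter.2 ⟨hQ1, hQ2, hz'⟩)
    refine le_trans (Finset.card_le_card hsub) (le_trans (Finset.card_union_le _ _) ?_)
    have hA : (Pm.filter fun Q => (sup Q ∧
        off Q + ((Two_x sup loH loL lenL x' Q 0 : ℕ) : ZMod p) = y) ∧
          Two_of sup off loH loL lenL Q = z).card ≤ 1 := by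
      rw [Finset.card_le_one]
      intro Q hQ Q' hQ'
      obtain ⟨hQ1, ⟨hs, hy⟩, hz1⟩ := Finset.mem_filter.1 hQ
      obtain ⟨hQ1', ⟨hs', hy'⟩, hz1'⟩ := Finset.mem_filter.1 hQ'
      have e1 := hcast Q hQ1 hs hy
      have e2 := hcast Q' hQ1' hs' hy'
      rw [hz1] at e1
      rw [hz1'] at e2
      have e3 : ((x' Q 0 : ℕ) : ZMod p) = ((x' Q' 0 : ℕ) : ZMod p) := by
        push_cast at e1 e2
        linear_combination e1 - e2
      have h := h3 Q hQ1 Q' hQ1' _ (cfL Q 0 (by rw [kd0]; simp)) _ (cfL Q' 0 (by rw [kd0]; simp)) rfl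
        (by rw [vL, vL]; exact modeq _ _ e3)
      exact h.1
    have hB : (Pm.filter fun Q => (sup Q ∧
        off Q + ((Two_x sup loH loL lenL x' Q 0 : ℕ) : ZMod p) = y) ∧
          Two_of sup off loH loL lenL Q ≠ z).card ≤ 1 := by
      rw [Finset.card_le_one]
      intro Q hQ Q' hQ'
      obtain ⟨hQ1, ⟨hs, hy⟩, hz1⟩ := Finset.mem_filter.1 hQ
      obtain ⟨hQ1', ⟨hs', hy'⟩, hz1'⟩ := Finset.mem_filter.1 hQ'
      have e1 := hcast Q hQ1 hs hy
      have e2 := hcast Q' hQ1' hs' hy'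
      have h := h3 Q hQ1 Q' hQ1' _ (cfB Q hs hz1) _ (cfB Q' hs' hz1') rfl
        (by rw [vB, vB]; exact modeq _ _ (e1.trans e2.symm))
      exact h.1
    omega
  · -- test
    intro y π
    set kL : ZMod p := (loL : ZMod p) - ((1 : ℕ) : ZMod p) with hkL
    have hval : ∀ w : ZMod p, ((w.val : ℕ) : ZMod p) = w := by
      intro w
      rw [ZMod.natCast_val, ZMod.cast_id]
    refine le_trans (h6 (y - kL).val (π + kL).val (π + kL).val) ?_
    have hterm : ∀ Q ∈ Pm, (((@Finset.filter _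
      (AMA.GOK σ (Two_Win LH1 LH2 LL1 LL2 Win loH loL lenL) p T' Q (x' Q) (y - kL).val (π + kL).val
        (π + kL).val) (Classical.decPred _) (σ.Gd Q))).card : ℝ) ≤
        if (sup Q ∧ Two_x sup loH loL lenL x' Q 1 ∈ Win ∧
          off Q + ((Two_x sup loH loL lenL x' Q 0 : ℕ) : ZMod p) + y ∈
            T'.image (fun a : ℕ => (a : ZMod p)) ∧
          π + ((Two_x sup loH loL lenL x' Q 1 : ℕ) : ZMod p) ∈
            T'.image (fun a : ℕ => (a : ZMod p)) ∧
          π + ((Two_x sup loH loL lenL x' Q 1 : ℕ) : ZMod p) ≠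
            off Q + ((Two_x sup loH loL lenL x' Q 0 : ℕ) : ZMod p) + y) then 1 else 0 := by
      intro Q hQ
      by_cases hs : sup Q
      · have hG : σ.Gd Q = {((1 : Fin 2), {(({0} : Finset (Fin 2)), Two_of sup off loH loL lenL Q)})} := by
          simp [hσ, sys2, hs]
        by_cases hgok : AMA.GOK σ (Two_Win LH1 LH2 LL1 LL2 Win loH loL lenL) p T' Q (x' Q)
            (y - kL).val (π + kL).val (π + kL).val
            ((1 : Fin 2), {(({0} : Finset (Fin 2)), Two_of sup off loH loL lenL Q)})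
        · rw [if_pos]
          · have hle : (@Finset.filter _
              (AMA.GOK σ (Two_Win LH1 LH2 LL1 LL2 Win loH loL lenL) p T' Q (x' Q) (y - kL).val
                (π + kL).val (π + kL).val) (Classical.decPred _) (σ.Gd Q)).card ≤ 1 := by
              refine le_trans (Finset.card_le_card (@Finset.filter_subset _ _ (Classical.decPred _) _)) ?_
              rw [hG]
              simp
            exact_mod_cast hle
          · obtain ⟨_, g1, g2, _, g4, _, g6⟩ := hgok
            have g1' := g1 false (kd1 Q hs)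
            have g2' := g2 _ (Finset.mem_singleton_self _)
            have g6' := (g6 _ (Finset.mem_singleton_self _)).1
            rw [vB] at g2' g6'
            have e1 : off Q + ((Two_x sup loH loL lenL x' Q 0 : ℕ) : ZMod p) + y =
                ((Two_of sup off loH loL lenL Q + x' Q 0 + (y - kL).val : ℕ) : ZMod p) := by
              rw [c0 Q hQ]
              push_cast
              rw [cof Q, k2s Q hs, hval, hkL]
              push_cast
              ring
            have e2 : π + ((Two_x sup loH loL lenL x' Q 1 : ℕ) : ZMod p) =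
                (((π + kL).val + x' Q 1 : ℕ) : ZMod p) := by
              rw [c1s Q hQ, k2s Q hs]
              push_cast
              rw [hval, hkL]
              push_cast
              ring
            refine ⟨hs, ?_, ?_, ?_, ?_⟩
            · rw [x1 Q hs]
              have hw : x' Q 1 ∈ Win.image (Two_sh loL 1) := by
                simpa [Two_Win] using g1'
              exact Two_sh_mem (a := 0) H.LLm H.winS hw
            · rw [e1, ← memT]
              exact g2'
            · rw [e2, ← memT]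
              exact g4
            · intro he
              rw [e1, e2] at he
              exact g6' (modeq _ _ he)
        · have h0 : (@Finset.filter _
              (AMA.GOK σ (Two_Win LH1 LH2 LL1 LL2 Win loH loL lenL) p T' Q (x' Q) (y - kL).val
                (π + kL).val (π + kL).val) (Classical.decPred _) (σ.Gd Q)) = ∅ := by
            apply Finset.eq_empty_of_forall_notMem
            intro g hg
            obtain ⟨hg1, hg2⟩ := (@Finset.mem_filter _ _ (Classical.decPred _) _ _).1 hg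
            rw [hG] at hg1
            rw [Finset.mem_singleton.1 hg1] at hg2
            exact hgok hg2
          rw [h0]
          split_ifs <;> simp
      · have hG : σ.Gd Q = ∅ := by
          simp [hσ, sys2, hs]
        rw [hG]
        split_ifs <;> simp
    refine le_trans (Finset.sum_le_sum hterm) ?_
    rw [Finset.sum_ite]
    simp

end core

/-- **Two kinds.** Proof: halves of `LH`, `LL`; shifted coordinates: a low label `l` is
`l - loL + 1 ∈ [1, lenL]`, a high label `l` is `l - loH + lenL + 1 ∈ [lenL + 1, lenL + lenH]`,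
`R = lenL + lenH`; `of Q` = representative in `[0, p)` of `off Q` plus the two shifts (they depend on
`sup Q`), `z` the same for `off = 0`, `sup`. `AMA.parts` with `b = AMA.bb (1/10) c1 0`; `T` = image of its
`T` in `ZMod p`. `key`: for `of Q ≠ z` the value is the coordinate (tag `2`) of the gadget end, for
`of Q = z` the label `x Q 0` (tag `0`). -/
theorem parts2 (c1 : ℝ) (hc1 : 0 < c1) : ∃ b : ℝ, 0 < b ∧ ∀ (C1 δ : ℝ) (B : ℕ), 0 < C1 → 0 < δ →
    ∃ N0 : ℕ, ∀ (P : Type) [Fintype P] [DecidableEq P] (sup : P → Prop) [DecidablePred sup] (p : ℕ)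
      (off : P → ZMod p) (LH LL Win : Finset ℕ) (loH loL lenH lenL N : ℕ), N0 ≤ N →
      Hyp2 sup off LH LL Win loH loL lenH lenL N B c1 C1 →
      ∃ (T : Finset (ZMod p)) (Pm : Finset P) (x : P → Fin 2 → ℕ),
        ((univ \ Pm).card : ℝ) ≤ δ * N ∧ Out2 sup off LH LL Win T Pm x (b * N) := by
  refine ⟨AMA.bb (1 / 10) c1 0, ?_, ?_⟩
  · unfold AMA.bb AMA.gam
    have h1 : (0 : ℝ) < min (1 / 10 / (6 * 2 ^ 0)) (1 / 2) := by
      apply lt_min <;> norm_num
    positivity
  intro C1 δ B hC1 hδ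
  obtain ⟨N0, hN0⟩ := AMA.parts 2 0 B (c1 / 2) C1 (1 / 10) c1 δ (by positivity) hC1 (by norm_num) hc1 hδ
  refine ⟨N0, ?_⟩
  intro P _ _ sup _ p off LH LL Win loH loL lenH lenL N hN H
  have hp : 0 < p := lt_of_le_of_lt (Nat.zero_le _) H.lenp
  have : NeZero p := ⟨hp.ne'⟩
  obtain ⟨LH1, LH2, eH, cH1, cH2, oH⟩ := exists_halves LH H.evH
  obtain ⟨LL1, LL2, eL, cL1, cL2, oL⟩ := exists_halves LL H.evL
  have hLH : ∀ a ∈ LH1 ∪ LH2, loH ≤ a ∧ a < loH + lenH := by
    rw [← eH]; exact H.LHm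
  have hLL : ∀ a ∈ LL1 ∪ LL2, loL ≤ a ∧ a < loL + lenL := by
    rw [← eL]; exact H.LLm
  have lam := Two_lamOK hLH hLL cH1 cH2 cL1 cL2 oH oL
  set z : ℕ := (((loH : ZMod p) - ((lenL + 1 : ℕ) : ZMod p)) +
      ((loL : ZMod p) - ((1 : ℕ) : ZMod p))).val with hz
  have hps : AMA.PSOK (sys2 sup (Two_of sup off loH loL lenL) z)
      (Two_Lam LH1 LH2 LL1 LL2 loH loL lenL) (fun k => if k then LH.card / 2 else LL.card / 2)
      (lenL + lenH) p N 0 B (c1 / 2) C1 (1 / 10) c1 (sp2 sup (Two_of sup off loH loL lenL))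
      (Two_Win LH1 LH2 LL1 LL2 Win loH loL lenL) := by
    apply psok2 sup (Two_of sup off loH loL lenL) z _ _ _ _ _ _ c1 C1 _ hc1 lam H.cardP
    · have := H.lenp
      omega
    · exact H.pN
    · have h1 := H.evH
      have h2 := H.cardH
      simp only [if_true]
      rw [← h2]
      exact Nat.two_mul_div_two_of_even h1
    · have h1 := H.evL
      have h2 := H.cardL
      simp only [Bool.false_eq_true, if_false]
      rw [← h2]
      exact Nat.two_mul_div_two_of_even h1
    · exact H.many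
    · intro Q
      exact ZMod.val_lt _
    · intro d hd
      by_cases hy : (d : ZMod p) - ((loH : ZMod p) - ((lenL + 1 : ℕ) : ZMod p)) -
          ((loL : ZMod p) - ((1 : ℕ) : ZMod p)) = 0
      · rw [Finset.card_eq_zero.2]
        · exact Nat.zero_le _
        · rw [Finset.filter_eq_empty_iff]
          rintro Q _ ⟨hs, hQ⟩
          apply hd
          have hlt : d < p := by
            rw [← hQ]
            exact ZMod.val_lt _
          have h1 : (d : ZMod p) = ((loH : ZMod p) - ((lenL + 1 : ℕ) : ZMod p)) +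
              ((loL : ZMod p) - ((1 : ℕ) : ZMod p)) := by
            linear_combination hy
          rw [hz, ← h1, ZMod.val_natCast, Nat.mod_eq_of_lt hlt]
      · refine le_trans (Finset.card_le_card ?_) (H.mult _ hy)
        intro Q hQ
        obtain ⟨_, hs, hQ2⟩ := Finset.mem_filter.1 hQ
        refine Finset.mem_filter.2 ⟨Finset.mem_univ _, hs, ?_⟩
        have h1 : ((Two_of sup off loH loL lenL Q : ℕ) : ZMod p) =
            off Q + ((loH : ZMod p) - ((lenL + 1 : ℕ) : ZMod p)) +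
              Two_k2 p sup loH loL lenL Q := by
          unfold Two_of
          rw [ZMod.natCast_val, ZMod.cast_id]
        rw [hQ2, Two_k2, if_pos hs] at h1
        linear_combination -h1
    · intro k
      cases k
      · rw [Two_Lam_false]
        simp only [Two_Win, Bool.false_eq_true, if_false]
        rw [← eL]
        exact Finset.image_subset_image H.winS
      · simp [Two_Win]
    · intro k
      cases k
      · simp only [Two_Win, Bool.false_eq_true, if_false]
        rw [Finset.card_image_of_injOn ((Two_sh_injOn H.LLm).mono (by exact_mod_cast H.winS))]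
        have := H.winC
        omega
      · simp only [Two_Win, if_true]
        rw [Two_Lam_true, Finset.card_image_of_injOn (Two_sh_injOn hLH), ← eH]
        omega
  obtain ⟨T', Pm, x', h1, h2, h3, h4, h5, h6⟩ := hN0 P _ _ _ _ _ _ _ _ hN hps
  refine ⟨T'.image (fun a : ℕ => (a : ZMod p)), Pm, Two_x sup loH loL lenL x', h1, ?_⟩
  exact Two_out sup off LH LL Win LH1 LH2 LL1 LL2 loH loL lenH lenL N B c1 C1 H eH eL T' Pm x' z hz
    h2 h3 h4 h5 _ (fun y π1 π2 => by
      refine le_trans (h6 y π1 π2) (le_of_eq ?_)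
      apply Finset.sum_congr rfl
      intro Q _
      congr!)

end Pool.Agent.AMD
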