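import Pool.Agent.AMD.Init
import Pool.Agent.AMD.Two
import Pool.Agent.AMD.Ext

/-!
# Case 2: complete labelling before the repair
-/

set_option autoImplicit false
set_option linter.unusedVariables false

namespace Pool.Agent.AMD

open Finset Pool.Agent.AMF

/-- the unmatched regular vertices together with the irregular ones -/
def QQ {W : Type} [Fintype W] [DecidableEq W] (I : Finset W) (Pm : Finset {v // v ∉ I}) : Finset W :=
  I ∪ (univ \ Pm).image Subtype.val

theorem Fill_notMem_QQ {W : Type} [Fintype W] [DecidableEq W] {I : Finset W}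
    {Pm : Finset {v // v ∉ I}} {v : W} :
    v ∉ QQ I Pm ↔ ∃ hv : v ∉ I, (⟨v, hv⟩ : {v // v ∉ I}) ∈ Pm := by
  unfold QQ
  simp only [mem_union, mem_image, mem_sdiff, mem_univ, true_and, not_or, not_exists, not_and]
  constructor
  · rintro ⟨hv, h2⟩
    refine ⟨hv, ?_⟩
    by_contra h3
    exact h2 ⟨v, hv⟩ h3 rfl
  · rintro ⟨hv, h2⟩
    refine ⟨hv, ?_⟩
    rintro ⟨u, hu⟩ h3 h4
    change u = v at h4
    subst h4
    exact h3 h2

/-- labels of the leaves -/
theorem Fill_leaf {W X : Type} [Fintype W] [DecidableEq W] [Fintype X] [DecidableEq X]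
    {own : X → W} {lf : W → X} {I : Finset W} (hlf : ∀ v, IsSup own v → own (lf v) = v)
    (lam0 : X → ℕ) (y1 : W → ℕ) (M : Finset W)
    (hlam : Set.BijOn lam0 (↑(univ \ LS own lf I) : Set X)
      (↑(Icc 1 (Fintype.card X - (LS own lf I).card)) : Set ℕ))
    (hm : ∀ v ∈ M, IsSup own v →
      y1 v ∈ Ioc (Fintype.card X - (LS own lf I).card) (Fintype.card X))
    (hi : ∀ v ∈ M, ∀ v' ∈ M, IsSup own v → IsSup own v' → y1 v = y1 v' → v = v') :
    ∃ lam : X → ℕ, Function.Injective lam ∧ (∀ x, 1 ≤ lam x ∧ lam x ≤ Fintype.card X) ∧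
      (∀ x, x ∉ LS own lf I → lam x = lam0 x) ∧
      ∀ v ∈ M, v ∉ I → IsSup own v → lam (lf v) = y1 v := by
  classical
  have hLS : ∀ x ∈ LS own lf I, own x ∉ I ∧ IsSup own (own x) ∧ lf (own x) = x := by
    intro x hx
    obtain ⟨v, hv, rfl⟩ := mem_image.1 hx
    obtain ⟨h1, h2⟩ := (mem_filter.1 hv).2
    rw [hlf v h2]
    exact ⟨h1, h2, rfl⟩
  set f0 : X → ℕ := fun x => if x ∈ LS own lf I then y1 (own x) else lam0 x with hf0
  have hf1 : ∀ x, x ∈ LS own lf I → f0 x = y1 (own x) := fun x hx => if_pos hx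
  have hf2 : ∀ x, x ∉ LS own lf I → f0 x = lam0 x := fun x hx => if_neg hx
  have hl0 : ∀ x, x ∉ LS own lf I →
      1 ≤ lam0 x ∧ lam0 x ≤ Fintype.card X - (LS own lf I).card := by
    intro x hx
    have h1 := hlam.mapsTo (show x ∈ (↑(univ \ LS own lf I) : Set X) by simpa using hx)
    simpa using h1
  have hcc : (LS own lf I).card ≤ Fintype.card X := card_le_univ _
  obtain ⟨f, h1, h2, h3, -⟩ := ext_inj (univ : Finset X)
    (univ.filter fun x => x ∈ LS own lf I → own x ∈ M) ∅ (Icc 1 (Fintype.card X)) ∅ f0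
    (filter_subset _ _) (empty_subset _) (disjoint_empty_right _) (by
      intro x hx x' hx' hxx
      replace hx := (mem_filter.1 (mem_coe.1 hx)).2
      replace hx' := (mem_filter.1 (mem_coe.1 hx')).2
      by_cases hxL : x ∈ LS own lf I
      · by_cases hxL' : x' ∈ LS own lf I
        · rw [hf1 x hxL, hf1 x' hxL'] at hxx
          have := hi _ (hx hxL) _ (hx' hxL') (hLS x hxL).2.1 (hLS x' hxL').2.1 hxx
          rw [← (hLS x hxL).2.2, this, (hLS x' hxL').2.2]
        · exfalso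
          rw [hf1 x hxL, hf2 x' hxL'] at hxx
          have h4 := mem_Ioc.1 (hm _ (hx hxL) (hLS x hxL).2.1)
          have h5 := hl0 x' hxL'
          omega
      · by_cases hxL' : x' ∈ LS own lf I
        · exfalso
          rw [hf2 x hxL, hf1 x' hxL'] at hxx
          have h4 := mem_Ioc.1 (hm _ (hx' hxL') (hLS x' hxL').2.1)
          have h5 := hl0 x hxL
          omega
        · rw [hf2 x hxL, hf2 x' hxL'] at hxx
          exact hlam.injOn (by simpa using hxL) (by simpa using hxL') hxx)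
    (by
      intro x hx
      have hx := (mem_filter.1 hx).2
      by_cases hxL : x ∈ LS own lf I
      · rw [hf1 x hxL]
        have h4 := mem_Ioc.1 (hm _ (hx hxL) (hLS x hxL).2.1)
        exact mem_Icc.2 ⟨by omega, h4.2⟩
      · rw [hf2 x hxL]
        have h5 := hl0 x hxL
        exact mem_Icc.2 ⟨h5.1, by omega⟩)
    (empty_subset _) (fun _ _ => notMem_empty _) (by simp) (by simp)
  refine ⟨f, fun x x' hxx => h1 (mem_coe.2 (mem_univ x)) (mem_coe.2 (mem_univ x')) hxx,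
    fun x => mem_Icc.1 (h2 x (mem_univ x)), ?_, ?_⟩
  · intro x hx
    rw [h3 x (mem_filter.2 ⟨mem_univ _, fun h => absurd h hx⟩), hf2 x hx]
  · intro v hv hvI hvs
    have hL : lf v ∈ LS own lf I :=
      mem_image_of_mem _ (mem_filter.2 ⟨mem_univ _, hvI, hvs⟩)
    have ho := hlf v hvs
    rw [h3 (lf v) (mem_filter.2 ⟨mem_univ _, fun _ => by rw [ho]; exact hv⟩), hf1 _ hL, ho]

/-- labels of the inner edges -/
theorem Fill_edge {W X : Type} [Fintype W] [DecidableEq W] [Fintype X] [DecidableEq X]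
    {H : SimpleGraph W} [DecidableRel H.Adj] {own : X → W} {ρ : W} {par : W → W} {dp : W → ℕ}
    {lf : W → X} {oth : W → W} {I : Finset W} (h : Irr H own ρ par dp lf oth I)
    (g0 : Sym2 W → ℕ) (LH : Finset ℕ) (y : W → Fin 2 → ℕ) (M : Finset W)
    (hMI : ∀ v ∈ M, v ∉ I)
    (ginj : Set.InjOn g0 (BI H.edgeFinset own ρ par oth I))
    (gmem : ∀ e ∈ BI H.edgeFinset own ρ par oth I, g0 e ∈
      Ioc (Fintype.card X + (DI ρ par I).card) (Fintype.card X + H.edgeFinset.card))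
    (hLH : LH = Ioc (Fintype.card X + (DI ρ par I).card) (Fintype.card X + H.edgeFinset.card) \
      (BI H.edgeFinset own ρ par oth I).image g0)
    (m0 : ∀ v ∈ M, y v 0 ∈ LH) (m1 : ∀ v ∈ M, ¬ IsSup own v → y v 1 ∈ LH)
    (hi : ∀ v ∈ M, ∀ v' ∈ M, ∀ i j, (i = 1 → ¬ IsSup own v) → (j = 1 → ¬ IsSup own v') →
      y v i = y v' j → v = v' ∧ i = j)
    (A1 : Finset W) (hA1 : ∀ v ∈ A1, v ≠ ρ ∧ v ∉ M) (hc : A1.card ≤ (DI ρ par I).card) :
    ∃ g : Sym2 W → ℕ, Set.InjOn g H.edgeFinset ∧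
      (∀ e ∈ H.edgeFinset, Fintype.card X < g e ∧ g e ≤ Fintype.card X + H.edgeFinset.card) ∧
      (∀ e ∈ BI H.edgeFinset own ρ par oth I, g e = g0 e) ∧
      (∀ v ∈ M, g (ed par v) = y v 0) ∧ (∀ v ∈ M, ¬ IsSup own v → g s(v, oth v) = y v 1) ∧
      ∀ v ∈ A1, g (ed par v) ≤ Fintype.card X + (DI ρ par I).card := by
  classical
  have hρM : ∀ v ∈ M, v ≠ ρ := fun v hv hv' => hMI v hv (hv' ▸ h.root)
  set slot : W → Fin 2 → Sym2 W := fun v i => if i = 0 then ed par v else s(v, oth v) with hslot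
  have hs0 : ∀ v, slot v 0 = ed par v := fun v => if_pos rfl
  have hs1 : ∀ v, slot v 1 = s(v, oth v) := fun v => if_neg (by decide)
  have hR0 : ∀ v ∈ M, ¬ IsSup own v → v ∈ R0 own I := fun v hv hs =>
    mem_filter.2 ⟨mem_univ _, hMI v hv, hs⟩
  -- the slots are different
  have hsl : ∀ v ∈ M, ∀ v' ∈ M, ∀ i j, (i = 1 → ¬ IsSup own v) → (j = 1 → ¬ IsSup own v') →
      slot v i = slot v' j → v = v' ∧ i = j := by
    intro v hv v' hv' i j hi hj hij
    obtain rfl | rfl : i = 0 ∨ i = 1 := by omega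
    · obtain rfl | rfl : j = 0 ∨ j = 1 := by omega
      · rw [hs0, hs0] at hij
        exact ⟨h.ed_inj (hρM v hv) (hρM v' hv') hij, rfl⟩
      · rw [hs0, hs1] at hij
        exact absurd hij.symm (h.oe_ne (hR0 v' hv' (hj rfl)) (hρM v hv))
    · obtain rfl | rfl : j = 0 ∨ j = 1 := by omega
      · rw [hs0, hs1] at hij
        exact absurd hij (h.oe_ne (hR0 v hv (hi rfl)) (hρM v' hv'))
      · rw [hs1, hs1] at hij
        exact ⟨h.oe_inj (hR0 v hv (hi rfl)) (hR0 v' hv' (hj rfl)) hij, rfl⟩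
  have hsH : ∀ v ∈ M, ∀ i, (i = 1 → ¬ IsSup own v) → slot v i ∈ HS own par oth I := by
    intro v hv i hi
    obtain rfl | rfl : i = 0 ∨ i = 1 := by omega
    · rw [hs0]
      exact mem_union_left _ (mem_image_of_mem _ (mem_sdiff.2 ⟨mem_univ _, hMI v hv⟩))
    · rw [hs1]
      exact mem_union_right _ (mem_image.2 ⟨v, hR0 v hv (hi rfl), rfl⟩)
  have hHE : ∀ e ∈ HS own par oth I, e ∈ H.edgeFinset := fun e he => h.HS_sub he
  have hHB : ∀ e ∈ HS own par oth I, e ∉ BI H.edgeFinset own ρ par oth I := fun e he he' =>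
    (mem_sdiff.1 he').2 (mem_union_right _ he)
  have hyLH : ∀ v ∈ M, ∀ i, (i = 1 → ¬ IsSup own v) → y v i ∈ LH := by
    intro v hv i hi
    obtain rfl | rfl : i = 0 ∨ i = 1 := by omega
    · exact m0 v hv
    · exact m1 v hv (hi rfl)
  have hLH1 : ∀ a ∈ LH, Fintype.card X + (DI ρ par I).card < a ∧
      a ≤ Fintype.card X + H.edgeFinset.card ∧
      ∀ e ∈ BI H.edgeFinset own ρ par oth I, g0 e ≠ a := by
    intro a ha
    rw [hLH] at ha
    obtain ⟨h1, h2⟩ := mem_sdiff.1 ha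
    refine ⟨(mem_Ioc.1 h1).1, (mem_Ioc.1 h1).2, fun e he hea => h2 (mem_image.2 ⟨e, he, hea⟩)⟩
  -- the given labels
  set f0 : Sym2 W → ℕ := fun e => if e ∈ BI H.edgeFinset own ρ par oth I then g0 e else
    if hh : ∃ q : W × Fin 2, q.1 ∈ M ∧ (q.2 = 1 → ¬ IsSup own q.1) ∧ slot q.1 q.2 = e then
      y hh.choose.1 hh.choose.2 else 0 with hf0
  have hf1 : ∀ e ∈ BI H.edgeFinset own ρ par oth I, f0 e = g0 e := fun e he => if_pos he
  have hf2 : ∀ v ∈ M, ∀ i, (i = 1 → ¬ IsSup own v) → f0 (slot v i) = y v i := by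
    intro v hv i hi
    have hnB := hHB _ (hsH v hv i hi)
    have hex : ∃ q : W × Fin 2, q.1 ∈ M ∧ (q.2 = 1 → ¬ IsSup own q.1) ∧
        slot q.1 q.2 = slot v i := ⟨(v, i), hv, hi, rfl⟩
    have h1 : f0 (slot v i) = y hex.choose.1 hex.choose.2 := by
      simp only [hf0]
      rw [if_neg hnB, dif_pos hex]
    obtain ⟨h2, h3, h4⟩ := hex.choose_spec
    obtain ⟨h5, h6⟩ := hsl _ h2 v hv _ i h3 hi h4
    rw [h1, h5, h6]
  have hc1 : (A1.image (ed par)).card ≤
      (Ioc (Fintype.card X) (Fintype.card X + (DI ρ par I).card)).card := by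
    rw [Nat.card_Ioc]
    exact card_image_le.trans (by omega)
  have hDE : (DI ρ par I).card ≤ H.edgeFinset.card := card_le_card h.DI_sub
  obtain ⟨g, h1, h2, h3, h4⟩ := ext_inj H.edgeFinset
    (H.edgeFinset.filter fun e => e ∈ BI H.edgeFinset own ρ par oth I ∨
      ∃ q : W × Fin 2, q.1 ∈ M ∧ (q.2 = 1 → ¬ IsSup own q.1) ∧ slot q.1 q.2 = e)
    (A1.image (ed par)) (Ioc (Fintype.card X) (Fintype.card X + H.edgeFinset.card))
    (Ioc (Fintype.card X) (Fintype.card X + (DI ρ par I).card)) f0 (filter_subset _ _)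
    (by
      intro e he
      obtain ⟨v, hv, rfl⟩ := mem_image.1 he
      have := h.padj v (hA1 v hv).1
      rw [SimpleGraph.mem_edgeFinset]
      exact this)
    (by
      rw [Finset.disjoint_left]
      intro e he he'
      obtain ⟨v, hv, rfl⟩ := mem_image.1 he'
      obtain ⟨hvρ, hvM⟩ := hA1 v hv
      obtain ⟨-, hB | ⟨q, hq1, hq2, hq3⟩⟩ := mem_filter.1 he
      · apply (mem_sdiff.1 hB).2
        by_cases hvI : v ∈ I
        · exact mem_union_left _ (mem_image_of_mem _ (mem_erase.2 ⟨hvρ, hvI⟩))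
        · exact mem_union_right _ (mem_union_left _
            (mem_image_of_mem _ (mem_sdiff.2 ⟨mem_univ _, hvI⟩)))
      · obtain ⟨u, i⟩ := q
        simp only at hq1 hq2 hq3
        obtain rfl | rfl : i = 0 ∨ i = 1 := by omega
        · rw [hs0] at hq3
          have := h.ed_inj (hρM u hq1) hvρ hq3
          exact hvM (this ▸ hq1)
        · rw [hs1] at hq3
          exact h.oe_ne (hR0 u hq1 (hq2 rfl)) hvρ hq3)
    (by
      intro e he e' he' hee
      obtain ⟨-, he⟩ := mem_filter.1 (mem_coe.1 he)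
      obtain ⟨-, he'⟩ := mem_filter.1 (mem_coe.1 he')
      rcases he with he | ⟨⟨u, i⟩, hq1, hq2, rfl⟩
      · rcases he' with he' | ⟨⟨u', i'⟩, hq1', hq2', rfl⟩
        · rw [hf1 e he, hf1 e' he'] at hee
          exact ginj he he' hee
        · exfalso
          rw [hf1 e he, hf2 u' hq1' i' hq2'] at hee
          exact (hLH1 _ (hyLH u' hq1' i' hq2')).2.2 e he hee
      · rcases he' with he' | ⟨⟨u', i'⟩, hq1', hq2', rfl⟩
        · exfalso
          rw [hf1 e' he', hf2 u hq1 i hq2] at hee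
          exact (hLH1 _ (hyLH u hq1 i hq2)).2.2 e' he' hee.symm
        · rw [hf2 u hq1 i hq2, hf2 u' hq1' i' hq2'] at hee
          obtain ⟨h5, h6⟩ := hi u hq1 u' hq1' i i' hq2 hq2' hee
          simp only [h5, h6])
    (by
      intro e he
      obtain ⟨-, he⟩ := mem_filter.1 he
      rcases he with he | ⟨⟨u, i⟩, hq1, hq2, rfl⟩
      · rw [hf1 e he]
        have h5 := mem_Ioc.1 (gmem e he)
        exact mem_Ioc.2 ⟨by omega, h5.2⟩
      · rw [hf2 u hq1 i hq2]
        have h5 := hLH1 _ (hyLH u hq1 i hq2)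
        exact mem_Ioc.2 ⟨by omega, h5.2.1⟩)
    (Ioc_subset_Ioc_right (by omega))
    (by
      intro e he
      obtain ⟨-, he⟩ := mem_filter.1 he
      rcases he with he | ⟨⟨u, i⟩, hq1, hq2, rfl⟩
      · rw [hf1 e he]
        have h5 := mem_Ioc.1 (gmem e he)
        intro h6
        have h7 := mem_Ioc.1 h6
        omega
      · rw [hf2 u hq1 i hq2]
        have h5 := hLH1 _ (hyLH u hq1 i hq2)
        intro h6
        have h7 := mem_Ioc.1 h6
        omega)
    hc1 (by rw [Nat.card_Ioc]; omega)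
  refine ⟨g, h1, fun e he => mem_Ioc.1 (h2 e he), ?_, ?_, ?_, ?_⟩
  · intro e he
    rw [h3 e (mem_filter.2 ⟨(mem_sdiff.1 he).1, Or.inl he⟩), hf1 e he]
  · intro v hv
    have h01 : (0 : Fin 2) = 1 → ¬ IsSup own v := fun h => absurd h (by decide)
    have h5 := h3 (slot v 0) (mem_filter.2 ⟨hHE _ (hsH v hv 0 h01),
      Or.inr ⟨(v, 0), hv, h01, rfl⟩⟩)
    rw [hf2 v hv 0 h01, hs0] at h5
    exact h5
  · intro v hv hvs
    have h01 : (1 : Fin 2) = 1 → ¬ IsSup own v := fun _ => hvs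
    have h5 := h3 (slot v 1) (mem_filter.2 ⟨hHE _ (hsH v hv 1 h01),
      Or.inr ⟨(v, 1), hv, h01, rfl⟩⟩)
    rw [hf2 v hv 1 h01, hs1] at h5
    exact h5
  · intro v hv
    exact (mem_Ioc.1 (h4 _ (mem_image_of_mem _ hv))).2

/-- **Complete labelling.** Leaves: `lam0` outside `LS`, `x v 1` on `lf v` for matched regular supports,
the other leaves `lf v` get the unused labels of `(|X| - |LS|, |X|]` (`ext_inj`). Inner edges: `g0` on
`BI`; `x v 0` on `ed v` and `x v 1` on `{v, oth v}` for matched `v`; all other edges (`DI` and the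
slots of unmatched vertices) by `ext_inj` with `B = (|X|, |X| + |DI|] ∪ LH`, `B1 = (|X|, |X| + |DI|]`,
`A1` = the tree edges of the vertices `v ∈ Q`, `v ≠ ρ`, that are no supports:
`|A1| ≤ |I| - #(supports in I) + #unmatched ≤ |I| - 1 = |DI|`. Sums: `wsum_RS`, `wsum_R0`, `off_congr`;
`big`: `edge_reg`. -/
theorem exists_lay {W X : Type} [Fintype W] [DecidableEq W] [Fintype X] [DecidableEq X]
    {H : SimpleGraph W} [DecidableRel H.Adj] {own : X → W} {ρ : W} {par : W → W} {dp : W → ℕ}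
    {lf : W → X} {oth : W → W} {I : Finset W} (h : Irr H own ρ par dp lf oth I) (p : ℕ) [NeZero p]
    (lam0 : X → ℕ) (g0 : Sym2 W → ℕ) (LH : Finset ℕ) (lo : ℕ)
    (hI : Init H.edgeFinset own ρ par lf oth I p lam0 g0 LH lo) (T : Finset (ZMod p))
    (Pm : Finset {v // v ∉ I}) (x : {v // v ∉ I} → Fin 2 → ℕ) (Win : Finset ℕ) (q : ℝ)
    (hO : Out2 (fun v : {v // v ∉ I} => IsSup own (v : W))
      (fun v => off own lf I (BI H.edgeFinset own ρ par oth I) p lam0 g0 (v : W)) LH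
      (Ioc (Fintype.card X - (LS own lf I).card) (Fintype.card X)) Win T Pm x q)
    (hWin : ∀ l ∈ Win, 3 * Fintype.card X ≤ 5 * l) (hlp : (LS own lf I).card ≤ p)
    (hun : (univ \ Pm).card + 1 ≤ (I.filter fun w => IsSup own w).card) :
    ∃ (lam : X → ℕ) (g : Sym2 W → ℕ),
      Lay H.edgeFinset own ρ par dp lf (QQ I Pm) p T lam g (DI ρ par I).card q := by
  classical
  have hQ : ∀ v, v ∉ QQ I Pm ↔ ∃ hv : v ∉ I, (⟨v, hv⟩ : {v // v ∉ I}) ∈ Pm := fun v =>
    Fill_notMem_QQ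
  set M : Finset W := univ.filter fun v => v ∉ QQ I Pm with hM
  have hMQ : ∀ v, v ∈ M ↔ v ∉ QQ I Pm := fun v => by simp [hM]
  set y : W → Fin 2 → ℕ := fun v i => if hv : v ∉ I then x ⟨v, hv⟩ i else 0 with hy
  have hyv : ∀ v (hv : v ∉ I) i, y v i = x ⟨v, hv⟩ i := fun v hv i => dif_pos hv
  have hIQ : ∀ v ∈ I, v ∈ QQ I Pm := fun v hv => mem_union_left _ hv
  have hMI : ∀ v ∈ M, v ∉ I := fun v hv hv' => (hMQ v).1 hv (hIQ v hv')
  have hPm : ∀ v (hv : v ∈ M), (⟨v, hMI v hv⟩ : {v // v ∉ I}) ∈ Pm := fun v hv =>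
    ((hQ v).1 ((hMQ v).1 hv)).2
  set off0 : W → ZMod p := fun v =>
    off own lf I (BI H.edgeFinset own ρ par oth I) p lam0 g0 v with hoff0
  -- the leaves
  obtain ⟨lam, lam_inj, lam_mem, lam_eq, lam_lf⟩ := Fill_leaf (I := I) h.lfo lam0 (fun v => y v 1) M
    hI.lam
    (by
      intro v hv hvs
      rw [hyv v (hMI v hv)]
      exact hO.mem1 _ (hPm v hv) hvs)
    (by
      intro v hv v' hv' hvs hvs' hvv
      rw [hyv v (hMI v hv), hyv v' (hMI v' hv')] at hvv
      have := hO.injL _ (hPm v hv) _ (hPm v' hv') hvs hvs' hvv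
      exact congrArg Subtype.val this)
  -- the inner edges
  obtain ⟨g, g_inj, g_mem, g_B, g_0, g_1, g_A⟩ := Fill_edge h g0 LH y M hMI hI.ginj hI.gmem hI.LHd
    (by
      intro v hv
      rw [hyv v (hMI v hv)]
      exact hO.mem0 _ (hPm v hv))
    (by
      intro v hv hvs
      rw [hyv v (hMI v hv)]
      exact hO.mem1' _ (hPm v hv) hvs)
    (by
      intro v hv v' hv' i j hi hj hvv
      rw [hyv v (hMI v hv), hyv v' (hMI v' hv')] at hvv
      have := hO.injH _ (hPm v hv) _ (hPm v' hv') i j hi hj hvv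
      exact ⟨congrArg Subtype.val this.1, this.2⟩)
    ((QQ I Pm).filter fun v => v ≠ ρ ∧ ¬ IsSup own v)
    (by
      intro v hv
      obtain ⟨h1, h2, h3⟩ := mem_filter.1 hv
      exact ⟨h2, fun h4 => (hMQ v).1 h4 h1⟩)
    (by
      have h1 : ((QQ I Pm).filter fun v => v ≠ ρ ∧ ¬ IsSup own v) ⊆
          (I.filter fun v => ¬ IsSup own v) ∪ (univ \ Pm).image Subtype.val := by
        intro v hv
        obtain ⟨h1, h2, h3⟩ := mem_filter.1 hv
        rcases mem_union.1 h1 with h1 | h1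
        · exact mem_union_left _ (mem_filter.2 ⟨h1, h3⟩)
        · exact mem_union_right _ h1
      have h2 := (card_le_card h1).trans (card_union_le _ _)
      have h3 : ((univ \ Pm).image Subtype.val).card ≤ (univ \ Pm).card := card_image_le
      have h4 : (I.filter fun v => IsSup own v).card + (I.filter fun v => ¬ IsSup own v).card
          = I.card := card_filter_add_card_filter_not _
      have h5 := h.DI_card
      omega)
  -- the sums
  have hoffe : ∀ v, off own lf I (BI H.edgeFinset own ρ par oth I) p lam g v = off0 v := fun v =>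
    off_congr _ p lam lam0 g g0 v lam_eq g_B
  have hlm : ∀ v ∈ M, IsSup own v → lam (lf v) = y v 1 := fun v hv hvs =>
    lam_lf v hv (hMI v hv) hvs
  have hsumS : ∀ v ∈ M, IsSup own v → ((wsum own H.edgeFinset lam g v : ℕ) : ZMod p) =
      off0 v + ((y v 0 : ℕ) : ZMod p) + ((y v 1 : ℕ) : ZMod p) := by
    intro v hv hvs
    rw [h.wsum_RS p lam g v (mem_filter.2 ⟨mem_univ _, hMI v hv, hvs⟩), hoffe, g_0 v hv,
      hlm v hv hvs]
  have hsum : ∀ v ∈ M, ((wsum own H.edgeFinset lam g v : ℕ) : ZMod p) =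
      off0 v + ((y v 0 : ℕ) : ZMod p) + ((y v 1 : ℕ) : ZMod p) := by
    intro v hv
    by_cases hvs : IsSup own v
    · exact hsumS v hv hvs
    · rw [h.wsum_R0 p lam g v (mem_filter.2 ⟨mem_univ _, hMI v hv, hvs⟩), hoffe, g_0 v hv,
        g_1 v hv hvs]
  have hsub : ∀ v ∈ M, IsSup own v → ((wsum own H.edgeFinset lam g v : ℕ) : ZMod p) -
      ((lam (lf v) : ℕ) : ZMod p) = off0 v + ((y v 0 : ℕ) : ZMod p) := by
    intro v hv hvs
    rw [hsumS v hv hvs, hlm v hv hvs]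
    ring
  have hLHb : ∀ a ∈ LH, Fintype.card X + (DI ρ par I).card < a := by
    intro a ha
    rw [hI.LHd] at ha
    exact (mem_Ioc.1 (mem_sdiff.1 ha).1).1
  refine ⟨lam, g, lam_mem, lam_inj, g_mem, g_inj, ?_, ?_, hIQ ρ h.root, h.rootS, ?_, h.pdp, ?_,
    h.lfo, ?_, ?_, ?_, ?_, ?_⟩
  · -- big
    intro v hv e he hve
    have hvM := (hMQ v).2 hv
    rcases h.edge_reg v (hMI v hvM) e he hve with h1 | h1 | ⟨h1, h2⟩
    · rw [g_B e h1]
      exact (mem_Ioc.1 (hI.gmem e h1)).1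
    · rw [h1, g_0 v hvM, hyv v (hMI v hvM)]
      exact hLHb _ (hO.mem0 _ (hPm v hvM))
    · have hvs := ((mem_filter.1 h1).2).2
      rw [h2, g_1 v hvM hvs, hyv v (hMI v hvM)]
      exact hLHb _ (hO.mem1' _ (hPm v hvM) hvs)
  · -- safe
    intro v hv hvρ hvs
    exact g_A v (mem_filter.2 ⟨hv, hvρ, hvs⟩)
  · -- padj
    intro v hv
    have h1 := h.padj v hv
    exact ⟨SimpleGraph.mem_edgeFinset.2 h1, h1.ne'⟩
  · -- up
    intro v hv hvρ
    by_cases hvI : v ∈ I
    · exact hIQ _ (h.up v hvI hvρ)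
    · exact hIQ _ (h.nb v hvI _ (h.padj v hvρ))
  · -- sinj
    intro v hv v' hv' hvv
    have hvM := (hMQ v).2 hv
    have hvM' := (hMQ v').2 hv'
    rw [hsum v hvM, hsum v' hvM', hyv v (hMI v hvM), hyv v (hMI v hvM), hyv v' (hMI v' hvM'),
      hyv v' (hMI v' hvM')] at hvv
    have h1 := hO.sinj ⟨v, hMI v hvM⟩ (hPm v hvM) ⟨v', hMI v' hvM'⟩ (hPm v' hvM') hvv
    exact congrArg Subtype.val h1
  · -- nT
    intro v hv
    have hvM := (hMQ v).2 hv
    rw [hsum v hvM, hyv v (hMI v hvM), hyv v (hMI v hvM)]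
    have h1 := hO.nT ⟨v, hMI v hvM⟩ (hPm v hvM)
    exact h1
  · -- lmod
    intro v hv hvs v' hv' hvs' hvv
    have hvM := (hMQ v).2 hv
    have hvM' := (hMQ v').2 hv'
    rw [hlm v hvM hvs, hlm v' hvM' hvs', hyv v (hMI v hvM), hyv v' (hMI v' hvM')] at hvv
    have h1 := mem_Ioc.1 (hO.mem1 _ (hPm v hvM) hvs)
    have h2 := mem_Ioc.1 (hO.mem1 _ (hPm v' hvM') hvs')
    rw [ZMod.natCast_eq_natCast_iff] at hvv
    have h3 : x ⟨v, hMI v hvM⟩ 1 = x ⟨v', hMI v' hvM'⟩ 1 := by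
      rcases le_total (x ⟨v, hMI v hvM⟩ 1) (x ⟨v', hMI v' hvM'⟩ 1) with h4 | h4
      · have h5 := (Nat.modEq_iff_dvd' h4).1 hvv
        have h6 := Nat.eq_zero_of_dvd_of_lt h5 (by omega)
        omega
      · have h5 := (Nat.modEq_iff_dvd' h4).1 hvv.symm
        have h6 := Nat.eq_zero_of_dvd_of_lt h5 (by omega)
        omega
    exact congrArg Subtype.val (hO.injL _ (hPm v hvM) _ (hPm v' hvM') hvs hvs' h3)
  · -- key
    intro z
    refine le_trans (le_trans (card_le_card ?_) (card_image_le (f := Subtype.val))) (hO.key z)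
    intro v hv
    obtain ⟨-, hv1, hv2, hv3⟩ := mem_filter.1 hv
    have hvM := (hMQ v).2 hv1
    refine mem_image.2 ⟨⟨v, hMI v hvM⟩, mem_filter.2 ⟨hPm v hvM, hv2, ?_⟩, rfl⟩
    rw [hsub v hvM hv2, hyv v (hMI v hvM)] at hv3
    exact hv3
  · -- test
    intro z π
    refine (hO.test z π).trans (Nat.cast_le.2 ?_)
    refine le_trans (le_of_eq (card_image_of_injective (f := Subtype.val) _
      Subtype.val_injective).symm) (card_le_card ?_)
    intro v hv
    obtain ⟨⟨u, hu⟩, hv1, hv2⟩ := mem_image.1 hv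
    change u = v at hv2
    subst hv2
    obtain ⟨h1, h2, h3, h4, h5, h6⟩ := mem_filter.1 hv1
    have huQ : u ∉ QQ I Pm := (hQ u).2 ⟨hu, h1⟩
    have huM := (hMQ u).2 huQ
    refine mem_filter.2 ⟨mem_univ _, huQ, h2, ?_, ?_, ?_, ?_⟩
    · rw [hlm u huM h2, hyv u hu]
      exact hWin _ h3
    · rw [hsub u huM h2, hyv u hu]
      exact h4
    · rw [hlm u huM h2, hyv u hu]
      exact h5
    · rw [hsub u huM h2, hlm u huM h2, hyv u hu, hyv u hu]
      exact h6

end Pool.Agent.AMD
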