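import Pool.Agent.AMD.StepA

/-!
# Case 2: the state at the end of the repair
-/

set_option autoImplicit false
set_option linter.unusedVariables false

namespace Pool.Agent.AMD

open Finset Pool.Agent.AMF

variable {W X : Type} [Fintype W] [DecidableEq W] [Fintype X] [DecidableEq X]

/-- every inner edge has a label of size at least `3/5 |X|` -/
private theorem Fin_edge {E : Finset (Sym2 W)} {own : X → W} {ρ : W} {par : W → W}
    {dp : W → ℕ} {lf : W → X} {Q : Finset W} {p : ℕ} {T : Finset (ZMod p)} {lam : X → ℕ}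
    {g : Sym2 W → ℕ} {s0 : ℕ} {q : ℝ} (h : Lay E own ρ par dp lf Q p T lam g s0 q)
    {U : Finset W} {lam' : X → ℕ} {g' : Sym2 W → ℕ}
    (hI : Inv E own ρ par dp lf Q p T lam g s0 Q U lam' g') {e : Sym2 W} (he : e ∈ E) :
    3 * Fintype.card X ≤ 5 * g' e := by
  by_cases hc : ∃ v ∈ Q, ¬ IsSup own v ∧ e = ed par v
  · obtain ⟨v, hv, hs, rfl⟩ := hc
    exact hI.gS v hv hs
  · have h1 : g' e = g e := hI.geq e he fun v hv hs hev => hc ⟨v, hv, hs, hev⟩
    have h2 := (h.g_mem e he).1
    rw [h1]
    omega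

/-- The state at the end is a labelling as wanted. Sums: vertices outside `Q ∪ U` have their old sums,
distinct and not in `T` (`sinj`, `nT` of `Lay`), the others have distinct sums in `T`. Inequality
`lam' x ≤ |X| + s0 < sum at w`: every edge `e ∈ E` has `5 g' e ≥ 3 |X|` (`g' e = g e > |X|`, or `gS`). If `w ∉ Q`
then `ed par w` has the label `g (ed par w) > |X| + s0` (`big`; it is not `ed par v` with `v ∈ Q`, `ed_inj`).
If `w ∈ Q` is a support: `lam' (lf w) ≥ 3/5 |X|` and one edge, sum `≥ 6/5 |X| > |X| + s0`. If `w ∈ Q` is no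
support: two edges, sum `≥ 6/5 |X| > |X| + s0`. -/
theorem Inv.isIAM {H : SimpleGraph W} [DecidableRel H.Adj] {own : X → W} {ρ : W} {par : W → W}
    {dp : W → ℕ} {lf : W → X} {Q : Finset W} {p : ℕ} {T : Finset (ZMod p)} {lam : X → ℕ}
    {g : Sym2 W → ℕ} {s0 : ℕ} {q : ℝ} (h : Lay H.edgeFinset own ρ par dp lf Q p T lam g s0 q)
    (hs0 : s0 ≤ H.edgeFinset.card) (hs : 5 * s0 < Fintype.card X)
    (hdeg : ∀ w, 2 ≤ (leavesAt own w).card + H.degree w) (hdegH : ∀ w, 1 ≤ H.degree w)
    {U : Finset W} {lam' : X → ℕ} {g' : Sym2 W → ℕ}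
    (hI : Inv H.edgeFinset own ρ par dp lf Q p T lam g s0 Q U lam' g') :
    IsIAM own H.edgeFinset lam' g' := by
  have hinc : ∀ w, edgesAt H.edgeFinset w = H.incidenceFinset w := fun w => by
    rw [SimpleGraph.incidenceFinset_eq_filter]; rfl
  have hcard : ∀ w, (edgesAt H.edgeFinset w).card = H.degree w := fun w => by
    rw [hinc, SimpleGraph.card_incidenceFinset_eq_degree]
  have hmemE : ∀ w, ∀ e ∈ edgesAt H.edgeFinset w, e ∈ H.edgeFinset := fun w e he =>
    (mem_filter.1 he).1
  refine ⟨fun x => ⟨(hI.lmem x).1, (hI.lmem x).2.trans (Nat.add_le_add_left hs0 _)⟩, hI.gmem,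
    hI.linj, hI.ginj, hI.lgne, ?_, ?_⟩
  · intro w w' hww
    have hc : ((wsum own H.edgeFinset lam' g' w : ℕ) : ZMod p) =
        ((wsum own H.edgeFinset lam' g' w' : ℕ) : ZMod p) := by rw [hww]
    by_cases hw : w ∈ Q ∪ U
    · by_cases hw' : w' ∈ Q ∪ U
      · exact hI.sinj w hw w' hw' hc
      · exfalso
        rw [mem_union, not_or] at hw'
        have h1 := hI.sT w hw
        rw [hc, hI.soth w' hw'.1 hw'.2] at h1
        exact h.nT w' hw'.1 h1
    · by_cases hw' : w' ∈ Q ∪ U
      · exfalso
        rw [mem_union, not_or] at hw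
        have h1 := hI.sT w' hw'
        rw [← hc, hI.soth w hw.1 hw.2] at h1
        exact h.nT w hw.1 h1
      · rw [mem_union, not_or] at hw hw'
        rw [hI.soth w hw.1 hw.2, hI.soth w' hw'.1 hw'.2] at hc
        exact h.sinj w hw.1 w' hw'.1 hc
  · intro x w
    refine lt_of_le_of_lt (hI.lmem x).2 ?_
    by_cases hw : w ∈ Q
    · by_cases hsup : IsSup own w
      · have h1 : lf w ∈ leavesAt own w := mem_filter.2 ⟨mem_univ _, h.lfo w hsup⟩
        have h2 : lam' (lf w) ≤ ∑ x ∈ leavesAt own w, lam' x :=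
          single_le_sum (f := lam') (fun _ _ => Nat.zero_le _) h1
        obtain ⟨e, he⟩ : (edgesAt H.edgeFinset w).Nonempty := by
          rw [← card_pos, hcard]; exact hdegH w
        have h3 : g' e ≤ ∑ e ∈ edgesAt H.edgeFinset w, g' e :=
          single_le_sum (f := g') (fun _ _ => Nat.zero_le _) he
        have h4 := Fin_edge h hI (hmemE w e he)
        have h5 := hI.fS w hw hsup
        unfold wsum
        omega
      · have h0 : leavesAt own w = ∅ := not_nonempty_iff_eq_empty.1 hsup
        have h1 : 1 < (edgesAt H.edgeFinset w).card := by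
          have := hdeg w
          rw [h0, card_empty] at this
          rw [hcard]; omega
        obtain ⟨e1, he1, e2, he2, hne⟩ := one_lt_card.1 h1
        have h3 : ∑ e ∈ {e1, e2}, g' e ≤ ∑ e ∈ edgesAt H.edgeFinset w, g' e := by
          refine sum_le_sum_of_subset ?_
          intro e he
          rw [mem_insert, mem_singleton] at he
          rcases he with rfl | rfl
          · exact he1
          · exact he2
        rw [sum_pair hne] at h3
        have h4 := Fin_edge h hI (hmemE w e1 he1)
        have h5 := Fin_edge h hI (hmemE w e2 he2)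
        unfold wsum
        omega
    · have hρ : w ≠ ρ := fun hc => hw (hc ▸ h.root)
      have h1 := (h.padj w hρ).1
      have h2 : w ∈ ed par w := by unfold ed; exact Sym2.mem_mk_left _ _
      have h3 : ed par w ∈ edgesAt H.edgeFinset w := mem_filter.2 ⟨h1, h2⟩
      have h4 : g' (ed par w) = g (ed par w) := by
        refine hI.geq _ h1 fun v hv hsv hev => ?_
        have hvρ : v ≠ ρ := fun hc => hsv (hc ▸ h.rootS)
        exact hw (h.ed_inj hρ hvρ hev ▸ hv)
      have h5 := h.big w hw _ h1 h2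
      have h6 : g' (ed par w) ≤ ∑ e ∈ edgesAt H.edgeFinset w, g' e :=
        single_le_sum (f := g') (fun _ _ => Nat.zero_le _) h3
      unfold wsum
      omega

end Pool.Agent.AMD
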