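import Pool.Agent.AMD.Cls
import Pool.Agent.AMX.Bg
import Pool.Agent.AMX.Leaf

/-!
# Case 2: labels of the background
-/

set_option autoImplicit false

namespace Pool.Agent.AMD

open Finset Pool.Agent.AMF

/-- Background labels. Proof: `lam0` from `AMX.leaf_labels` for the type `{x // x ∉ LS own lf I}` (extend
by `0`); `g0` from `AMX.bg_labels` with `E := BI`, `hub := I`, `c0 w` := the leaf part of the offset,
`a := |X| + |DI|`, `N := |HS|` (`card_E`). Multiplicities: `v ∈ RS` with a background edge: at most `6`;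
without background edge but with a background leaf: at most `2`; otherwise the offset is `0`. -/
theorem exists_init {W X : Type} [Fintype W] [DecidableEq W] [Fintype X] [DecidableEq X]
    {H : SimpleGraph W} [DecidableRel H.Adj] {own : X → W} {ρ : W} {par : W → W} {dp : W → ℕ}
    {lf : W → X} {oth : W → W} {I : Finset W} (h : Irr H own ρ par dp lf oth I) (p : ℕ) [NeZero p]
    (hN : 2 * Fintype.card W ≤ 5 * (HS own par oth I).card)
    (hp : (HS own par oth I).card + Fintype.card W < p) :
    ∃ (lam0 : X → ℕ) (g0 : Sym2 W → ℕ) (LH : Finset ℕ) (lo : ℕ),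
      Init H.edgeFinset own ρ par lf oth I p lam0 g0 LH lo := by
  classical
  have hcE := h.card_E
  set B := BI H.edgeFinset own ρ par oth I with hB
  -- leaves
  obtain ⟨lam', hbij, hmul'⟩ := AMX.leaf_labels
    (fun x : {x : X // x ∉ LS own lf I} => own (x : X)) p (by omega)
  have hcX : Fintype.card {x : X // x ∉ LS own lf I} = Fintype.card X - (LS own lf I).card := by
    rw [Fintype.card_subtype, ← Finset.card_compl]
    congr 1
    ext x
    simp
  rw [hcX] at hbij
  let lam0 : X → ℕ := fun x => if hx : x ∉ LS own lf I then lam' ⟨x, hx⟩ else 0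
  have hlam0 : ∀ x (hx : x ∉ LS own lf I), lam0 x = lam' ⟨x, hx⟩ := fun x hx => dif_pos hx
  let c0 : W → ZMod p := fun w =>
    ∑ x ∈ (leavesAt own w).filter (fun x => x ∉ LS own lf I), (lam0 x : ZMod p)
  have hc0 : ∀ w, c0 w = ∑ x ∈ univ.filter
      (fun x : {x : X // x ∉ LS own lf I} => own (x : X) = w), (lam' x : ZMod p) := by
    intro w
    show ∑ x ∈ (leavesAt own w).filter (fun x => x ∉ LS own lf I), (lam0 x : ZMod p) = _
    have h1 : (leavesAt own w).filter (fun x => x ∉ LS own lf I) =
        (univ.filter (fun x : {x : X // x ∉ LS own lf I} => own (x : X) = w)).map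
          (Function.Embedding.subtype _) := by
      ext x
      simp only [leavesAt, mem_filter, mem_univ, true_and, mem_map, Function.Embedding.subtype_apply,
        Subtype.exists, exists_and_right, exists_eq_right]
      constructor
      · rintro ⟨h2, h3⟩
        exact ⟨h3, h2⟩
      · rintro ⟨h2, h3⟩
        exact ⟨h3, h2⟩
    rw [h1, Finset.sum_map]
    refine Finset.sum_congr rfl fun x _ => ?_
    rw [Function.Embedding.subtype_apply, hlam0 _ x.2]
  -- background edges
  obtain ⟨g0, hginj, hgmem, ⟨lo, hlo⟩, hmul⟩ := AMX.bg_labels B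
    (fun e he => by
      have h1 : e ∈ H.edgeFinset := (mem_sdiff.1 he).1
      rw [SimpleGraph.mem_edgeFinset] at h1
      exact H.not_isDiag_of_mem_edgeSet h1)
    I p c0 (Fintype.card X + (DI ρ par I).card) (HS own par oth I).card hN hp
  have hend : Fintype.card X + (DI ρ par I).card + B.card + (HS own par oth I).card =
      Fintype.card X + H.edgeFinset.card := by omega
  rw [hend] at hgmem hlo
  refine ⟨lam0, g0, _, lo, ⟨?_, hginj, hgmem, rfl, ?_, hlo, ?_⟩⟩
  · refine ⟨?_, ?_, ?_⟩
    · intro x hx
      have hx' : x ∉ LS own lf I := (mem_sdiff.1 (mem_coe.1 hx)).2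
      rw [hlam0 x hx', coe_Icc]
      exact hbij.mapsTo (Set.mem_univ _)
    · intro x hx y hy hxy
      have hx' : x ∉ LS own lf I := (mem_sdiff.1 (mem_coe.1 hx)).2
      have hy' : y ∉ LS own lf I := (mem_sdiff.1 (mem_coe.1 hy)).2
      rw [hlam0 x hx', hlam0 y hy'] at hxy
      have := hbij.injOn (Set.mem_univ _) (Set.mem_univ _) hxy
      exact congrArg Subtype.val this
    · intro k hk
      rw [coe_Icc] at hk
      obtain ⟨x, -, hx⟩ := hbij.surjOn hk
      refine ⟨x, mem_coe.2 (mem_sdiff.2 ⟨mem_univ _, x.2⟩), ?_⟩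
      rw [hlam0 _ x.2]
      exact hx
  · rw [← hB, card_sdiff_of_subset, card_image_of_injOn hginj, Nat.card_Ioc]
    · omega
    · intro b hb
      obtain ⟨e, he, rfl⟩ := mem_image.1 hb
      exact hgmem e he
  · intro y hy
    have hoff : ∀ v, off own lf I B p lam0 g0 v =
        c0 v + ∑ e ∈ B.filter (fun e => v ∈ e), (g0 e : ZMod p) := fun v => rfl
    have hsub : ((RS own I).filter fun v => off own lf I B p lam0 g0 v = y) ⊆
        (univ.filter fun w : W => w ∉ I ∧ (∃ e ∈ B, w ∈ e) ∧
          c0 w + ∑ e ∈ B.filter (fun e => w ∈ e), (g0 e : ZMod p) = y) ∪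
        (univ.filter fun w : W => (∃ x : {x : X // x ∉ LS own lf I}, own (x : X) = w) ∧
          ∑ x ∈ univ.filter (fun x : {x : X // x ∉ LS own lf I} => own (x : X) = w),
            (lam' x : ZMod p) = y) := by
      intro v hv
      obtain ⟨h1, h2⟩ := mem_filter.1 hv
      have h3 : v ∉ I := (mem_filter.1 h1).2.1
      rw [hoff] at h2
      rw [mem_union, mem_filter, mem_filter]
      by_cases h4 : ∃ e ∈ B, v ∈ e
      · exact Or.inl ⟨mem_univ _, h3, h4, h2⟩
      · right
        have h5 : B.filter (fun e => v ∈ e) = ∅ := by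
          rw [filter_eq_empty_iff]
          intro e he hve
          exact h4 ⟨e, he, hve⟩
        rw [h5, sum_empty, add_zero, hc0] at h2
        refine ⟨mem_univ _, ?_, h2⟩
        by_contra hcon
        push Not at hcon
        rw [filter_false_of_mem (fun x _ => hcon x), sum_empty] at h2
        exact hy h2.symm
    have h6 := card_le_card hsub
    have h7 := card_union_le
      (univ.filter fun w : W => w ∉ I ∧ (∃ e ∈ B, w ∈ e) ∧
          c0 w + ∑ e ∈ B.filter (fun e => w ∈ e), (g0 e : ZMod p) = y)
      (univ.filter fun w : W => (∃ x : {x : X // x ∉ LS own lf I}, own (x : X) = w) ∧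
          ∑ x ∈ univ.filter (fun x : {x : X // x ∉ LS own lf I} => own (x : X) = w),
            (lam' x : ZMod p) = y)
    have h8 := hmul y
    have h9 := hmul' y
    exact h6.trans (h7.trans (Nat.add_le_add h8 h9))

end Pool.Agent.AMD
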