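import Pool.Agent.AMD.Defs
import Pool.Agent.AMC.Par

/-!
# Case 2: the irregular set
-/

set_option autoImplicit false

namespace Pool.Agent.AMD

open Finset Pool.Agent.AMF

/-- Choice of the root, the parents and the irregular set. Proof: `ρ` = any support (there is one, `hk`);
parents from `AMC.exists_par H ∅ {ρ}` (`H` is connected); `lf v` = a leaf at `v` (for supports), `oth v` =
a neighbour of `v` different from `par v` (for `v` with at least two neighbours in `H`).
`I0 = Z ∪ par '' (Z \ ρ) ∪ {ρ}`, `|I0| ≤ 2 |Z| + 1`. There are at least `k + 1` supports outside `I0`; let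
`Ex` be `k` or `k + 1` of them such that the number of remaining supports outside `I = I0 ∪ Ex` is
even. `up`: if `v ∈ Z` then `par v ∈ I0`; if `v ∈ I \ Z` then the edge `{v, par v}` has an end in `Z`, so
`par v ∈ Z`. `nb`: `v ∉ Z`, so `u ∈ Z`. `noch`: `par u = v` with `u ≠ ρ` gives the edge `{u, v}`,
`v ∉ Z`, so `u ∈ Z` and `v = par u ∈ I0`. `othadj`: a vertex `v ∉ I` without leaves has degree at least
two in `H`, and `v ≠ ρ`. Supports in `I`: `ρ` and the `k` elements of `Ex`. -/
theorem exists_irr {W X : Type} [Fintype W] [DecidableEq W] [Fintype X] [DecidableEq X]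
    (H : SimpleGraph W) [DecidableRel H.Adj] (own : X → W) (hH : H.Connected)
    (hdeg : ∀ w, 2 ≤ (leavesAt own w).card + H.degree w) (Z : Finset W)
    (hZ : ∀ e ∈ H.edgeFinset, ∃ z ∈ Z, z ∈ e) (k : ℕ)
    (hk : 2 * Z.card + k + 2 ≤ (univ.filter fun w => IsSup own w).card) :
    ∃ (ρ : W) (par : W → W) (dp : W → ℕ) (lf : W → X) (oth : W → W) (I : Finset W),
      Irr H own ρ par dp lf oth I ∧ I.card ≤ 2 * Z.card + k + 2 ∧ Even (RS own I).card ∧
      k + 1 ≤ (I.filter fun w => IsSup own w).card := by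
  classical
  set S := univ.filter fun w => IsSup own w with hS
  obtain ⟨ρ, hρ⟩ : S.Nonempty := by
    rw [← card_pos]; omega
  have hρS : IsSup own ρ := (mem_filter.1 hρ).2
  obtain ⟨par, dp, hpar⟩ := AMC.exists_par H ∅ {ρ}
    (fun x => ⟨ρ, mem_singleton_self _, hH.preconnected x ρ⟩) (disjoint_empty_left _)
    (fun v hv => absurd hv (notMem_empty _))
  have hpar1 : ∀ v, v ≠ ρ → H.Adj v (par v) := fun v hv =>
    (hpar v (notMem_empty _) (by rwa [mem_singleton])).1
  have hpar2 : ∀ v, v ≠ ρ → dp (par v) < dp v := fun v hv =>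
    (hpar v (notMem_empty _) (by rwa [mem_singleton])).2.2
  have hlf : ∀ v, ∃ x : X, IsSup own v → own x = v := by
    intro v
    by_cases hv : IsSup own v
    · obtain ⟨x, hx⟩ := hv
      exact ⟨x, fun _ => (mem_filter.1 hx).2⟩
    · obtain ⟨x, -⟩ := hρS
      exact ⟨x, fun h => absurd h hv⟩
  choose lf hlf using hlf
  have hoth : ∀ v, ∃ u : W, 2 ≤ H.degree v → H.Adj v u ∧ u ≠ par v := by
    intro v
    by_cases hv : 2 ≤ H.degree v
    · have h1 : 1 < (H.neighborFinset v).card := by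
        rw [SimpleGraph.card_neighborFinset_eq_degree]; omega
      obtain ⟨u, hu, hne⟩ := exists_mem_ne h1 (par v)
      exact ⟨u, fun _ => ⟨(SimpleGraph.mem_neighborFinset _ _ _).1 hu, hne⟩⟩
    · exact ⟨ρ, fun h => absurd h hv⟩
  choose oth hoth using hoth
  have hedge : ∀ u v, H.Adj u v → v ∉ Z → u ∈ Z := by
    intro u v huv hv
    obtain ⟨z, hz, hze⟩ := hZ s(u, v) (by rw [SimpleGraph.mem_edgeFinset]; exact huv)
    rcases Sym2.mem_iff.1 hze with rfl | rfl
    · exact hz
    · exact absurd hz hv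
  set I0 := Z ∪ Z.image par ∪ {ρ} with hI0
  have hI0c : I0.card ≤ 2 * Z.card + 1 := by
    have h1 := card_union_le (Z ∪ Z.image par) {ρ}
    have h2 := card_union_le Z (Z.image par)
    have h3 : (Z.image par).card ≤ Z.card := card_image_le
    rw [card_singleton, ← hI0] at h1
    omega
  have hZI0 : Z ⊆ I0 := fun z hz => mem_union_left _ (mem_union_left _ hz)
  have hpI0 : ∀ z ∈ Z, par z ∈ I0 := fun z hz =>
    mem_union_left _ (mem_union_right _ (mem_image_of_mem _ hz))
  have hρI0 : ρ ∈ I0 := mem_union_right _ (mem_singleton_self _)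
  have hdiff : k + 1 ≤ (S \ I0).card := by
    have := le_card_sdiff I0 S
    omega
  obtain ⟨c, hc1, hc2, hc3⟩ : ∃ c, k ≤ c ∧ c ≤ k + 1 ∧ Even ((S \ I0).card - c) := by
    rcases Nat.even_or_odd ((S \ I0).card - k) with h | h
    · exact ⟨k, le_rfl, by omega, h⟩
    · refine ⟨k + 1, by omega, le_rfl, ?_⟩
      have h1 : (S \ I0).card - (k + 1) = (S \ I0).card - k - 1 := by omega
      rw [h1]
      exact Nat.Odd.sub_odd h odd_one
  obtain ⟨Ex, hEx, hExc⟩ := exists_subset_card_eq (s := S \ I0) (n := c) (by omega)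
  have hI0I : ∀ x ∈ I0, x ∈ I0 ∪ Ex := fun x hx => mem_union_left _ hx
  refine ⟨ρ, par, dp, lf, oth, I0 ∪ Ex, ⟨?_, hρS, hpar1, hpar2, ?_, hlf, ?_, ?_, ?_⟩, ?_, ?_, ?_⟩
  · exact hI0I _ hρI0
  · intro v _ hvρ
    by_cases hvZ : v ∈ Z
    · exact hI0I _ (hpI0 v hvZ)
    · exact hI0I _ (hZI0 (hedge (par v) v (hpar1 v hvρ).symm hvZ))
  · intro v hv u hvu
    have hvZ : v ∉ Z := fun h => hv (hI0I _ (hZI0 h))
    exact hI0I _ (hZI0 (hedge u v hvu.symm hvZ))
  · intro v hv u huρ hpu
    have hvZ : v ∉ Z := fun h => hv (hI0I _ (hZI0 h))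
    have h1 := hpar1 u huρ
    rw [hpu] at h1
    have h2 := hpI0 u (hedge u v h1 hvZ)
    rw [hpu] at h2
    exact hv (hI0I _ h2)
  · intro v hv hvS
    apply hoth
    have h1 : (leavesAt own v).card = 0 := by
      rw [card_eq_zero]
      exact not_nonempty_iff_eq_empty.1 hvS
    have h2 := hdeg v
    omega
  · have := card_union_le I0 Ex
    omega
  · have h1 : RS own (I0 ∪ Ex) = (S \ I0) \ Ex := by
      ext w
      simp only [RS, hS, mem_filter, mem_univ, true_and, mem_union, mem_sdiff, not_or]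
      tauto
    rw [h1, card_sdiff_of_subset hEx, hExc]
    exact hc3
  · have h1 : insert ρ Ex ⊆ (I0 ∪ Ex).filter fun w => IsSup own w := by
      intro w hw
      rw [mem_filter]
      rcases mem_insert.1 hw with rfl | hw
      · exact ⟨hI0I _ hρI0, hρS⟩
      · have h2 := mem_sdiff.1 (hEx hw)
        exact ⟨mem_union_right _ hw, (mem_filter.1 h2.1).2⟩
    have h2 := card_le_card h1
    rw [card_insert_of_notMem (fun h => (mem_sdiff.1 (hEx h)).2 hρI0), hExc] at h2
    exact le_trans (by omega) h2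

end Pool.Agent.AMD
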