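import Pool.Agent.AMD.Step
import Pool.Agent.AMD.Fin

/-!
# Case 2: repair
-/

set_option autoImplicit false
set_option linter.unusedVariables false

namespace Pool.Agent.AMD

open Finset Pool.Agent.AMF

variable {W X : Type} [Fintype W] [DecidableEq W] [Fintype X] [DecidableEq X]

/-- the state at the beginning -/
theorem Repair_start {E : Finset (Sym2 W)} {own : X → W} {ρ : W} {par : W → W} {dp : W → ℕ}
    {lf : W → X} {Q : Finset W} {p : ℕ} {T : Finset (ZMod p)} {lam : X → ℕ} {g : Sym2 W → ℕ} {s0 : ℕ}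
    {q : ℝ} (h : Lay E own ρ par dp lf Q p T lam g s0 q) :
    Inv E own ρ par dp lf Q p T lam g s0 ∅ ∅ lam g where
  SQ := empty_subset _
  UQ := by simp
  cU := le_rfl
  upS := by simp
  lmem x := ⟨(h.lam_mem x).1, (h.lam_mem x).2.trans (Nat.le_add_right _ _)⟩
  gmem e he := ⟨by have := (h.g_mem e he).1; omega, (h.g_mem e he).2⟩
  linj := h.lam_inj
  ginj := h.g_inj
  lgne x e he := by
    have h1 := (h.lam_mem x).2
    have h2 := (h.g_mem e he).1
    omega
  leq := fun _ _ _ => rfl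
  geq := fun _ _ _ => rfl
  fS := by simp
  gS := by simp
  sT := by simp
  sinj := by simp
  soth := fun _ _ _ => rfl

/-- **Repair.** Start with `S = U = ∅`, apply `step` `|Q|` times. -/
theorem Lay.iam {H : SimpleGraph W} [DecidableRel H.Adj] {own : X → W} {ρ : W} {par : W → W}
    {dp : W → ℕ} {lf : W → X} {Q : Finset W} {p : ℕ} {T : Finset (ZMod p)} {lam : X → ℕ}
    {g : Sym2 W → ℕ} {s0 : ℕ} {q : ℝ} (h : Lay H.edgeFinset own ρ par dp lf Q p T lam g s0 q)
    (hq : 7 * (Q.card : ℝ) ≤ q)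
    (hs0 : s0 ≤ H.edgeFinset.card) (hs : 5 * s0 < Fintype.card X)
    (hdeg : ∀ w, 2 ≤ (leavesAt own w).card + H.degree w) (hdegH : ∀ w, 1 ≤ H.degree w) :
    IAM H own := by
  have key : ∀ k ≤ Q.card, ∃ (S U : Finset W) (lam' : X → ℕ) (g' : Sym2 W → ℕ),
      Inv H.edgeFinset own ρ par dp lf Q p T lam g s0 S U lam' g' ∧ S.card = k := by
    intro k
    induction k with
    | zero => exact fun _ => ⟨∅, ∅, lam, g, Repair_start h, rfl⟩
    | succ k ih =>
      intro hk
      obtain ⟨S, U, lam', g', hI, hS⟩ := ih (by omega)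
      obtain ⟨S', U', lam'', g'', hI', hS'⟩ := step h hs0 hq hI (by rintro rfl; omega)
      exact ⟨S', U', lam'', g'', hI', by omega⟩
  obtain ⟨S, U, lam', g', hI, hS⟩ := key Q.card le_rfl
  have hSQ : S = Q := eq_of_subset_of_card_le hI.SQ hS.ge
  subst hSQ
  exact ⟨lam', g', Inv.isIAM h hs0 hs hdeg hdegH hI⟩

end Pool.Agent.AMD
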