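import Mathlib

/-!
# The window of low labels
-/

set_option autoImplicit false

namespace Pool.Agent.AMD

open Finset

/-- the window of low labels: at least one quarter of the low labels are `≥ 3/5 |X|` -/
theorem win_card (a k : ℕ) (hk : k ≤ a) :
    (Ioc (a - k) a).card ≤ 4 * ((Ioc (a - k) a).filter fun l => 3 * a ≤ 5 * l).card := by
  rcases Nat.eq_zero_or_pos a with rfl | ha
  · simp
  set b := (3 * a + 4) / 5 with hb
  have hb1 : 3 * a ≤ 5 * b := by omega
  have hb2 : 1 ≤ b := by omega
  have hsub : Ioc (max (a - k) (b - 1)) a ⊆ (Ioc (a - k) a).filter fun l => 3 * a ≤ 5 * l := by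
    intro l hl
    rw [mem_Ioc, max_lt_iff] at hl
    rw [mem_filter, mem_Ioc]
    exact ⟨⟨hl.1.1, hl.2⟩, by omega⟩
  have h := card_le_card hsub
  rw [Nat.card_Ioc] at h
  rw [Nat.card_Ioc]
  rcases le_total (a - k) (b - 1) with h1 | h1
  · rw [max_eq_right h1] at h
    omega
  · rw [max_eq_left h1] at h
    omega

end Pool.Agent.AMD
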