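import Pool.Agent.AMD.Irr
import Pool.Agent.AMD.Fill
import Pool.Agent.AMD.Repair
import Pool.Agent.AMD.WinC

/-!
# Case 2: assembly
-/

set_option autoImplicit false

namespace Pool.Agent.AMD

open Finset Pool.Agent.AMF

theorem Main_card_sub {W : Type} [Fintype W] [DecidableEq W] (I : Finset W) (pr : W → Prop)
    [DecidablePred pr] :
    (univ.filter fun Q : {v // v ∉ I} => pr (Q : W)).card =
      (univ.filter fun v => v ∉ I ∧ pr v).card := by
  rw [← card_map ⟨Subtype.val, Subtype.val_injective⟩]
  congr 1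
  ext v
  simp only [mem_map, mem_filter, mem_univ, true_and, Function.Embedding.coeFn_mk, Subtype.exists,
    exists_and_right, exists_eq_right]
  constructor
  · rintro ⟨h1, h2⟩
    exact ⟨h1, h2⟩
  · rintro ⟨h1, h2⟩
    exact ⟨h1, h2⟩

/-- **Case 2.** A small vertex cover of the inner graph, many supports outside.
Proof: `b` from `parts2 (c1/2)`; `d = min (b/200) (c1/200)`, `c2 = d`, `δ = d`, `k = ⌈d n⌉`, `p = 10 n`,
`C1 = 10`, `B = 8`, `n` large. `exists_irr` with `k` (supports ≥ `c1 n ≥ 2 c2 n + k + 2`),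
`|I| ≤ 2 c2 n + k + 2 ≤ 4 d n`; `|HS| ≥ n - |I| ≥ 9/10 n`, `|HS| ≤ 2 n`; `exists_init`; `Hyp2` with
`lenH = |HS| + n`, `lenL = |LS|`, `LL = Ioc (|X| - |LS|) |X|`, `loL = |X| - |LS| + 1`, `N = n`, `Win` = the labels
`l ∈ LL` with `3 |X| ≤ 5 l` (`win_card`); `|HS| = |RS| + 2 |R0|` is even; `parts2`: unmatched `≤ d n ≤ k`, so
`hun` of `exists_lay`; `Lay.iam`: `7 |Q| ≤ 7 (4 d n + d n) ≤ b n`, `5 |DI| ≤ 20 d n < c1 n ≤ |X|`,
`H.degree w ≥ 1` (connected, at least two vertices). -/
theorem case2 (c1 : ℝ) (hc1 : 0 < c1) : ∃ c2 > 0, ∃ n0 : ℕ, ∀ (W X : Type) [Fintype W]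
    [DecidableEq W] [Fintype X] [DecidableEq X] (H : SimpleGraph W) [DecidableRel H.Adj] (own : X → W),
    n0 ≤ Fintype.card W → H.Connected → (∀ w, 2 ≤ (leavesAt own w).card + H.degree w) →
    ∀ Z : Finset W, (∀ e ∈ H.edgeFinset, ∃ z ∈ Z, z ∈ e) → (Z.card : ℝ) ≤ c2 * Fintype.card W →
    c1 * Fintype.card W ≤ ((univ.filter fun w => w ∉ Z ∧ (leavesAt own w).Nonempty).card : ℝ) →
    IAM H own := by
  obtain ⟨b, hb, Hparts⟩ := parts2 (c1 / 2) (by positivity)
  set d : ℝ := min (min b c1) 1 / 400 with hd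
  have hd0 : 0 < d := by
    have : 0 < min (min b c1) 1 := lt_min (lt_min hb hc1) one_pos
    positivity
  have hdb : 400 * d ≤ b := by
    have : min (min b c1) 1 ≤ b := (min_le_left _ _).trans (min_le_left _ _)
    rw [hd]; linarith
  have hdc : 400 * d ≤ c1 := by
    have : min (min b c1) 1 ≤ c1 := (min_le_left _ _).trans (min_le_right _ _)
    rw [hd]; linarith
  have hd1 : 400 * d ≤ 1 := by
    have : min (min b c1) 1 ≤ 1 := min_le_right _ _
    rw [hd]; linarith
  obtain ⟨N0, HN⟩ := Hparts 10 d 8 (by norm_num) hd0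
  obtain ⟨M, hM⟩ := exists_nat_ge (10 / d)
  refine ⟨d, hd0, max (max N0 M) 2, ?_⟩
  intro W X _ _ _ _ H _ own hn hH hdeg Z hZ hZc hsup
  set n := Fintype.card W with hndef
  have hnN : N0 ≤ n := (le_max_left _ _).trans ((le_max_left _ _).trans hn)
  have hnM : M ≤ n := (le_max_right _ _).trans ((le_max_left _ _).trans hn)
  have hn2 : 2 ≤ n := (le_max_right _ _).trans hn
  have hnr : (2 : ℝ) ≤ n := by exact_mod_cast hn2
  have hdn : 10 ≤ d * n := by
    have h1 : 10 / d ≤ n := hM.trans (by exact_mod_cast hnM)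
    rw [div_le_iff₀ hd0] at h1
    linarith
  have hdn_b : 400 * (d * n) ≤ b * n := by nlinarith
  have hdn_c : 400 * (d * n) ≤ c1 * n := by nlinarith
  have hdn_1 : 400 * (d * n) ≤ n := by nlinarith
  set k := ⌈d * n⌉₊ with hk
  have hk1 : d * n ≤ k := Nat.le_ceil _
  have hk2 : (k : ℝ) < d * n + 1 := Nat.ceil_lt_add_one (by positivity)
  -- supports
  have hsupc : (univ.filter fun w => w ∉ Z ∧ (leavesAt own w).Nonempty).card ≤
      (univ.filter fun w => IsSup own w).card := by
    refine card_le_card fun w hw => ?_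
    rw [mem_filter] at hw ⊢
    exact ⟨hw.1, hw.2.2⟩
  have hsupr : c1 * n ≤ ((univ.filter fun w => IsSup own w).card : ℝ) :=
    hsup.trans (by exact_mod_cast hsupc)
  have hk' : 2 * Z.card + k + 2 ≤ (univ.filter fun w => IsSup own w).card := by
    have : ((2 * Z.card + k + 2 : ℕ) : ℝ) ≤ ((univ.filter fun w => IsSup own w).card : ℝ) := by
      push_cast
      linarith
    exact_mod_cast this
  obtain ⟨ρ, par, dp, lf, oth, I, h, hIc, hEv, hIs⟩ := exists_irr H own hH hdeg Z hZ k hk'
  have hIr : (I.card : ℝ) ≤ 4 * (d * n) := by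
    have : (I.card : ℝ) ≤ ((2 * Z.card + k + 2 : ℕ) : ℝ) := by exact_mod_cast hIc
    push_cast at this
    linarith
  -- numbers of regular vertices
  have hI_n : I.card + (univ \ I).card = n := by
    rw [card_sdiff_of_subset (subset_univ _), card_univ]
    have := card_le_univ I
    omega
  have hRR : (RS own I).card + (R0 own I).card = (univ \ I).card := by
    rw [← card_union_of_disjoint]
    · congr 1
      ext w
      simp only [RS, R0, mem_union, mem_filter, mem_univ, true_and, mem_sdiff]
      tauto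
    · rw [disjoint_left]
      intro w hw hw'
      simp only [RS, R0, mem_filter, mem_univ, true_and] at hw hw'
      exact hw'.2 hw.2
  have hRSr : c1 / 2 * n ≤ ((RS own I).card : ℝ) := by
    have h1 : (univ.filter fun w => IsSup own w).card ≤ (RS own I).card + I.card := by
      rw [← card_union_of_disjoint]
      · refine card_le_card fun w hw => ?_
        simp only [RS, mem_union, mem_filter, mem_univ, true_and] at hw ⊢
        tauto
      · rw [disjoint_left]
        intro w hw hw'
        simp only [RS, mem_filter, mem_univ, true_and] at hw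
        exact hw.1 hw'
    have h2 : ((univ.filter fun w => IsSup own w).card : ℝ) ≤ (RS own I).card + I.card := by
      exact_mod_cast h1
    linarith
  have hHSc := h.HS_card
  have hLSc := h.LS_card
  have hDIc := h.DI_card
  have hEc := h.card_E
  have hLSX : (LS own lf I).card ≤ Fintype.card X := card_le_univ _
  have hI_nr : (I.card : ℝ) + (univ \ I).card = n := by exact_mod_cast hI_n
  have hN : 2 * Fintype.card W ≤ 5 * (HS own par oth I).card := by
    have : ((2 * n : ℕ) : ℝ) ≤ ((5 * (HS own par oth I).card : ℕ) : ℝ) := by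
      rw [hHSc]
      push_cast
      have : (0 : ℝ) ≤ (R0 own I).card := Nat.cast_nonneg _
      linarith
    exact_mod_cast this
  have hp : (HS own par oth I).card + Fintype.card W < 10 * n := by
    rw [← hndef]; omega
  haveI : NeZero (10 * n) := ⟨by omega⟩
  obtain ⟨lam0, g0, LH, lo, hInit⟩ := exists_init h (10 * n) hN hp
  set LL := Ioc (Fintype.card X - (LS own lf I).card) (Fintype.card X) with hLL
  have hLLc : LL.card = (LS own lf I).card := by rw [hLL, Nat.card_Ioc]; omega
  have hcP : Fintype.card {v // v ∉ I} = (univ \ I).card := by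
    rw [Fintype.card_subtype]
    congr 1
    ext v
    simp
  have hyp : Hyp2 (fun v : {v // v ∉ I} => IsSup own (v : W))
      (fun v => off own lf I (BI H.edgeFinset own ρ par oth I) (10 * n) lam0 g0 (v : W)) LH LL
      (LL.filter fun l => 3 * Fintype.card X ≤ 5 * l) lo
      (Fintype.card X - (LS own lf I).card + 1) ((HS own par oth I).card + n) (LS own lf I).card n 8
      (c1 / 2) 10 := by
    constructor
    · rw [hcP]; omega
    · push_cast; exact le_rfl
    · omega
    · exact hInit.LHi
    · intro a ha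
      rw [hLL, mem_Ioc] at ha
      omega
    · rw [hInit.LHc, hHSc, ← hRR, add_assoc, ← two_mul]
      exact hEv.add (even_two_mul _)
    · rw [hLLc, hLSc]; exact hEv
    · rw [hInit.LHc, hHSc, hcP]
      congr 1
      exact (Main_card_sub I fun v => ¬ IsSup own v).symm
    · rw [hLLc, hLSc]
      exact (Main_card_sub I fun v => IsSup own v).symm
    · rw [Main_card_sub I fun v => IsSup own v]
      exact hRSr
    · intro y hy
      refine le_trans (le_of_eq ?_) (hInit.mult y hy)
      rw [Main_card_sub I fun v => IsSup own v ∧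
        off own lf I (BI H.edgeFinset own ρ par oth I) (10 * n) lam0 g0 v = y]
      congr 1
      ext v
      simp only [RS, mem_filter, mem_univ, true_and]
      tauto
    · exact filter_subset _ _
    · exact win_card _ _ hLSX
  obtain ⟨T, Pm, x, hunm, hO⟩ := HN {v // v ∉ I} _ (10 * n) _ LH LL _ lo _ _ _ n hnN hyp
  have hunk : (univ \ Pm).card ≤ k := by
    have : ((univ \ Pm).card : ℝ) ≤ k := hunm.trans hk1
    exact_mod_cast this
  obtain ⟨lam, g, hLay⟩ := exists_lay h (10 * n) lam0 g0 LH lo hInit T Pm x _ (b * n) hO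
    (fun l hl => (mem_filter.1 hl).2) (by omega) (by omega)
  haveI : Nontrivial W := Fintype.one_lt_card_iff_nontrivial.1 (by omega)
  refine hLay.iam ?_ (by omega) ?_ hdeg fun w => hH.preconnected.degree_pos_of_nontrivial w
  · have h1 : (QQ I Pm).card ≤ I.card + (univ \ Pm).card :=
      (card_union_le _ _).trans (Nat.add_le_add_left card_image_le _)
    have h2 : ((QQ I Pm).card : ℝ) ≤ I.card + (univ \ Pm).card := by exact_mod_cast h1
    linarith
  · have h1 : ((5 * (DI ρ par I).card : ℕ) : ℝ) < ((Fintype.card X : ℕ) : ℝ) := by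
      have h2 : ((DI ρ par I).card : ℝ) ≤ I.card := by
        have : (DI ρ par I).card ≤ I.card := by omega
        exact_mod_cast this
      have h3 : ((RS own I).card : ℝ) ≤ Fintype.card X := by
        rw [← hLSc]; exact_mod_cast hLSX
      push_cast
      linarith
    exact_mod_cast h1

end Pool.Agent.AMD
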