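import Pool.Agent.AMD.StepA

/-!
# Case 2: repair of one irregular vertex
-/

set_option autoImplicit false
set_option linter.unusedVariables false

namespace Pool.Agent.AMD

open Finset Pool.Agent.AMF

variable {W X : Type} [Fintype W] [DecidableEq W] [Fintype X] [DecidableEq X]

/-- The new state, given the new labels and the sums of the new labelling. -/
private theorem Step_core {E : Finset (Sym2 W)} {own : X → W} {ρ : W} {par : W → W} {dp : W → ℕ}
    {lf : W → X} {Q : Finset W} {p : ℕ} {T : Finset (ZMod p)} {lam : X → ℕ} {g : Sym2 W → ℕ} {s0 : ℕ}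
    {S U : Finset W} {lam' : X → ℕ} {g' : Sym2 W → ℕ}
    (hI : Inv E own ρ par dp lf Q p T lam g s0 S U lam' g')
    {v0 u : W} (hv0Q : v0 ∈ Q) (hv0S : v0 ∉ S) (hmax : ∀ w ∈ Q, w ∉ S → dp w ≤ dp v0)
    (huQ : u ∉ Q) (huS : IsSup own u) (huU : u ∉ U) {l : ℕ}
    (hT0 : ((wsum own E lam' g' v0 : ℕ) : ZMod p) - (l : ZMod p) + ((lam (lf u) : ℕ) : ZMod p) ∈ T)
    (hTu : ((wsum own E lam g u : ℕ) : ZMod p) - ((lam (lf u) : ℕ) : ZMod p) + (l : ZMod p) ∈ T)
    (hne : ((wsum own E lam' g' v0 : ℕ) : ZMod p) - (l : ZMod p) + ((lam (lf u) : ℕ) : ZMod p) ≠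
      ((wsum own E lam g u : ℕ) : ZMod p) - ((lam (lf u) : ℕ) : ZMod p) + (l : ZMod p))
    (h2 : ∀ w ∈ S ∪ U, ((wsum own E lam' g' v0 : ℕ) : ZMod p) - (l : ZMod p) +
      ((lam (lf u) : ℕ) : ZMod p) ≠ ((wsum own E lam' g' w : ℕ) : ZMod p))
    (h3 : ∀ w ∈ S ∪ U, ((wsum own E lam g u : ℕ) : ZMod p) - ((lam (lf u) : ℕ) : ZMod p) +
      (l : ZMod p) ≠ ((wsum own E lam' g' w : ℕ) : ZMod p))
    {lam'' : X → ℕ} {g'' : Sym2 W → ℕ}
    (lmem : ∀ x, 1 ≤ lam'' x ∧ lam'' x ≤ Fintype.card X + s0)
    (gmem : ∀ e ∈ E, 1 ≤ g'' e ∧ g'' e ≤ Fintype.card X + E.card)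
    (linj : Function.Injective lam'')
    (ginj : Set.InjOn g'' E)
    (lgne : ∀ x, ∀ e ∈ E, lam'' x ≠ g'' e)
    (leq : ∀ x, (∀ v ∈ insert v0 S, IsSup own v → x ≠ lf v) → (∀ w ∈ insert u U, x ≠ lf w) →
      lam'' x = lam x)
    (geq : ∀ e ∈ E, (∀ v ∈ insert v0 S, ¬ IsSup own v → e ≠ ed par v) → g'' e = g e)
    (fS : ∀ v ∈ insert v0 S, IsSup own v → 3 * Fintype.card X ≤ 5 * lam'' (lf v))
    (gS : ∀ v ∈ insert v0 S, ¬ IsSup own v → 3 * Fintype.card X ≤ 5 * g'' (ed par v))
    (e0 : wsum own E lam'' g'' v0 + l = wsum own E lam' g' v0 + lam (lf u))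
    (e1 : wsum own E lam'' g'' u + lam (lf u) = wsum own E lam' g' u + l)
    (e2 : ∀ w, w ≠ v0 → w ≠ u → (w ∈ S ∪ U ∨ w ∉ Q) → wsum own E lam'' g'' w = wsum own E lam' g' w) :
    Inv E own ρ par dp lf Q p T lam g s0 (insert v0 S) (insert u U) lam'' g'' := by
  classical
  have huS' : u ∉ S := fun hu => huQ (hI.SQ hu)
  have hv0U : v0 ∉ U := fun hv => (hI.UQ v0 hv).1 hv0Q
  have hv0SU : v0 ∉ S ∪ U := by simp [hv0S, hv0U]
  have huSU : u ∉ S ∪ U := by simp [huS', huU]
  have c0 : ((wsum own E lam'' g'' v0 : ℕ) : ZMod p) =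
      ((wsum own E lam' g' v0 : ℕ) : ZMod p) - (l : ZMod p) + ((lam (lf u) : ℕ) : ZMod p) := by
    have := congrArg (Nat.cast : ℕ → ZMod p) e0
    push_cast at this
    linear_combination this
  have c1 : ((wsum own E lam'' g'' u : ℕ) : ZMod p) =
      ((wsum own E lam g u : ℕ) : ZMod p) - ((lam (lf u) : ℕ) : ZMod p) + (l : ZMod p) := by
    rw [hI.soth u huQ huU] at e1
    have := congrArg (Nat.cast : ℕ → ZMod p) e1
    push_cast at this
    linear_combination this
  have c2 : ∀ w ∈ S ∪ U, wsum own E lam'' g'' w = wsum own E lam' g' w := by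
    intro w hw
    refine e2 w ?_ ?_ (Or.inl hw)
    · rintro rfl; exact hv0SU hw
    · rintro rfl; exact huSU hw
  have hmem : ∀ w, w ∈ insert v0 S ∪ insert u U ↔ w = v0 ∨ w = u ∨ w ∈ S ∪ U := by
    intro w
    simp only [mem_union, mem_insert]
    tauto
  refine ⟨?_, ?_, ?_, ?_, lmem, gmem, linj, ginj, lgne, leq, geq, fS, gS, ?_, ?_, ?_⟩
  · intro w hw
    rcases mem_insert.1 hw with rfl | hw
    · exact hv0Q
    · exact hI.SQ hw
  · intro w hw
    rcases mem_insert.1 hw with rfl | hw
    · exact ⟨huQ, huS⟩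
    · exact hI.UQ w hw
  · rw [card_insert_of_notMem hv0S, card_insert_of_notMem huU]
    exact Nat.succ_le_succ hI.cU
  · intro v hv w hwQ hwS
    have hwS' : w ∉ S := fun hw => hwS (mem_insert_of_mem hw)
    rcases mem_insert.1 hv with rfl | hv
    · exact hmax w hwQ hwS'
    · exact hI.upS v hv w hwQ hwS'
  · intro w hw
    rcases (hmem w).1 hw with rfl | rfl | hw
    · rw [c0]; exact hT0
    · rw [c1]; exact hTu
    · rw [c2 w hw]; exact hI.sT w hw
  · intro w hw w' hw' heq
    rcases (hmem w).1 hw with k | k | k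
    · rcases (hmem w').1 hw' with k' | k' | k'
      · rw [k, k']
      · rw [k, k', c0, c1] at heq; exact absurd heq hne
      · rw [k, c0, c2 w' k'] at heq; exact absurd heq (h2 w' k')
    · rcases (hmem w').1 hw' with k' | k' | k'
      · rw [k, k', c0, c1] at heq; exact absurd heq.symm hne
      · rw [k, k']
      · rw [k, c1, c2 w' k'] at heq; exact absurd heq (h3 w' k')
    · rcases (hmem w').1 hw' with k' | k' | k'
      · rw [k', c0, c2 w k] at heq; exact absurd heq.symm (h2 w k)
      · rw [k', c1, c2 w k] at heq; exact absurd heq.symm (h3 w k)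
      · rw [c2 w k, c2 w' k'] at heq; exact hI.sinj w k w' k' heq
  · intro w hwQ hwU
    have hw1 : w ≠ u := by rintro rfl; exact hwU (mem_insert_self _ _)
    have hw0 : w ≠ v0 := by rintro rfl; exact hwQ hv0Q
    have hwU' : w ∉ U := fun hw => hwU (mem_insert_of_mem hw)
    rw [e2 w hw0 hw1 (Or.inr hwQ)]
    exact hI.soth w hwQ hwU'

/-- A gadget that avoids all the excluded ones. -/
private theorem Step_gadget {E : Finset (Sym2 W)} {own : X → W} {ρ : W} {par : W → W} {dp : W → ℕ}
    {lf : W → X} {Q : Finset W} {p : ℕ} {T : Finset (ZMod p)} {lam : X → ℕ} {g : Sym2 W → ℕ} {s0 : ℕ}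
    {q : ℝ} (h : Lay E own ρ par dp lf Q p T lam g s0 q) (hq : 7 * (Q.card : ℝ) ≤ q)
    {S U : Finset W} {lam' : X → ℕ} {g' : Sym2 W → ℕ}
    (hI : Inv E own ρ par dp lf Q p T lam g s0 S U lam' g') (hSQ : S.card < Q.card) (y π : ZMod p) :
    ∃ u, u ∉ Q ∧ IsSup own u ∧ u ∉ U ∧ 3 * Fintype.card X ≤ 5 * lam (lf u) ∧
      ((wsum own E lam g u : ℕ) : ZMod p) - ((lam (lf u) : ℕ) : ZMod p) + y ∈ T ∧
      π + ((lam (lf u) : ℕ) : ZMod p) ∈ T ∧
      π + ((lam (lf u) : ℕ) : ZMod p) ≠
        ((wsum own E lam g u : ℕ) : ZMod p) - ((lam (lf u) : ℕ) : ZMod p) + y ∧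
      (∀ w ∈ S ∪ U, π + ((lam (lf u) : ℕ) : ZMod p) ≠ ((wsum own E lam' g' w : ℕ) : ZMod p)) ∧
      (∀ w ∈ S ∪ U, ((wsum own E lam g u : ℕ) : ZMod p) - ((lam (lf u) : ℕ) : ZMod p) + y ≠
        ((wsum own E lam' g' w : ℕ) : ZMod p)) := by
  classical
  set G : Finset W := univ.filter fun v => v ∉ Q ∧ IsSup own v ∧
    3 * Fintype.card X ≤ 5 * lam (lf v) ∧
    ((wsum own E lam g v : ℕ) : ZMod p) - ((lam (lf v) : ℕ) : ZMod p) + y ∈ T ∧
    π + ((lam (lf v) : ℕ) : ZMod p) ∈ T ∧ π + ((lam (lf v) : ℕ) : ZMod p) ≠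
      ((wsum own E lam g v : ℕ) : ZMod p) - ((lam (lf v) : ℕ) : ZMod p) + y with hG
  have hGq : q ≤ (G.card : ℝ) := by
    have := h.test y π
    convert this using 3
  set B2 : Finset W := (S ∪ U).biUnion fun w => univ.filter fun v => v ∉ Q ∧ IsSup own v ∧
    π + ((lam (lf v) : ℕ) : ZMod p) = ((wsum own E lam' g' w : ℕ) : ZMod p) with hB2
  set B3 : Finset W := (S ∪ U).biUnion fun w => univ.filter fun v => v ∉ Q ∧ IsSup own v ∧
    ((wsum own E lam g v : ℕ) : ZMod p) - ((lam (lf v) : ℕ) : ZMod p) =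
      ((wsum own E lam' g' w : ℕ) : ZMod p) - y with hB3
  have hSU : (S ∪ U).card ≤ 2 * S.card := by
    have := card_union_le S U
    have := hI.cU
    omega
  have cB2 : B2.card ≤ 2 * S.card := by
    have : B2.card ≤ (S ∪ U).card * 1 := by
      refine card_biUnion_le_card_mul _ _ _ ?_
      intro w _
      refine card_le_one.2 ?_
      intro a ha b hb
      simp only [mem_filter, mem_univ, true_and] at ha hb
      refine h.lmod a ha.1 ha.2.1 b hb.1 hb.2.1 ?_
      have := ha.2.2.trans hb.2.2.symm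
      exact add_left_cancel this
    omega
  have cB3 : B3.card ≤ 4 * S.card := by
    have : B3.card ≤ (S ∪ U).card * 2 := by
      refine card_biUnion_le_card_mul _ _ _ ?_
      intro w _
      have := h.key (((wsum own E lam' g' w : ℕ) : ZMod p) - y)
      convert this using 2
    omega
  have hlt : (U ∪ B2 ∪ B3).card < G.card := by
    have h1 := card_union_le (U ∪ B2) B3
    have h2 := card_union_le U B2
    have h3 := hI.cU
    have h4 : (U ∪ B2 ∪ B3).card ≤ 7 * S.card := by omega
    have h5 : (U ∪ B2 ∪ B3).card < 7 * Q.card := by omega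
    have h6 : ((U ∪ B2 ∪ B3).card : ℝ) < 7 * (Q.card : ℝ) := by exact_mod_cast h5
    have h7 : ((U ∪ B2 ∪ B3).card : ℝ) < (G.card : ℝ) := by linarith
    exact_mod_cast h7
  obtain ⟨u, huG, hu⟩ := exists_mem_notMem_of_card_lt_card hlt
  rw [hG] at huG
  simp only [mem_filter, mem_univ, true_and] at huG
  obtain ⟨a1, a2, a3, a4, a5, a6⟩ := huG
  simp only [mem_union, not_or] at hu
  obtain ⟨⟨b1, b2⟩, b3⟩ := hu
  refine ⟨u, a1, a2, b1, a3, a4, a5, a6, ?_, ?_⟩
  · intro w hw heq
    refine b2 ?_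
    rw [hB2]
    refine mem_biUnion.2 ⟨w, hw, ?_⟩
    simp only [mem_filter, mem_univ, true_and]
    exact ⟨a1, a2, heq⟩
  · intro w hw heq
    refine b3 ?_
    rw [hB3]
    refine mem_biUnion.2 ⟨w, hw, ?_⟩
    simp only [mem_filter, mem_univ, true_and]
    exact ⟨a1, a2, eq_sub_of_add_eq heq⟩

/-- **One repair.** Take `v0 ∈ Q \ S` with `dp` maximal. Designated label `l`: `lam' (lf v0) = lam (lf v0)`
if `v0` is a support, `g' (ed v0) = g (ed v0)` otherwise (`v0 ≠ ρ`, `leq`, `geq`, `ed_inj`); in both cases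
`l ≤ |X| + s0`. `π` = the sum at `v0` without `l`. By `test l π` there are at least `q` gadgets `u`; excluded
are `u ∈ U` (at most `|S|`), `u` with `π + lam (lf u)` = the sum at an element of `S ∪ U` (at most
`2 |S|`, `lmod`), `u` with `sum u - lam (lf u) + l` = the sum at an element of `S ∪ U` (at most `4 |S|`, `key`);
`7 |S| < 7 |Q| ≤ q`. Exchange the label `l` with `lam' (lf u) = lam (lf u)`. The sums change at `v0`, at
`u`, and (if `v0` is no support) at `par v0 ∈ Q \ S` (`dp (par v0) < dp v0 ≤ dp v` for `v ∈ S`). -/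
theorem step {E : Finset (Sym2 W)} {own : X → W} {ρ : W} {par : W → W} {dp : W → ℕ} {lf : W → X}
    {Q : Finset W} {p : ℕ} {T : Finset (ZMod p)} {lam : X → ℕ} {g : Sym2 W → ℕ} {s0 : ℕ} {q : ℝ}
    (h : Lay E own ρ par dp lf Q p T lam g s0 q) (hs0 : s0 ≤ E.card) (hq : 7 * (Q.card : ℝ) ≤ q)
    {S U : Finset W}
    {lam' : X → ℕ} {g' : Sym2 W → ℕ} (hI : Inv E own ρ par dp lf Q p T lam g s0 S U lam' g')
    (hS : S ≠ Q) :
    ∃ (S' U' : Finset W) (lam'' : X → ℕ) (g'' : Sym2 W → ℕ),
      Inv E own ρ par dp lf Q p T lam g s0 S' U' lam'' g'' ∧ S'.card = S.card + 1 := by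
  classical
  have hss : S ⊂ Q := hI.SQ.ssubset_of_ne hS
  have hSQ : S.card < Q.card := card_lt_card hss
  have hne : (Q \ S).Nonempty := by
    rw [sdiff_nonempty]
    exact hss.2
  obtain ⟨v0, hv0, hv0max⟩ := exists_max_image (Q \ S) dp hne
  obtain ⟨hv0Q, hv0S⟩ := mem_sdiff.1 hv0
  have hmax : ∀ w ∈ Q, w ∉ S → dp w ≤ dp v0 := fun w hw hwS => hv0max w (mem_sdiff.2 ⟨hw, hwS⟩)
  -- distinct leaves have distinct owners
  have hlf : ∀ a b, IsSup own a → IsSup own b → lf a = lf b → a = b := by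
    intro a b ha hb hab
    rw [← h.lfo a ha, ← h.lfo b hb, hab]
  by_cases hsup : IsSup own v0
  · -- `v0` is a support
    obtain ⟨u, huQ, huS, huU, hu3, hTu, hT0, hneq, h2, h3⟩ := Step_gadget h hq hI hSQ
      ((lam' (lf v0) : ℕ) : ZMod p)
      (((wsum own E lam' g' v0 : ℕ) : ZMod p) - ((lam' (lf v0) : ℕ) : ZMod p))
    have huv0 : u ≠ v0 := by rintro rfl; exact huQ hv0Q
    have hlu : lam' (lf u) = lam (lf u) := by
      refine hI.leq _ ?_ ?_
      · intro v hv hvs heq
        exact huQ ((hlf u v huS hvs heq) ▸ hI.SQ hv)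
      · intro w hw heq
        exact huU ((hlf u w huS (hI.UQ w hw).2 heq) ▸ hw)
    have hlfne : lf u ≠ lf v0 := fun heq => huv0 (hlf u v0 huS hsup heq)
    set lam1 : X → ℕ := Function.update lam' (lf v0) (lam' (lf u)) with hlam1
    set lam2 : X → ℕ := Function.update lam1 (lf u) (lam' (lf v0)) with hlam2
    have l2u : lam2 (lf u) = lam' (lf v0) := by rw [hlam2]; simp
    have l2v : lam2 (lf v0) = lam' (lf u) := by
      rw [hlam2, Function.update_of_ne hlfne.symm, hlam1]; simp
    have l2o : ∀ x, x ≠ lf u → x ≠ lf v0 → lam2 x = lam' x := by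
      intro x hx hx'
      rw [hlam2, Function.update_of_ne hx, hlam1, Function.update_of_ne hx']
    have l2swap : ∀ x, lam2 x = lam' (Equiv.swap (lf u) (lf v0) x) := by
      intro x
      by_cases hx : x = lf u
      · subst hx; rw [l2u, Equiv.swap_apply_left]
      · by_cases hx' : x = lf v0
        · subst hx'; rw [l2v, Equiv.swap_apply_right]
        · rw [l2o x hx hx', Equiv.swap_apply_of_ne_of_ne hx hx']
    have s1 : ∀ w, wsum own E lam1 g' w + (if v0 = w then lam' (lf v0) else 0) =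
        wsum own E lam' g' w + (if v0 = w then lam' (lf u) else 0) := by
      intro w
      have := wsum_update_leaf own E lam' lam1 g' (lf v0)
        (fun y hy => by rw [hlam1, Function.update_of_ne hy]) w
      rw [h.lfo v0 hsup] at this
      rwa [show lam1 (lf v0) = lam' (lf u) by rw [hlam1]; simp] at this
    have s2 : ∀ w, wsum own E lam2 g' w + (if u = w then lam' (lf u) else 0) =
        wsum own E lam1 g' w + (if u = w then lam' (lf v0) else 0) := by
      intro w
      have := wsum_update_leaf own E lam1 lam2 g' (lf u)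
        (fun y hy => by rw [hlam2, Function.update_of_ne hy]) w
      rw [h.lfo u huS, l2u] at this
      rwa [show lam1 (lf u) = lam' (lf u) by rw [hlam1, Function.update_of_ne hlfne]] at this
    refine ⟨insert v0 S, insert u U, lam2, g', ?_, card_insert_of_notMem hv0S⟩
    refine Step_core hI hv0Q hv0S hmax huQ huS huU (l := lam' (lf v0)) hT0 hTu hneq h2 h3
      ?_ hI.gmem ?_ hI.ginj ?_ ?_ ?_ ?_ ?_ ?_ ?_ ?_
    · intro x; rw [l2swap]; exact hI.lmem _
    · intro x y hxy
      rw [l2swap, l2swap] at hxy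
      exact (Equiv.swap (lf u) (lf v0)).injective (hI.linj hxy)
    · intro x e he; rw [l2swap]; exact hI.lgne _ e he
    · intro x hx hx'
      rw [l2o x (hx' u (mem_insert_self _ _)) (hx v0 (mem_insert_self _ _) hsup)]
      exact hI.leq x (fun v hv => hx v (mem_insert_of_mem hv))
        (fun w hw => hx' w (mem_insert_of_mem hw))
    · intro e he hx
      exact hI.geq e he (fun v hv => hx v (mem_insert_of_mem hv))
    · intro v hv hvs
      rcases mem_insert.1 hv with rfl | hv
      · rw [l2v, hlu]; exact hu3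
      · rw [l2o (lf v)]
        · exact hI.fS v hv hvs
        · intro heq
          exact huQ ((hlf v u hvs huS heq) ▸ hI.SQ hv)
        · intro heq
          exact hv0S ((hlf v v0 hvs hsup heq) ▸ hv)
    · intro v hv hvs
      rcases mem_insert.1 hv with rfl | hv
      · exact absurd hsup hvs
      · exact hI.gS v hv hvs
    · have t1 := s1 v0
      have t2 := s2 v0
      simp only [if_true, if_neg huv0] at t1 t2
      omega
    · have t1 := s1 u
      have t2 := s2 u
      simp only [if_true, if_neg huv0.symm] at t1 t2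
      omega
    · intro w hw0 hwu _
      have t1 := s1 w
      have t2 := s2 w
      simp only [if_neg hw0.symm, if_neg hwu.symm] at t1 t2
      omega
  · -- `v0` is no support
    have hv0ρ : v0 ≠ ρ := by rintro rfl; exact hsup h.rootS
    have he0 : ed par v0 ∈ E := (h.padj v0 hv0ρ).1
    have hge : g' (ed par v0) = g (ed par v0) := by
      refine hI.geq _ he0 ?_
      intro v hv hvs heq
      have hvρ : v ≠ ρ := by rintro rfl; exact hvs h.rootS
      exact hv0S ((h.ed_inj hv0ρ hvρ heq) ▸ hv)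
    obtain ⟨u, huQ, huS, huU, hu3, hTu, hT0, hneq, h2, h3⟩ := Step_gadget h hq hI hSQ
      ((g' (ed par v0) : ℕ) : ZMod p)
      (((wsum own E lam' g' v0 : ℕ) : ZMod p) - ((g' (ed par v0) : ℕ) : ZMod p))
    have huv0 : u ≠ v0 := by rintro rfl; exact huQ hv0Q
    have hpQ : par v0 ∈ Q := h.up v0 hv0Q hv0ρ
    have hup : u ≠ par v0 := by rintro rfl; exact huQ hpQ
    have hpS : par v0 ∉ S := by
      intro hp
      have a := hI.upS _ hp v0 hv0Q hv0S
      have b := h.pdp v0 hv0ρ
      omega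
    have hlu : lam' (lf u) = lam (lf u) := by
      refine hI.leq _ ?_ ?_
      · intro v hv hvs heq
        exact huQ ((hlf u v huS hvs heq) ▸ hI.SQ hv)
      · intro w hw heq
        exact huU ((hlf u w huS (hI.UQ w hw).2 heq) ▸ hw)
    have hlU : lam' (lf u) ≤ Fintype.card X := by rw [hlu]; exact (h.lam_mem _).2
    have hsafe : g' (ed par v0) ≤ Fintype.card X + s0 := by
      rw [hge]; exact h.safe v0 hv0Q hv0ρ hsup
    set lam2 : X → ℕ := Function.update lam' (lf u) (g' (ed par v0)) with hlam2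
    set g2 : Sym2 W → ℕ := Function.update g' (ed par v0) (lam' (lf u)) with hg2
    have l2u : lam2 (lf u) = g' (ed par v0) := by rw [hlam2]; simp
    have l2o : ∀ x, x ≠ lf u → lam2 x = lam' x := by
      intro x hx
      rw [hlam2, Function.update_of_ne hx]
    have g2e : g2 (ed par v0) = lam' (lf u) := by rw [hg2]; simp
    have g2o : ∀ e, e ≠ ed par v0 → g2 e = g' e := by
      intro e he
      rw [hg2, Function.update_of_ne he]
    have s1 : ∀ w, wsum own E lam2 g' w + (if u = w then lam' (lf u) else 0) =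
        wsum own E lam' g' w + (if u = w then g' (ed par v0) else 0) := by
      intro w
      have := wsum_update_leaf own E lam' lam2 g' (lf u) l2o w
      rwa [h.lfo u huS, l2u] at this
    have s2 : ∀ w, wsum own E lam2 g2 w + (if w ∈ ed par v0 then g' (ed par v0) else 0) =
        wsum own E lam2 g' w + (if w ∈ ed par v0 then lam' (lf u) else 0) := by
      intro w
      have := wsum_update_edge own E lam2 g' g2 (ed par v0) he0 (fun f _ hf => g2o f hf) w
      rwa [g2e] at this
    have hm0 : v0 ∈ ed par v0 := by simp [ed]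
    have hmo : ∀ w, w ≠ v0 → w ≠ par v0 → w ∉ ed par v0 := by
      intro w h1 h2
      simp [ed, h1, h2]
    refine ⟨insert v0 S, insert u U, lam2, g2, ?_, card_insert_of_notMem hv0S⟩
    refine Step_core hI hv0Q hv0S hmax huQ huS huU (l := g' (ed par v0)) hT0 hTu hneq h2 h3
      ?_ ?_ ?_ ?_ ?_ ?_ ?_ ?_ ?_ ?_ ?_ ?_
    · intro x
      by_cases hx : x = lf u
      · subst hx; rw [l2u]; exact ⟨(hI.gmem _ he0).1, hsafe⟩
      · rw [l2o x hx]; exact hI.lmem x
    · intro e he
      by_cases hee : e = ed par v0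
      · subst hee; rw [g2e]; exact ⟨(hI.lmem _).1, hlU.trans (Nat.le_add_right _ _)⟩
      · rw [g2o e hee]; exact hI.gmem e he
    · intro x y hxy
      by_cases hx : x = lf u
      · by_cases hy : y = lf u
        · rw [hx, hy]
        · rw [hx, l2u, l2o y hy] at hxy
          exact absurd hxy.symm (hI.lgne y _ he0)
      · by_cases hy : y = lf u
        · rw [hy, l2u, l2o x hx] at hxy
          exact absurd hxy (hI.lgne x _ he0)
        · rw [l2o x hx, l2o y hy] at hxy
          exact hI.linj hxy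
    · intro e he f hf hef
      by_cases hee : e = ed par v0
      · by_cases hff : f = ed par v0
        · rw [hee, hff]
        · rw [hee, g2e, g2o f hff] at hef
          exact absurd hef (hI.lgne _ f (mem_coe.1 hf))
      · by_cases hff : f = ed par v0
        · rw [hff, g2e, g2o e hee] at hef
          exact absurd hef.symm (hI.lgne _ e (mem_coe.1 he))
        · rw [g2o e hee, g2o f hff] at hef
          exact hI.ginj he hf hef
    · intro x e he
      by_cases hx : x = lf u
      · by_cases hee : e = ed par v0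
        · rw [hx, hee, l2u, g2e]
          exact fun hh => hI.lgne _ _ he0 hh.symm
        · rw [hx, l2u, g2o e hee]
          intro hh
          exact hee (hI.ginj he (mem_coe.2 he0) hh.symm)
      · by_cases hee : e = ed par v0
        · rw [hee, g2e, l2o x hx]
          exact fun hh => hx (hI.linj hh)
        · rw [l2o x hx, g2o e hee]
          exact hI.lgne x e he
    · intro x hx hx'
      rw [l2o x (hx' u (mem_insert_self _ _))]
      exact hI.leq x (fun v hv => hx v (mem_insert_of_mem hv))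
        (fun w hw => hx' w (mem_insert_of_mem hw))
    · intro e he hx
      rw [g2o e (hx v0 (mem_insert_self _ _) hsup)]
      exact hI.geq e he (fun v hv => hx v (mem_insert_of_mem hv))
    · intro v hv hvs
      rcases mem_insert.1 hv with rfl | hv
      · exact absurd hvs hsup
      · rw [l2o (lf v)]
        · exact hI.fS v hv hvs
        · intro heq
          exact huQ ((hlf v u hvs huS heq) ▸ hI.SQ hv)
    · intro v hv hvs
      rcases mem_insert.1 hv with rfl | hv
      · rw [g2e, hlu]; exact hu3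
      · rw [g2o (ed par v)]
        · exact hI.gS v hv hvs
        · intro heq
          have hvρ : v ≠ ρ := by rintro rfl; exact hvs h.rootS
          exact hv0S ((h.ed_inj hvρ hv0ρ heq) ▸ hv)
    · have t1 := s1 v0
      have t2 := s2 v0
      simp only [if_neg huv0, if_pos hm0] at t1 t2
      omega
    · have t1 := s1 u
      have t2 := s2 u
      simp only [if_true, if_neg (hmo u huv0 hup)] at t1 t2
      omega
    · intro w hw0 hwu hw
      have hwp : w ≠ par v0 := by
        rintro rfl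
        rcases hw with hw | hw
        · rcases mem_union.1 hw with hw | hw
          · exact hpS hw
          · exact (hI.UQ _ hw).1 hpQ
        · exact hw hpQ
      have t1 := s1 w
      have t2 := s2 w
      simp only [if_neg (hmo w hw0 hwp), if_neg hwu.symm] at t1 t2
      omega

end Pool.Agent.AMD
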