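import Pool.Agent.AMD.Defs

/-!
# Case 2: state of the repair, small lemmas
-/

set_option autoImplicit false
set_option linter.unusedVariables false

namespace Pool.Agent.AMD

open Finset Pool.Agent.AMF

variable {W X : Type} [Fintype W] [DecidableEq W] [Fintype X] [DecidableEq X]

/-- State of the repair: `S` = repaired vertices of `Q`, `U` = used gadgets (regular supports). -/
structure Inv (E : Finset (Sym2 W)) (own : X → W) (ρ : W) (par : W → W) (dp : W → ℕ) (lf : W → X)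
    (Q : Finset W) (p : ℕ) (T : Finset (ZMod p)) (lam : X → ℕ) (g : Sym2 W → ℕ) (s0 : ℕ)
    (S U : Finset W) (lam' : X → ℕ) (g' : Sym2 W → ℕ) : Prop where
  SQ : S ⊆ Q
  UQ : ∀ u ∈ U, u ∉ Q ∧ IsSup own u
  cU : U.card ≤ S.card
  upS : ∀ v ∈ S, ∀ u ∈ Q, u ∉ S → dp u ≤ dp v
  lmem : ∀ x, 1 ≤ lam' x ∧ lam' x ≤ Fintype.card X + s0
  gmem : ∀ e ∈ E, 1 ≤ g' e ∧ g' e ≤ Fintype.card X + E.card
  linj : Function.Injective lam'
  ginj : Set.InjOn g' E
  lgne : ∀ x, ∀ e ∈ E, lam' x ≠ g' e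
  leq : ∀ x, (∀ v ∈ S, IsSup own v → x ≠ lf v) → (∀ u ∈ U, x ≠ lf u) → lam' x = lam x
  geq : ∀ e ∈ E, (∀ v ∈ S, ¬ IsSup own v → e ≠ ed par v) → g' e = g e
  fS : ∀ v ∈ S, IsSup own v → 3 * Fintype.card X ≤ 5 * lam' (lf v)
  gS : ∀ v ∈ S, ¬ IsSup own v → 3 * Fintype.card X ≤ 5 * g' (ed par v)
  sT : ∀ w ∈ S ∪ U, ((wsum own E lam' g' w : ℕ) : ZMod p) ∈ T
  sinj : ∀ w ∈ S ∪ U, ∀ w' ∈ S ∪ U,
    ((wsum own E lam' g' w : ℕ) : ZMod p) = ((wsum own E lam' g' w' : ℕ) : ZMod p) → w = w'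
  soth : ∀ w, w ∉ Q → w ∉ U → wsum own E lam' g' w = wsum own E lam g w

/-- different values of `ed par` away from the root (compare `dp`) -/
theorem Lay.ed_inj {E : Finset (Sym2 W)} {own : X → W} {ρ : W} {par : W → W} {dp : W → ℕ} {lf : W → X}
    {Q : Finset W} {p : ℕ} {T : Finset (ZMod p)} {lam : X → ℕ} {g : Sym2 W → ℕ} {s0 : ℕ} {q : ℝ}
    (h : Lay E own ρ par dp lf Q p T lam g s0 q) {u v : W} (hu : u ≠ ρ) (hv : v ≠ ρ)
    (huv : ed par u = ed par v) : u = v := by
  unfold ed at huv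
  rcases Sym2.eq_iff.1 huv with ⟨h1, -⟩ | ⟨h1, h2⟩
  · exact h1
  · exfalso
    have h3 := h.pdp u hu
    have h4 := h.pdp v hv
    rw [h2] at h3
    rw [← h1] at h4
    omega

/-- change of a sum when one value is changed -/
theorem StepA_sum {α : Type} [DecidableEq α] (s : Finset α) (f f' : α → ℕ) (x : α)
    (h : ∀ y ∈ s, y ≠ x → f' y = f y) :
    ∑ y ∈ s, f' y + (if x ∈ s then f x else 0) = ∑ y ∈ s, f y + (if x ∈ s then f' x else 0) := by
  by_cases hx : x ∈ s
  · have h1 : ∑ y ∈ s.erase x, f' y = ∑ y ∈ s.erase x, f y :=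
      Finset.sum_congr rfl fun y hy => h y (Finset.mem_of_mem_erase hy) (Finset.ne_of_mem_erase hy)
    rw [if_pos hx, if_pos hx, ← Finset.add_sum_erase s f' hx, ← Finset.add_sum_erase s f hx, h1]
    ring
  · rw [if_neg hx, if_neg hx,
      Finset.sum_congr rfl fun y hy => h y hy fun hyx => hx (hyx ▸ hy)]

/-- change of the sums when the label of one leaf is changed -/
theorem wsum_update_leaf (own : X → W) (E : Finset (Sym2 W)) (lam lam' : X → ℕ) (g : Sym2 W → ℕ)
    (x : X) (hne : ∀ y, y ≠ x → lam' y = lam y) (w : W) :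
    wsum own E lam' g w + (if own x = w then lam x else 0) =
      wsum own E lam g w + (if own x = w then lam' x else 0) := by
  have h := StepA_sum (leavesAt own w) lam lam' x fun y _ hy => hne y hy
  have hx : x ∈ leavesAt own w ↔ own x = w := by simp [leavesAt]
  simp only [hx] at h
  unfold wsum
  omega

/-- change of the sums when the label of one edge is changed -/
theorem wsum_update_edge (own : X → W) (E : Finset (Sym2 W)) (lam : X → ℕ) (g g' : Sym2 W → ℕ)
    (e : Sym2 W) (he : e ∈ E) (hne : ∀ f ∈ E, f ≠ e → g' f = g f) (w : W) :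
    wsum own E lam g' w + (if w ∈ e then g e else 0) =
      wsum own E lam g w + (if w ∈ e then g' e else 0) := by
  have h := StepA_sum (edgesAt E w) g g' e fun f hf hfe =>
    hne f (Finset.mem_filter.1 hf).1 hfe
  have hx : e ∈ edgesAt E w ↔ w ∈ e := by simp [edgesAt, he]
  simp only [hx] at h
  unfold wsum
  omega

end Pool.Agent.AMD
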