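import Pool.Agent.AMA.Parts

/-!
# Two kinds of slots, one part per vertex: definitions

Every part `Q` is a regular vertex with two slots: slot `0` is its tree edge (high label); slot `1` is a
private leaf edge (low label) if `sup Q`, otherwise a second inner edge (high label).
-/


set_option autoImplicit false
set_option linter.unusedSectionVars false
set_option linter.unusedVariables false

namespace Pool.Agent.AMD

open Finset

/-- Hypotheses: `LH` high labels, `LL` low labels, both even in number, each in a short interval;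
`off` the offsets in `ZMod p`. -/
structure Hyp2 {P : Type} [Fintype P] [DecidableEq P] (sup : P → Prop) [DecidablePred sup] {p : ℕ}
    (off : P → ZMod p) (LH LL Win : Finset ℕ) (loH loL lenH lenL N B : ℕ) (c1 C1 : ℝ) : Prop where
  cardP : Fintype.card P ≤ N
  pN : (p : ℝ) ≤ C1 * N
  lenp : 2 * (lenH + lenL + 2) < p
  LHm : ∀ a ∈ LH, loH ≤ a ∧ a < loH + lenH
  LLm : ∀ a ∈ LL, loL ≤ a ∧ a < loL + lenL
  evH : Even LH.card
  evL : Even LL.card
  cardH : LH.card = Fintype.card P + (univ.filter fun Q => ¬ sup Q).card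
  cardL : LL.card = (univ.filter fun Q => sup Q).card
  many : c1 * N ≤ ((univ.filter fun Q => sup Q).card : ℝ)
  mult : ∀ y : ZMod p, y ≠ 0 → (univ.filter fun Q => sup Q ∧ off Q = y).card ≤ B
  winS : Win ⊆ LL
  winC : LL.card ≤ 4 * Win.card

/-- Conclusion: labels `x Q i` for the parts `Q ∈ Pm`, all distinct; the sums are distinct and not in
`T`; the values without slot `1` occur at most twice among the supports; all tests are good. -/
structure Out2 {P : Type} [Fintype P] [DecidableEq P] (sup : P → Prop) [DecidablePred sup] {p : ℕ}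
    (off : P → ZMod p) (LH LL Win : Finset ℕ) (T : Finset (ZMod p)) (Pm : Finset P)
    (x : P → Fin 2 → ℕ) (q : ℝ) : Prop where
  mem0 : ∀ Q ∈ Pm, x Q 0 ∈ LH
  mem1 : ∀ Q ∈ Pm, sup Q → x Q 1 ∈ LL
  mem1' : ∀ Q ∈ Pm, ¬ sup Q → x Q 1 ∈ LH
  injH : ∀ Q ∈ Pm, ∀ Q' ∈ Pm, ∀ i j, (i = 1 → ¬ sup Q) → (j = 1 → ¬ sup Q') →
    x Q i = x Q' j → Q = Q' ∧ i = j
  injL : ∀ Q ∈ Pm, ∀ Q' ∈ Pm, sup Q → sup Q' → x Q 1 = x Q' 1 → Q = Q'
  sinj : ∀ Q ∈ Pm, ∀ Q' ∈ Pm, off Q + ((x Q 0 : ℕ) : ZMod p) + ((x Q 1 : ℕ) : ZMod p) =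
    off Q' + ((x Q' 0 : ℕ) : ZMod p) + ((x Q' 1 : ℕ) : ZMod p) → Q = Q'
  nT : ∀ Q ∈ Pm, off Q + ((x Q 0 : ℕ) : ZMod p) + ((x Q 1 : ℕ) : ZMod p) ∉ T
  key : ∀ y : ZMod p, (Pm.filter fun Q => sup Q ∧ off Q + ((x Q 0 : ℕ) : ZMod p) = y).card ≤ 2
  test : ∀ y π : ZMod p, q ≤ (((Pm.filter fun Q => sup Q ∧ x Q 1 ∈ Win ∧
    off Q + ((x Q 0 : ℕ) : ZMod p) + y ∈ T ∧ π + ((x Q 1 : ℕ) : ZMod p) ∈ T ∧
    π + ((x Q 1 : ℕ) : ZMod p) ≠ off Q + ((x Q 0 : ℕ) : ZMod p) + y).card : ℕ) : ℝ)

/-- the system of parts; `of Q < p` the offset in the shifted coordinates, `z` its value for the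
offset `0` -/
def sys2 {P : Type} (sup : P → Prop) [DecidablePred sup] (of : P → ℕ) (z : ℕ) : AMA.PSys P 2 where
  z := z
  kd Q i := if i = 0 then some true else if sup Q then some false else some true
  S Q := {((univ : Finset (Fin 2)), of Q)}
  Gd Q := if sup Q then {((1 : Fin 2), {(({0} : Finset (Fin 2)), of Q)})} else ∅

/-- The special forms: if at least one eighth as many parts are no supports as are supports, the
sums of the former (two high slots), otherwise the sums of the supports (high and low slot,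
`3 hH ≤ 4 hL`). -/
def sp2 {P : Type} [Fintype P] (sup : P → Prop) [DecidablePred sup] (of : P → ℕ) (Q : P) :
    Finset (AMA.Frm 2) :=
  if (univ.filter fun Q => sup Q).card ≤ 8 * (univ.filter fun Q => ¬ sup Q).card then
    (if sup Q then ∅ else {((univ : Finset (Fin 2)), of Q)})
  else (if sup Q then {((univ : Finset (Fin 2)), of Q)} else ∅)

end Pool.Agent.AMD
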