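import Pool.Agent.AMD.TwoDefs

/-!
# PSOK for the system of Case 2
-/

set_option autoImplicit false
set_option linter.unusedSectionVars false
set_option linter.unusedVariables false

namespace Pool.Agent.AMD

open Finset

theorem TwoOK_sum_ite {P : Type} [Fintype P] (pr : P → Prop) [DecidablePred pr] (a b : ℕ) :
    ∑ Q, (if pr Q then a else b) =
      a * (univ.filter fun Q => pr Q).card + b * (univ.filter fun Q => ¬ pr Q).card := by
  rw [sum_ite, sum_const, sum_const, smul_eq_mul, smul_eq_mul, mul_comm, mul_comm b]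

theorem TwoOK_card {P : Type} [Fintype P] (pr : P → Prop) [DecidablePred pr] :
    (univ.filter fun Q => pr Q).card + (univ.filter fun Q => ¬ pr Q).card = Fintype.card P := by
  rw [← card_univ]
  exact card_filter_add_card_filter_not _

/-- the gadget end forms: at most the form `({0}, of Q)` -/
theorem TwoOK_Bf {P : Type} (sup : P → Prop) [DecidablePred sup] (of : P → ℕ) (z : ℕ) (Q : P) :
    (sys2 sup of z).Bf Q = if sup Q ∧ of Q ≠ z then {(({0} : Finset (Fin 2)), of Q)} else ∅ := by
  unfold AMA.PSys.Bf
  by_cases h : sup Q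
  · by_cases h2 : of Q = z
    · simp [sys2, h, h2, filter_singleton]
    · simp [sys2, h, h2, filter_singleton]
  · simp [sys2, h]

/-- **PSOK for the system of Case 2.** `Λ true` high, `Λ false` low labels (shifted), `h k` half of their
number. -/
theorem psok2 {P : Type} [Fintype P] [DecidableEq P] (sup : P → Prop) [DecidablePred sup]
    (of : P → ℕ) (z : ℕ) (Λ : Bool → Fin 3 → Finset ℕ) (h : Bool → ℕ) (R p N B : ℕ) (c1 C1 : ℝ)
    (Win : Bool → Finset ℕ) (hc1 : 0 < c1) (hlam : AMA.LamOK Λ h R) (hcP : Fintype.card P ≤ N)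
    (hR : 2 * R < p) (hpN : (p : ℝ) ≤ C1 * N)
    (hH : 2 * h true = Fintype.card P + (univ.filter fun Q => ¬ sup Q).card)
    (hL : 2 * h false = (univ.filter fun Q => sup Q).card)
    (hmany : c1 * N ≤ ((univ.filter fun Q => sup Q).card : ℝ)) (hof : ∀ Q, of Q < p)
    (hmult : ∀ d, d ≠ z → (univ.filter fun Q => sup Q ∧ of Q = d).card ≤ B)
    (hWin : ∀ k, Win k ⊆ Λ k 0) (hWc : ∀ k, h k ≤ 2 * (Win k).card) :
    AMA.PSOK (sys2 sup of z) Λ h R p N 0 B (c1 / 2) C1 (1 / 10) c1 (sp2 sup of) Win := by
  have hcard := TwoOK_card sup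
  set ns := (univ.filter fun Q => sup Q).card with hns
  set n0 := (univ.filter fun Q => ¬ sup Q).card with hn0
  have hkd0 : ∀ Q, (sys2 sup of z).kd Q 0 = some true := fun Q => by simp [sys2]
  have hkd1 : ∀ Q, (sys2 sup of z).kd Q 1 = if sup Q then some false else some true := fun Q => by
    simp [sys2]
  have hS : ∀ Q, (sys2 sup of z).S Q = {((univ : Finset (Fin 2)), of Q)} := fun Q => rfl
  have hGd : ∀ Q, (sys2 sup of z).Gd Q =
    if sup Q then {((1 : Fin 2), {(({0} : Finset (Fin 2)), of Q)})} else ∅ := fun Q => rfl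
  have hslT : ∀ Q, (univ.filter fun i => (sys2 sup of z).kd Q i = some true).card =
      if sup Q then 1 else 2 := by
    intro Q
    by_cases h1 : sup Q
    · rw [if_pos h1, card_eq_one]
      refine ⟨0, ?_⟩
      ext i
      fin_cases i <;> simp [sys2, h1]
    · rw [if_neg h1]
      have : (univ.filter fun i => (sys2 sup of z).kd Q i = some true) = univ := by
        ext i
        fin_cases i <;> simp [sys2, h1]
      rw [this]; rfl
  have hslF : ∀ Q, (univ.filter fun i => (sys2 sup of z).kd Q i = some false).card =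
      if sup Q then 1 else 0 := by
    intro Q
    by_cases h1 : sup Q
    · rw [if_pos h1, card_eq_one]
      refine ⟨1, ?_⟩
      ext i
      fin_cases i <;> simp [sys2, h1]
    · rw [if_neg h1, card_eq_zero]
      ext i
      fin_cases i <;> simp [sys2, h1]
  have hLr : 2 * (h false : ℝ) = ns := by exact_mod_cast hL
  have hHr : 2 * (h true : ℝ) = (ns + n0 : ℕ) + n0 := by
    rw [hcard]; exact_mod_cast hH
  push_cast at hHr
  have hn0r : (0 : ℝ) ≤ n0 := Nat.cast_nonneg _
  refine
    { lam := hlam
      cardP := hcP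
      Rp := by omega
      sRp := hR
      pN := hpN
      hlow := ?_
      hhigh := by linarith
      slH := ?_
      slL := ?_
      S_act := ?_
      S_hi := ?_
      S_inj := ?_
      S_lt := ?_
      S_card := ?_
      S_sum := ?_
      Sp_sub := ?_
      Sp_spec := ?_
      Sp_sum := ?_
      G_act := ?_
      G_uniq := ?_
      G_card := ?_
      G_notin := ?_
      G_S := ?_
      G_ne := ?_
      B_card := ?_
      B_H := ?_
      B_L := ?_
      G_sum := ?_
      m1 := ?_
      m2 := ?_
      m2' := ?_
      m3 := ?_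
      m4 := ?_
      W_sub := hWin
      W_card := hWc }
  · intro k _
    cases k
    · linarith
    · linarith
  · simp only [hslT]
    rw [TwoOK_sum_ite sup, hH]
    omega
  · simp only [hslF]
    rw [TwoOK_sum_ite sup, hL]
    omega
  · intro Q φ hφ i _
    by_cases h1 : sup Q <;> fin_cases i <;> simp [sys2, h1]
  · intro Q φ hφ
    rw [hS, mem_singleton] at hφ
    subst hφ
    exact ⟨0, mem_univ _, hkd0 Q⟩
  · intro Q φ hφ ψ hψ _
    rw [hS, mem_singleton] at hφ hψ
    rw [hφ, hψ]
  · intro Q φ hφ
    rw [hS, mem_singleton] at hφ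
    subst hφ
    exact hof Q
  · intro Q
    rw [hS, card_singleton]
    norm_num
  · simp only [hS, card_singleton, sum_const, smul_eq_mul, mul_one, card_univ]
    omega
  · intro Q
    rw [hS]
    unfold sp2
    split_ifs <;> simp
  · intro Q φ hφ
    unfold sp2 at hφ
    by_cases hc : (univ.filter fun Q => sup Q).card ≤ 8 * (univ.filter fun Q => ¬ sup Q).card
    · rw [if_pos hc] at hφ
      by_cases h1 : sup Q
      · rw [if_pos h1] at hφ
        exact absurd hφ (notMem_empty _)
      · rw [if_neg h1, mem_singleton] at hφ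
        subst hφ
        refine ⟨by simp, 0, mem_univ _, 1, mem_univ _, by decide, hkd0 Q, Or.inl ?_⟩
        rw [hkd1, if_neg h1]
    · rw [if_neg hc] at hφ
      by_cases h1 : sup Q
      · rw [if_pos h1, mem_singleton] at hφ
        subst hφ
        refine ⟨by simp, 0, mem_univ _, 1, mem_univ _, by decide, hkd0 Q, Or.inr ⟨?_, ?_⟩⟩
        · rw [hkd1, if_pos h1]
        · omega
      · rw [if_neg h1] at hφ
        exact absurd hφ (notMem_empty _)
  · unfold sp2
    by_cases hc : (univ.filter fun Q => sup Q).card ≤ 8 * (univ.filter fun Q => ¬ sup Q).card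
    · have : ∑ Q, (((if (univ.filter fun Q => sup Q).card ≤ 8 * (univ.filter fun Q => ¬ sup Q).card
          then (if sup Q then (∅ : Finset (AMA.Frm 2)) else {((univ : Finset (Fin 2)), of Q)})
          else (if sup Q then {((univ : Finset (Fin 2)), of Q)} else ∅)).card : ℕ) : ℝ) =
          ((∑ Q, (if sup Q then 0 else 1) : ℕ) : ℝ) := by
        push_cast
        refine sum_congr rfl fun Q _ => ?_
        rw [if_pos hc]
        split_ifs <;> simp
      rw [this, TwoOK_sum_ite sup]
      have hcr : (ns : ℝ) ≤ 8 * n0 := by exact_mod_cast hc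
      push_cast
      rw [← hn0]
      linarith
    · have : ∑ Q, (((if (univ.filter fun Q => sup Q).card ≤ 8 * (univ.filter fun Q => ¬ sup Q).card
          then (if sup Q then (∅ : Finset (AMA.Frm 2)) else {((univ : Finset (Fin 2)), of Q)})
          else (if sup Q then {((univ : Finset (Fin 2)), of Q)} else ∅)).card : ℕ) : ℝ) =
          ((∑ Q, (if sup Q then 1 else 0) : ℕ) : ℝ) := by
        push_cast
        refine sum_congr rfl fun Q _ => ?_
        rw [if_neg hc]
        split_ifs <;> simp
      rw [this, TwoOK_sum_ite sup]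
      have hcr : (8 * n0 : ℝ) < ns := by exact_mod_cast not_le.1 hc
      push_cast
      rw [← hns]
      linarith
  · intro Q g hg
    rw [hGd] at hg
    by_cases h1 : sup Q
    · rw [if_pos h1, mem_singleton] at hg
      subst hg
      rw [hkd1, if_pos h1]
      simp
    · rw [if_neg h1] at hg
      exact absurd hg (notMem_empty _)
  · intro Q g hg g' hg' _
    rw [hGd] at hg hg'
    by_cases h1 : sup Q
    · rw [if_pos h1, mem_singleton] at hg hg'
      rw [hg, hg']
    · rw [if_neg h1] at hg
      exact absurd hg (notMem_empty _)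
  · intro Q g hg
    rw [hGd] at hg
    by_cases h1 : sup Q
    · rw [if_pos h1, mem_singleton] at hg
      subst hg
      simp
    · rw [if_neg h1] at hg
      exact absurd hg (notMem_empty _)
  · intro Q g hg β hβ
    rw [hGd] at hg
    by_cases h1 : sup Q
    · rw [if_pos h1, mem_singleton] at hg
      subst hg
      simp only [mem_singleton] at hβ
      subst hβ
      simp
    · rw [if_neg h1] at hg
      exact absurd hg (notMem_empty _)
  · intro Q g hg β hβ
    rw [hGd] at hg
    by_cases h1 : sup Q
    · rw [if_pos h1, mem_singleton] at hg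
      subst hg
      simp only [mem_singleton] at hβ
      subst hβ
      rw [hS, mem_singleton]
      refine Prod.ext ?_ rfl
      change insert (1 : Fin 2) ({0} : Finset (Fin 2)) = univ
      decide
    · rw [if_neg h1] at hg
      exact absurd hg (notMem_empty _)
  · intro Q g hg β hβ β' hβ' _
    rw [hGd] at hg
    by_cases h1 : sup Q
    · rw [if_pos h1, mem_singleton] at hg
      subst hg
      simp only [mem_singleton] at hβ hβ'
      rw [hβ, hβ']
    · rw [if_neg h1] at hg
      exact absurd hg (notMem_empty _)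
  · intro Q
    rw [TwoOK_Bf]
    split_ifs <;> simp
  · have : ∀ Q, (((sys2 sup of z).Bf Q).filter fun β => (sys2 sup of z).tg Q β = 2).card ≤ 1 := by
      intro Q
      refine (card_filter_le _ _).trans ?_
      rw [TwoOK_Bf]
      split_ifs <;> simp
    refine (sum_le_sum fun Q _ => this Q).trans ?_
    simp only [sum_const, smul_eq_mul, mul_one, card_univ]
    omega
  · have : ∀ Q, (((sys2 sup of z).Bf Q).filter fun β => (sys2 sup of z).tg Q β = 3).card = 0 := by
      intro Q
      rw [card_eq_zero, filter_eq_empty_iff]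
      intro β hβ
      rw [TwoOK_Bf] at hβ
      split_ifs at hβ with h1
      · rw [mem_singleton] at hβ
        subst hβ
        unfold AMA.PSys.tg
        rw [if_pos ⟨0, by simp, hkd0 Q⟩]
        decide
      · exact absurd hβ (notMem_empty _)
    simp only [this, sum_const_zero]
    omega
  · have : ∑ Q, ((((sys2 sup of z).Gd Q).card : ℕ) : ℝ) = ((∑ Q, (if sup Q then 1 else 0) : ℕ) : ℝ) := by
      push_cast
      refine sum_congr rfl fun Q _ => ?_
      rw [hGd]
      split_ifs <;> simp
    rw [this, TwoOK_sum_ite sup, one_mul, zero_mul, add_zero]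
    exact hmany
  · intro δ
    refine le_trans (le_of_eq (sum_eq_zero fun Q _ => ?_)) (Nat.zero_le _)
    rw [card_eq_zero, filter_eq_empty_iff]
    intro φ hφ
    rw [hS, mem_singleton] at hφ
    subst hφ
    simp
  · intro δ
    refine le_trans (le_of_eq (sum_eq_zero fun Q _ => sum_eq_zero fun g hg => ?_)) (Nat.zero_le _)
    rw [hGd] at hg
    by_cases h1 : sup Q
    · rw [if_pos h1, mem_singleton] at hg
      subst hg
      simp [filter_singleton]
    · rw [if_neg h1] at hg
      exact absurd hg (notMem_empty _)
  · intro δ hδ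
    refine le_trans (le_of_eq ?_) (hmult δ hδ)
    rw [card_filter]
    refine sum_congr rfl fun Q _ => ?_
    rw [hGd]
    by_cases h1 : sup Q
    · rw [if_pos h1, sum_singleton]
      by_cases h2 : of Q = δ
      · simp [h1, h2, filter_singleton]
      · simp [h1, h2, filter_singleton]
    · simp [h1]
  · intro δ
    refine le_trans (le_of_eq (sum_eq_zero fun Q _ => ?_)) (Nat.zero_le _)
    rw [card_eq_zero, filter_eq_empty_iff]
    rintro ⟨φ, β⟩ hu ⟨h1, -⟩
    rw [mem_product, hS, mem_singleton, TwoOK_Bf] at hu
    obtain ⟨hu1, hu2⟩ := hu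
    simp only at hu1 hu2 h1
    split_ifs at hu2 with h3
    · rw [mem_singleton] at hu2
      rw [hu1, hu2] at h1
      change (univ : Finset (Fin 2)) = {0} at h1
      exact absurd h1 (by decide)
    · exact absurd hu2 (notMem_empty _)
  · intro δ
    refine le_trans (le_of_eq (sum_eq_zero fun Q _ => ?_)) (Nat.zero_le _)
    rw [card_eq_zero, filter_eq_empty_iff]
    rintro ⟨φ, β⟩ hu ⟨h1, -⟩
    rw [mem_product, TwoOK_Bf] at hu
    obtain ⟨hu1, hu2⟩ := hu
    simp only at hu1 hu2 h1
    split_ifs at hu1 hu2 with h3
    · rw [mem_singleton] at hu1 hu2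
      rw [hu1, hu2] at h1
      exact h1 rfl
    · exact absurd hu2 (notMem_empty _)

end Pool.Agent.AMD
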